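import Mathlib

set_option autoImplicit false

open scoped BigOperators

namespace Pool.Agent.H742R3.KMAlg

/-- translation operators on functions on the positive integers -/
def U (F : Type) [Field F] : ℕ+ →* Module.End F (ℕ+ → F) where
  toFun m :=
    { toFun := fun g a => g (m * a)
      map_add' := fun g h => rfl
      map_smul' := fun c g => rfl }
  map_one' := by
    apply LinearMap.ext; intro g; funext a
    show g (1 * a) = g a
    rw [one_mul]
  map_mul' m n := by
    apply LinearMap.ext; intro g; funext a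
    show g (m * n * a) = g (n * (m * a))
    rw [mul_comm m n, mul_assoc]

noncomputable def Phi (F : Type) [Field F] : MonoidAlgebra F ℕ+ →ₐ[F] Module.End F (ℕ+ → F) :=
  MonoidAlgebra.lift F (Module.End F (ℕ+ → F)) ℕ+ (U F)

theorem Phi_single (F : Type) [Field F] (m : ℕ+) (g : ℕ+ → F) (a : ℕ+) :
    Phi F (MonoidAlgebra.single m 1) g a = g (m * a) := by
  unfold Phi
  rw [MonoidAlgebra.lift_single, one_smul]
  rfl

/-- `i ↦ i + 1` as positive integer -/
def sp (i : ℕ) : ℕ+ := ⟨i + 1, Nat.succ_pos i⟩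

noncomputable def S (F : Type) [Field F] (p : ℕ) : MonoidAlgebra F ℕ+ :=
  ∑ i ∈ Finset.range p, MonoidAlgebra.single (sp i) 1

theorem Phi_S (F : Type) [Field F] (p : ℕ) (g : ℕ+ → F) (a : ℕ+) :
    Phi F (S F p) g a = ∑ i ∈ Finset.range p, g (sp i * a) := by
  unfold S
  rw [map_sum, LinearMap.sum_apply, Finset.sum_apply]
  apply Finset.sum_congr rfl
  intro i _
  exact Phi_single F _ g a

/-- a colouring of the positive integers in which `a, 2a, …, pa` always have distinct colours -/
def IsCol (p : ℕ) (c : ℕ+ → Fin p) : Prop :=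
  ∀ a : ℕ+, ∀ i < p, ∀ j < p, c (sp i * a) = c (sp j * a) → i = j

theorem IsCol.count {p : ℕ} {c : ℕ+ → Fin p} (h : IsCol p c) (k : Fin p) (a : ℕ+) :
    ((Finset.range p).filter (fun i => c (sp i * a) = k)).card = 1 := by
  classical
  -- the map i ↦ c (sp i * a) from Fin p to Fin p is injective, hence bijective
  let f : Fin p → Fin p := fun i => c (sp i.val * a)
  have hinj : Function.Injective f := by
    intro i j hij
    exact Fin.ext (h a i.val i.isLt j.val j.isLt hij)
  obtain ⟨i, hi⟩ := (Finite.injective_iff_surjective.mp hinj) k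
  rw [Finset.card_eq_one]
  refine ⟨i.val, ?_⟩
  ext j
  simp only [Finset.mem_filter, Finset.mem_range, Finset.mem_singleton]
  constructor
  · rintro ⟨hj, hjk⟩
    have : f ⟨j, hj⟩ = f i := by
      show c (sp j * a) = f i
      rw [hjk, hi]
    have := hinj this
    rw [← this]
  · rintro rfl
    exact ⟨i.isLt, hi⟩

theorem IsCol.sum_ind {p : ℕ} {c : ℕ+ → Fin p} (h : IsCol p c) (k : Fin p) (F : Type) [Field F] :
    Phi F (S F p) (fun b => if c b = k then 1 else 0) = fun _ => 1 := by
  funext a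
  rw [Phi_S]
  rw [Finset.sum_ite, Finset.sum_const_zero, add_zero, Finset.sum_const, h.count k a, one_smul]

theorem Phi_S_const {p : ℕ} (F : Type) [Field F] (x : F) :
    Phi F (S F p) (fun _ => x) = fun _ => (p : F) * x := by
  funext a
  rw [Phi_S]
  simp

theorem S_pow (p : ℕ) [hp : Fact p.Prime] :
    (S (ZMod p) p) ^ p = ∑ i ∈ Finset.range p, MonoidAlgebra.single ((sp i) ^ p) (1 : ZMod p) := by
  have : CharP (MonoidAlgebra (ZMod p) ℕ+) p := by
    apply charP_of_injective_algebraMap (R := ZMod p)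
    exact (algebraMap (ZMod p) (MonoidAlgebra (ZMod p) ℕ+)).injective
  unfold S
  rw [sum_pow_char]
  apply Finset.sum_congr rfl
  intro i _
  rw [MonoidAlgebra.single_pow, one_pow]

theorem IsCol.periodic {p : ℕ} [hp : Fact p.Prime] {c : ℕ+ → Fin p} (h : IsCol p c)
    (i : ℕ) (hi : i < p) (a : ℕ+) : c ((sp i) ^ p * a) = c a := by
  classical
  set k := c a with hk
  let f : ℕ+ → ZMod p := fun b => if c b = k then 1 else 0
  have h1 : Phi (ZMod p) (S (ZMod p) p) f = fun _ => 1 := h.sum_ind k (ZMod p)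
  have h2 : Phi (ZMod p) (S (ZMod p) p) (fun _ => 1) = fun _ => 0 := by
    rw [Phi_S_const]; funext; simp
  have h3 : Phi (ZMod p) ((S (ZMod p) p) ^ p) f = 0 := by
    obtain ⟨m, hm⟩ : ∃ m, p = m + 2 := ⟨p - 2, by have := hp.out.two_le; omega⟩
    have h4 : ∀ x : MonoidAlgebra (ZMod p) ℕ+, x ^ p = x ^ m * (x * x) := by
      intro x
      rw [← pow_two, ← pow_add, ← hm]
    rw [h4, map_mul, map_mul]
    show (Phi (ZMod p) (S (ZMod p) p ^ m)) ((Phi (ZMod p) (S (ZMod p) p)) ((Phi (ZMod p) (S (ZMod p) p)) f)) = 0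
    rw [h1, h2]
    exact map_zero _
  have h5 : ∑ j ∈ Finset.range p, f ((sp j) ^ p * a) = 0 := by
    have h6 := congrFun h3 a
    rw [S_pow, map_sum, LinearMap.sum_apply, Finset.sum_apply] at h6
    simp only [Phi_single] at h6
    simpa using h6
  have h7 : (((Finset.range p).filter (fun j => c ((sp j) ^ p * a) = k)).card : ZMod p) = 0 := by
    rw [← h5]
    show _ = ∑ j ∈ Finset.range p, (if c ((sp j) ^ p * a) = k then (1 : ZMod p) else 0)
    rw [Finset.sum_ite, Finset.sum_const_zero, add_zero, Finset.sum_const]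
    simp
  rw [ZMod.natCast_eq_zero_iff] at h7
  set T := (Finset.range p).filter (fun j => c ((sp j) ^ p * a) = k) with hT
  have h8 : 0 ∈ T := by
    rw [hT, Finset.mem_filter, Finset.mem_range]
    refine ⟨hp.out.pos, ?_⟩
    have : sp 0 = 1 := rfl
    rw [this, one_pow, one_mul]
  have h9 : 0 < T.card := Finset.card_pos.mpr ⟨0, h8⟩
  have h10 : T.card ≤ p := by
    calc T.card ≤ (Finset.range p).card := Finset.card_filter_le _ _
      _ = p := Finset.card_range p
  have h11 : T.card = p := le_antisymm h10 (Nat.le_of_dvd h9 h7)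
  have h12 : T = Finset.range p := by
    apply Finset.eq_of_subset_of_card_le (Finset.filter_subset _ _)
    rw [h11, Finset.card_range]
  have h13 : i ∈ T := by rw [h12]; exact Finset.mem_range.mpr hi
  exact (Finset.mem_filter.mp h13).2

/-- the key algebraic fact: a colouring gives a character of the multiplicative monoid -/
theorem IsCol.character {p : ℕ} [hp : Fact p.Prime] {c : ℕ+ → Fin p} (h : IsCol p c) :
    ∃ (K : Type) (_ : Field K) (_ : CharZero K) (χ : ℕ+ →* K),
      (∑ i ∈ Finset.range p, χ (sp i) = 0) ∧ ∀ i < p, χ (sp i) ^ p = 1 := by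
  classical
  set k := c 1 with hk
  let f : ℕ+ → ℚ := fun b => (if c b = k then 1 else 0) - 1 / p
  have hp0 : (p : ℚ) ≠ 0 := Nat.cast_ne_zero.mpr hp.out.ne_zero
  have hS : Phi ℚ (S ℚ p) f = 0 := by
    have h1 := h.sum_ind k ℚ
    have h2 := Phi_S_const (p := p) ℚ (1 / (p : ℚ))
    have h3 : f = (fun b => if c b = k then (1 : ℚ) else 0) - (fun _ => 1 / (p : ℚ)) := rfl
    rw [h3, map_sub, h1, h2]
    funext a
    simp [hp0]
  have hper : ∀ i < p, Phi ℚ (MonoidAlgebra.single (sp i) 1 ^ p - 1) f = 0 := by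
    intro i hi
    rw [map_sub, map_one, MonoidAlgebra.single_pow, one_pow, LinearMap.sub_apply]
    funext a
    show (Phi ℚ (MonoidAlgebra.single (sp i ^ p) 1)) f a - f a = 0
    rw [Phi_single]
    show (if c ((sp i) ^ p * a) = k then (1 : ℚ) else 0) - 1 / p
      - ((if c a = k then (1 : ℚ) else 0) - 1 / p) = 0
    rw [h.periodic i hi a]
    ring
  let I : Ideal (MonoidAlgebra ℚ ℕ+) :=
    { carrier := {x | Phi ℚ x f = 0}
      add_mem' := by
        intro x y hx hy
        simp only [Set.mem_ofPred_eq] at *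
        rw [map_add, LinearMap.add_apply, hx, hy, add_zero]
      zero_mem' := by
        simp
      smul_mem' := by
        intro r x hx
        simp only [Set.mem_ofPred_eq] at *
        rw [smul_eq_mul, map_mul]
        show (Phi ℚ r) ((Phi ℚ x) f) = 0
        rw [hx, map_zero] }
  have hI : I ≠ ⊤ := by
    intro htop
    have h1 : (1 : MonoidAlgebra ℚ ℕ+) ∈ I := by rw [htop]; trivial
    have h2 : Phi ℚ 1 f = 0 := h1
    rw [map_one] at h2
    have h3 : f 1 = 0 := congrFun h2 1
    have h4 : f 1 = 1 - 1 / p := by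
      show (if c 1 = k then (1 : ℚ) else 0) - 1 / p = 1 - 1 / p
      rw [if_pos rfl]
    rw [h4] at h3
    have h5 : (p : ℚ) = 1 := by
      field_simp at h3
      linarith
    have h6 : p = 1 := by exact_mod_cast h5
    exact hp.out.one_lt.ne' h6
  obtain ⟨M, hM, hIM⟩ := Ideal.exists_le_maximal I hI
  let _ : Field (MonoidAlgebra ℚ ℕ+ ⧸ M) := Ideal.Quotient.field M
  have : CharZero (MonoidAlgebra ℚ ℕ+ ⧸ M) := algebraRat.charZero _
  refine ⟨MonoidAlgebra ℚ ℕ+ ⧸ M, inferInstance, inferInstance,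
    ((Ideal.Quotient.mk M : MonoidAlgebra ℚ ℕ+ →* MonoidAlgebra ℚ ℕ+ ⧸ M)).comp
      (MonoidAlgebra.of ℚ ℕ+), ?_, ?_⟩
  · have h1 : S ℚ p ∈ M := hIM hS
    have h2 := Ideal.Quotient.eq_zero_iff_mem.mpr h1
    unfold S at h2
    rw [map_sum] at h2
    exact h2
  · intro i hi
    have h1 : MonoidAlgebra.single (sp i) 1 ^ p - 1 ∈ M := hIM (hper i hi)
    have h2 := Ideal.Quotient.eq_zero_iff_mem.mpr h1
    rw [map_sub, map_one, map_pow, sub_eq_zero] at h2
    exact h2

end Pool.Agent.H742R3.KMAlg
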