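import Mathlib
import Pool.Agent.H742R3.KMAlg

set_option autoImplicit false

open scoped BigOperators

namespace Pool.Agent.H742R3.KMAlg

/-- a vanishing sum of `p` powers of a primitive `p`-th root of unity uses every exponent once -/
theorem inj_of_sum_zero {K : Type} [Field K] [CharZero K] {p : ℕ} (hp : p.Prime) {ζ : K}
    (hζ : IsPrimitiveRoot ζ p) (e : ℕ → ℕ) (he : ∀ i < p, e i < p)
    (hsum : ∑ i ∈ Finset.range p, ζ ^ (e i) = 0) :
    ∀ i < p, ∀ j < p, e i = e j → i = j := by
  classical
  have hp0 : 0 < p := hp.pos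
  have : Fact p.Prime := ⟨hp⟩
  let P : Polynomial ℚ := ∑ i ∈ Finset.range p, Polynomial.X ^ (e i)
  have hP : Polynomial.aeval ζ P = 0 := by
    simp only [P, map_sum, map_pow, Polynomial.aeval_X]
    exact hsum
  have hdvd : Polynomial.cyclotomic p ℚ ∣ P := by
    rw [Polynomial.cyclotomic_eq_minpoly_rat hζ hp0]
    exact minpoly.dvd ℚ ζ hP
  obtain ⟨Q, hQ⟩ := hdvd
  have hcoeff : ∀ j, P.coeff j = (((Finset.range p).filter (fun i => e i = j)).card : ℚ) := by
    intro j
    simp only [P, Polynomial.finsetSum_coeff, Polynomial.coeff_X_pow]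
    rw [Finset.sum_ite, Finset.sum_const_zero, add_zero, Finset.sum_const]
    simp only [nsmul_eq_mul, mul_one]
    congr 2
    ext i
    simp only [Finset.mem_filter, eq_comm]
  have hPdeg : P.natDegree ≤ p - 1 := by
    apply Polynomial.natDegree_sum_le_of_forall_le
    intro i hi
    rw [Polynomial.natDegree_X_pow]
    have := he i (Finset.mem_range.mp hi)
    omega
  have hPne : P ≠ 0 := by
    intro h0
    have h1 := hcoeff (e 0)
    rw [h0, Polynomial.coeff_zero] at h1
    have h2 : 0 ∈ (Finset.range p).filter (fun i => e i = e 0) := by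
      simp [hp0]
    have h3 : 0 < ((Finset.range p).filter (fun i => e i = e 0)).card :=
      Finset.card_pos.mpr ⟨0, h2⟩
    have h4 : ((((Finset.range p).filter (fun i => e i = e 0)).card : ℕ) : ℚ) ≠ 0 := by
      exact_mod_cast h3.ne'
    exact h4 h1.symm
  have hQne : Q ≠ 0 := by
    rintro rfl
    rw [mul_zero] at hQ
    exact hPne hQ
  have hcyc : (Polynomial.cyclotomic p ℚ).natDegree = p - 1 := by
    rw [Polynomial.natDegree_cyclotomic, Nat.totient_prime hp]
  have hQdeg : Q.natDegree = 0 := by
    have h1 : P.natDegree = (Polynomial.cyclotomic p ℚ).natDegree + Q.natDegree := by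
      rw [hQ, Polynomial.natDegree_mul (Polynomial.cyclotomic_ne_zero p ℚ) hQne]
    omega
  obtain ⟨q, hq⟩ := Polynomial.natDegree_eq_zero.mp hQdeg
  have hcyccoeff : ∀ j < p, (Polynomial.cyclotomic p ℚ).coeff j = 1 := by
    intro j hj
    rw [Polynomial.cyclotomic_prime, Polynomial.finsetSum_coeff]
    simp only [Polynomial.coeff_X_pow]
    rw [Finset.sum_ite_eq]
    simp [hj]
  have hcount : ∀ j < p, (((Finset.range p).filter (fun i => e i = j)).card : ℚ) = q := by
    intro j hj
    rw [← hcoeff, hQ, ← hq, Polynomial.coeff_mul_C, hcyccoeff j hj, one_mul]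
  -- all counts are equal to a common natural number n
  have hnat : ∀ j < p, ((Finset.range p).filter (fun i => e i = j)).card
      = ((Finset.range p).filter (fun i => e i = 0)).card := by
    intro j hj
    have h1 := hcount j hj
    have h2 := hcount 0 hp0
    rw [← h2] at h1
    exact_mod_cast h1
  set n := ((Finset.range p).filter (fun i => e i = 0)).card with hn
  have htotal : p = ∑ j ∈ Finset.range p, ((Finset.range p).filter (fun i => e i = j)).card := by
    have := Finset.card_eq_sum_card_fiberwise (f := e) (s := Finset.range p) (t := Finset.range p)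
      (fun i hi => by
        have h1 := he i (Finset.mem_range.mp hi)
        exact Finset.mem_range.mpr h1)
    rw [Finset.card_range] at this
    exact this
  have hn1 : n = 1 := by
    rw [Finset.sum_congr rfl (fun j hj => hnat j (Finset.mem_range.mp hj)), Finset.sum_const,
      Finset.card_range, smul_eq_mul] at htotal
    nlinarith [hp0]
  intro i hi j hj hij
  have h1 := hnat (e i) (he i hi)
  rw [hn1, Finset.card_eq_one] at h1
  obtain ⟨x, hx⟩ := h1
  have h2 : i ∈ (Finset.range p).filter (fun i' => e i' = e i) := by simp [hi]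
  have h3 : j ∈ (Finset.range p).filter (fun i' => e i' = e i) := by simp [hj, hij]
  rw [hx, Finset.mem_singleton] at h2 h3
  rw [h2, h3]

theorem char_inj {K : Type} [Field K] [CharZero K] {p : ℕ} (hp : p.Prime) (χ : ℕ+ →* K)
    (hsum : ∑ i ∈ Finset.range p, χ (sp i) = 0) (hpow : ∀ i < p, χ (sp i) ^ p = 1) :
    ∀ i < p, ∀ j < p, χ (sp i) = χ (sp j) → i = j := by
  classical
  have : Fact p.Prime := ⟨hp⟩
  have : NeZero p := ⟨hp.ne_zero⟩
  -- some value is not one
  have hex : ∃ i0 < p, χ (sp i0) ≠ 1 := by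
    by_contra hno
    push Not at hno
    rw [Finset.sum_congr rfl (fun i hi => hno i (Finset.mem_range.mp hi))] at hsum
    simp at hsum
    exact hp.ne_zero hsum
  obtain ⟨i0, hi0, hne⟩ := hex
  have hζ : IsPrimitiveRoot (χ (sp i0)) p := by
    rw [IsPrimitiveRoot.iff_orderOf]
    exact orderOf_eq_prime (hpow i0 hi0) hne
  set ζ := χ (sp i0) with hζdef
  have hexp : ∀ i, ∃ e, i < p → (e < p ∧ ζ ^ e = χ (sp i)) := by
    intro i
    by_cases hi : i < p
    · obtain ⟨e, he, h⟩ := hζ.eq_pow_of_pow_eq_one (hpow i hi)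
      exact ⟨e, fun _ => ⟨he, h⟩⟩
    · exact ⟨0, fun h => absurd h hi⟩
  choose e he using hexp
  have hinj := inj_of_sum_zero hp hζ e (fun i hi => (he i hi).1) (by
    rw [← hsum]
    apply Finset.sum_congr rfl
    intro i hi
    exact (he i (Finset.mem_range.mp hi)).2)
  intro i hi j hj hij
  apply hinj i hi j hj
  apply hζ.pow_inj (he i hi).1 (he j hj).1
  rw [(he i hi).2, (he j hj).2, hij]

end Pool.Agent.H742R3.KMAlg
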