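set_option autoImplicit false
set_option linter.unusedVariables false

namespace Pool.Agent.H742R3.KM

noncomputable section

/-- three stacked copies of a 211-bit mask -/
def tri (F : Nat) : Nat := Nat.lor F (Nat.lor (Nat.shiftLeft F 211) (Nat.shiftLeft F 422))

def R2 (G : Nat) : Nat := Nat.land G (Nat.shiftRight G 1)
def R3 (G : Nat) : Nat := Nat.land (R2 G) (Nat.shiftRight G 2)
def R4 (G : Nat) : Nat := Nat.land (R2 G) (Nat.shiftRight (R2 G) 2)
def R5 (G : Nat) : Nat := Nat.land (R4 G) (Nat.shiftRight G 4)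
def R6 (G : Nat) : Nat := Nat.land (R4 G) (Nat.shiftRight (R2 G) 4)
def R7 (G : Nat) : Nat := Nat.land (R6 G) (Nat.shiftRight G 6)

def foldM (x : Nat) : Nat := Nat.land (Nat.lor x (Nat.shiftRight x 211)) 3291009114642412084309938365114701009965471731267159726697218047

/-- evaluate the (small) argument to a literal first -/
def force (k : Nat → Bool) (x : Nat) : Bool :=
  @Nat.rec (fun _ => Bool) (k 0) (fun m _ => k m) (Nat.add x 1)

/-- table: byte number `2^v mod 227` holds `v` -/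
def tbl : Nat := 2075047441393642094760590872405993193469920273954576482722916481997967286642781498921798421396542000869564872957260118764776808765041141454387851262639713232002687359842756040881640873971537671354815994791263046015821244506194430457603765700325843859659207907154092658924274340965632526176801662964240896749529475790612881163847041662985415296371771337895448352134830561477578603454248690209981743155470149110437148152699709149965745092456893965680906757945924164437154831359560046123593314076466680920911323459809000423701765640624472534835855360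

/-- index of a power of two below `2^211` -/
def idx (b : Nat) : Nat := Nat.land (Nat.shiftRight tbl (Nat.mul 8 (Nat.mod b 227))) 255

/-- run `k` on every set bit of the mask -/
def enum (k : Nat → Bool) (fuel : Nat) : Nat → Bool :=
  @Nat.rec (fun _ => Nat → Bool) (fun C => Nat.beq C 0)
    (fun _ ih C => @Bool.rec (fun _ => Bool)
      ((fun C' => force (fun v => @Bool.rec (fun _ => Bool) false
          (@Bool.rec (fun _ => Bool) false (ih C') (k v))
          (Nat.beq (Nat.xor C' (Nat.shiftLeft 1 v)) C)) (idx (Nat.xor C C'))) (Nat.land C (Nat.sub C 1)))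
      true (Nat.beq C 0)) fuel

def cand41 (v3 v5 G : Nat) : Nat := (Nat.land (R3 G) (Nat.land (Nat.shiftRight G v3) (Nat.land (Nat.shiftRight G v5) 3291009114642412084309938365114701009965471731267159726697218047)))
def lvl41 (v3 v5 F : Nat) : Bool := Nat.beq (cand41 v3 v5 (tri F)) 0
def cand37 (v3 v5 G : Nat) : Nat := (Nat.land (R3 G) (Nat.land (Nat.shiftRight G v3) (Nat.land (Nat.shiftRight G v5) 3291009114642412084309938365114701009965471731267159726697218047)))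
def mask37 (v3 v5 : Nat) : Nat := foldM (Nat.lor 7 (Nat.lor (Nat.shiftLeft 1 v3) (Nat.shiftLeft 1 v5)))
def step37 (v3 v5 F : Nat) (v37 : Nat) : Bool := (fun F1 => lvl41 v3 v5 F1) (Nat.xor F (foldM (Nat.shiftLeft (mask37 v3 v5) v37)))
def lvl37 (v3 v5 F : Nat) : Bool := enum (step37 v3 v5 F) 211 (cand37 v3 v5 (tri F))
def cand31 (v3 v5 G : Nat) : Nat := (Nat.land (R3 G) (Nat.land (Nat.shiftRight (R2 G) v3) (Nat.land (Nat.shiftRight G v5) 3291009114642412084309938365114701009965471731267159726697218047)))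
def mask31 (v3 v5 : Nat) : Nat := foldM (Nat.lor 7 (Nat.lor (Nat.shiftLeft 3 v3) (Nat.shiftLeft 1 v5)))
def step31 (v3 v5 F : Nat) (v31 : Nat) : Bool := (fun F1 => lvl37 v3 v5 F1) (Nat.xor F (foldM (Nat.shiftLeft (mask31 v3 v5) v31)))
def lvl31 (v3 v5 F : Nat) : Bool := enum (step31 v3 v5 F) 211 (cand31 v3 v5 (tri F))
def cand29 (v3 v5 v7 G : Nat) : Nat := (Nat.land (R3 G) (Nat.land (Nat.shiftRight (R2 G) v3) (Nat.land (Nat.shiftRight G v5) (Nat.land (Nat.shiftRight G v7) 3291009114642412084309938365114701009965471731267159726697218047))))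
def mask29 (v3 v5 v7 : Nat) : Nat := foldM (Nat.lor 7 (Nat.lor (Nat.shiftLeft 3 v3) (Nat.lor (Nat.shiftLeft 1 v5) (Nat.shiftLeft 1 v7))))
def step29 (v3 v5 v7 F : Nat) (v29 : Nat) : Bool := (fun F1 => lvl31 v3 v5 F1) (Nat.xor F (foldM (Nat.shiftLeft (mask29 v3 v5 v7) v29)))
def lvl29 (v3 v5 v7 F : Nat) : Bool := enum (step29 v3 v5 v7 F) 211 (cand29 v3 v5 v7 (tri F))
def cand23 (v3 v5 v7 G : Nat) : Nat := (Nat.land (R4 G) (Nat.land (Nat.shiftRight (R2 G) v3) (Nat.land (Nat.shiftRight G v5) (Nat.land (Nat.shiftRight G v7) (Nat.land (Nat.shiftRight G (Nat.mod (Nat.add v3 v3) 211)) 3291009114642412084309938365114701009965471731267159726697218047)))))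
def mask23 (v3 v5 v7 : Nat) : Nat := foldM (Nat.lor 15 (Nat.lor (Nat.shiftLeft 3 v3) (Nat.lor (Nat.shiftLeft 1 v5) (Nat.lor (Nat.shiftLeft 1 v7) (Nat.shiftLeft 1 (Nat.mod (Nat.add v3 v3) 211))))))
def step23 (v3 v5 v7 F : Nat) (v23 : Nat) : Bool := (fun F1 => lvl29 v3 v5 v7 F1) (Nat.xor F (foldM (Nat.shiftLeft (mask23 v3 v5 v7) v23)))
def lvl23 (v3 v5 v7 F : Nat) : Bool := enum (step23 v3 v5 v7 F) 211 (cand23 v3 v5 v7 (tri F))
def cand19 (v3 v5 v7 v11 G : Nat) : Nat := (Nat.land (R4 G) (Nat.land (Nat.shiftRight (R2 G) v3) (Nat.land (Nat.shiftRight (R2 G) v5) (Nat.land (Nat.shiftRight G v7) (Nat.land (Nat.shiftRight G (Nat.mod (Nat.add v3 v3) 211)) (Nat.land (Nat.shiftRight G v11) 3291009114642412084309938365114701009965471731267159726697218047))))))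
def mask19 (v3 v5 v7 v11 : Nat) : Nat := foldM (Nat.lor 15 (Nat.lor (Nat.shiftLeft 3 v3) (Nat.lor (Nat.shiftLeft 3 v5) (Nat.lor (Nat.shiftLeft 1 v7) (Nat.lor (Nat.shiftLeft 1 (Nat.mod (Nat.add v3 v3) 211)) (Nat.shiftLeft 1 v11))))))
def step19 (v3 v5 v7 v11 F : Nat) (v19 : Nat) : Bool := (fun F1 => lvl23 v3 v5 v7 F1) (Nat.xor F (foldM (Nat.shiftLeft (mask19 v3 v5 v7 v11) v19)))
def lvl19 (v3 v5 v7 v11 F : Nat) : Bool := enum (step19 v3 v5 v7 v11 F) 211 (cand19 v3 v5 v7 v11 (tri F))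
def cand17 (v3 v5 v7 v11 G : Nat) : Nat := (Nat.land (R4 G) (Nat.land (Nat.shiftRight (R3 G) v3) (Nat.land (Nat.shiftRight (R2 G) v5) (Nat.land (Nat.shiftRight G v7) (Nat.land (Nat.shiftRight G (Nat.mod (Nat.add v3 v3) 211)) (Nat.land (Nat.shiftRight G v11) 3291009114642412084309938365114701009965471731267159726697218047))))))
def mask17 (v3 v5 v7 v11 : Nat) : Nat := foldM (Nat.lor 15 (Nat.lor (Nat.shiftLeft 7 v3) (Nat.lor (Nat.shiftLeft 3 v5) (Nat.lor (Nat.shiftLeft 1 v7) (Nat.lor (Nat.shiftLeft 1 (Nat.mod (Nat.add v3 v3) 211)) (Nat.shiftLeft 1 v11))))))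
def step17 (v3 v5 v7 v11 F : Nat) (v17 : Nat) : Bool := (fun F1 => lvl19 v3 v5 v7 v11 F1) (Nat.xor F (foldM (Nat.shiftLeft (mask17 v3 v5 v7 v11) v17)))
def lvl17 (v3 v5 v7 v11 F : Nat) : Bool := enum (step17 v3 v5 v7 v11 F) 211 (cand17 v3 v5 v7 v11 (tri F))
def cand13 (v3 v5 v7 v11 G : Nat) : Nat := (Nat.land (R5 G) (Nat.land (Nat.shiftRight (R3 G) v3) (Nat.land (Nat.shiftRight (R2 G) v5) (Nat.land (Nat.shiftRight (R2 G) v7) (Nat.land (Nat.shiftRight G (Nat.mod (Nat.add v3 v3) 211)) (Nat.land (Nat.shiftRight G v11) (Nat.land (Nat.shiftRight G (Nat.mod (Nat.add v3 v5) 211)) 3291009114642412084309938365114701009965471731267159726697218047)))))))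
def mask13 (v3 v5 v7 v11 : Nat) : Nat := foldM (Nat.lor 31 (Nat.lor (Nat.shiftLeft 7 v3) (Nat.lor (Nat.shiftLeft 3 v5) (Nat.lor (Nat.shiftLeft 3 v7) (Nat.lor (Nat.shiftLeft 1 (Nat.mod (Nat.add v3 v3) 211)) (Nat.lor (Nat.shiftLeft 1 v11) (Nat.shiftLeft 1 (Nat.mod (Nat.add v3 v5) 211))))))))
def mask13_2 (v3 v5 v7 v11 : Nat) : Nat := foldM 1
def step13 (v3 v5 v7 v11 F : Nat) (v13 : Nat) : Bool := (fun F1 => (fun A => @Bool.rec (fun _ => Bool) true ((fun F2 => lvl17 v3 v5 v7 v11 F2) (Nat.xor F1 A)) (Nat.beq (Nat.land A F1) A)) (foldM (Nat.shiftLeft (mask13_2 v3 v5 v7 v11) (Nat.mod (Nat.mul 2 v13) 211)))) (Nat.xor F (foldM (Nat.shiftLeft (mask13 v3 v5 v7 v11) v13)))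
def lvl13 (v3 v5 v7 v11 F : Nat) : Bool := enum (step13 v3 v5 v7 v11 F) 211 (cand13 v3 v5 v7 v11 (tri F))
def cand11 (v3 v5 v7 G : Nat) : Nat := (Nat.land (R5 G) (Nat.land (Nat.shiftRight (R3 G) v3) (Nat.land (Nat.shiftRight (R2 G) v5) (Nat.land (Nat.shiftRight (R2 G) v7) (Nat.land (Nat.shiftRight (R2 G) (Nat.mod (Nat.add v3 v3) 211)) (Nat.land (Nat.shiftRight G (Nat.mod (Nat.add v3 v5) 211)) 3291009114642412084309938365114701009965471731267159726697218047))))))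
def mask11 (v3 v5 v7 : Nat) : Nat := foldM (Nat.lor 31 (Nat.lor (Nat.shiftLeft 7 v3) (Nat.lor (Nat.shiftLeft 3 v5) (Nat.lor (Nat.shiftLeft 3 v7) (Nat.lor (Nat.shiftLeft 3 (Nat.mod (Nat.add v3 v3) 211)) (Nat.shiftLeft 1 (Nat.mod (Nat.add v3 v5) 211)))))))
def mask11_2 (v3 v5 v7 : Nat) : Nat := foldM 1
def step11 (v3 v5 v7 F : Nat) (v11 : Nat) : Bool := (fun F1 => (fun A => @Bool.rec (fun _ => Bool) true ((fun F2 => lvl13 v3 v5 v7 v11 F2) (Nat.xor F1 A)) (Nat.beq (Nat.land A F1) A)) (foldM (Nat.shiftLeft (mask11_2 v3 v5 v7) (Nat.mod (Nat.mul 2 v11) 211)))) (Nat.xor F (foldM (Nat.shiftLeft (mask11 v3 v5 v7) v11)))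
def lvl11 (v3 v5 v7 F : Nat) : Bool := enum (step11 v3 v5 v7 F) 211 (cand11 v3 v5 v7 (tri F))
def cand7 (v3 v5 G : Nat) : Nat := (Nat.land (R5 G) (Nat.land (Nat.shiftRight (R4 G) v3) (Nat.land (Nat.shiftRight (R3 G) v5) (Nat.land (Nat.shiftRight (R2 G) (Nat.mod (Nat.add v3 v3) 211)) (Nat.land (Nat.shiftRight (R2 G) (Nat.mod (Nat.add v3 v5) 211)) (Nat.land (Nat.shiftRight G (Nat.mod (Nat.add v5 v5) 211)) (Nat.land (Nat.shiftRight G (Nat.mod (Nat.add (Nat.add v3 v3) v3) 211)) 3291009114642412084309938365114701009965471731267159726697218047)))))))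
def mask7 (v3 v5 : Nat) : Nat := foldM (Nat.lor 31 (Nat.lor (Nat.shiftLeft 15 v3) (Nat.lor (Nat.shiftLeft 7 v5) (Nat.lor (Nat.shiftLeft 3 (Nat.mod (Nat.add v3 v3) 211)) (Nat.lor (Nat.shiftLeft 3 (Nat.mod (Nat.add v3 v5) 211)) (Nat.lor (Nat.shiftLeft 1 (Nat.mod (Nat.add v5 v5) 211)) (Nat.shiftLeft 1 (Nat.mod (Nat.add (Nat.add v3 v3) v3) 211))))))))
def mask7_2 (v3 v5 : Nat) : Nat := foldM (Nat.lor 7 (Nat.shiftLeft 1 v3))
def step7 (v3 v5 F : Nat) (v7 : Nat) : Bool := (fun F1 => (fun A => @Bool.rec (fun _ => Bool) true ((fun F2 => lvl11 v3 v5 v7 F2) (Nat.xor F1 A)) (Nat.beq (Nat.land A F1) A)) (foldM (Nat.shiftLeft (mask7_2 v3 v5) (Nat.mod (Nat.mul 2 v7) 211)))) (Nat.xor F (foldM (Nat.shiftLeft (mask7 v3 v5) v7)))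
def lvl7 (v3 v5 F : Nat) : Bool := enum (step7 v3 v5 F) 211 (cand7 v3 v5 (tri F))
def cand5 (v3 G : Nat) : Nat := (Nat.land (R6 G) (Nat.land (Nat.shiftRight (R4 G) v3) (Nat.land (Nat.shiftRight (R3 G) (Nat.mod (Nat.add v3 v3) 211)) (Nat.land (Nat.shiftRight G (Nat.mod (Nat.add (Nat.add v3 v3) v3) 211)) 3291009114642412084309938365114701009965471731267159726697218047))))
def mask5 (v3 : Nat) : Nat := foldM (Nat.lor 63 (Nat.lor (Nat.shiftLeft 15 v3) (Nat.lor (Nat.shiftLeft 7 (Nat.mod (Nat.add v3 v3) 211)) (Nat.shiftLeft 1 (Nat.mod (Nat.add (Nat.add v3 v3) v3) 211)))))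
def mask5_2 (v3 : Nat) : Nat := foldM (Nat.lor 15 (Nat.shiftLeft 3 v3))
def mask5_3 (v3 : Nat) : Nat := foldM 1
def step5 (v3 F : Nat) (v5 : Nat) : Bool := (fun F1 => (fun A => @Bool.rec (fun _ => Bool) true ((fun F2 => (fun A => @Bool.rec (fun _ => Bool) true ((fun F3 => lvl7 v3 v5 F3) (Nat.xor F2 A)) (Nat.beq (Nat.land A F2) A)) (foldM (Nat.shiftLeft (mask5_3 v3) (Nat.mod (Nat.mul 3 v5) 211)))) (Nat.xor F1 A)) (Nat.beq (Nat.land A F1) A)) (foldM (Nat.shiftLeft (mask5_2 v3) (Nat.mod (Nat.mul 2 v5) 211)))) (Nat.xor F (foldM (Nat.shiftLeft (mask5 v3) v5)))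
def lvl5 (v3 F : Nat) : Bool := enum (step5 v3 F) 211 (cand5 v3 (tri F))
def cand3 (G : Nat) : Nat := (Nat.land (R7 G) 3291009114642412084309938365114701009965471731267159726697218047)
def mask3  : Nat := foldM 127
def mask3_2  : Nat := foldM 31
def mask3_3  : Nat := foldM 7
def mask3_4  : Nat := foldM 3
def step3 (F : Nat) (v3 : Nat) : Bool := (fun F1 => (fun A => @Bool.rec (fun _ => Bool) true ((fun F2 => (fun A => @Bool.rec (fun _ => Bool) true ((fun F3 => (fun A => @Bool.rec (fun _ => Bool) true ((fun F4 => lvl5 v3 F4) (Nat.xor F3 A)) (Nat.beq (Nat.land A F3) A)) (foldM (Nat.shiftLeft mask3_4 (Nat.mod (Nat.mul 4 v3) 211)))) (Nat.xor F2 A)) (Nat.beq (Nat.land A F2) A)) (foldM (Nat.shiftLeft mask3_3 (Nat.mod (Nat.mul 3 v3) 211)))) (Nat.xor F1 A)) (Nat.beq (Nat.land A F1) A)) (foldM (Nat.shiftLeft mask3_2 (Nat.mod (Nat.mul 2 v3) 211)))) (Nat.xor F (foldM (Nat.shiftLeft mask3 v3)))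
def lvl3 (F : Nat) : Bool := enum (step3  F) 211 (cand3  (tri F))

end

end Pool.Agent.H742R3.KM
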