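import Mathlib
import Pool.Agent.H742R3.KMDefs

set_option autoImplicit false

namespace Pool.Agent.H742R3.KM

/-- `ψ` is (a normalised form of) a completely additive bijection `{1..211} → ℤ/211`. -/
structure Good (ψ : ℕ → ℕ) : Prop where
  lt : ∀ m, ψ m < 211
  two : ψ 2 = 1
  mul : ∀ a b, 0 < a → 0 < b → a * b ≤ 211 → ψ (a * b) = (ψ a + ψ b) % 211
  inj : ∀ a b, 1 ≤ a → a ≤ 211 → 1 ≤ b → b ≤ 211 → ψ a = ψ b → a = b

theorem tb_land (x y i : ℕ) : (Nat.land x y).testBit i = (x.testBit i && y.testBit i) :=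
  Nat.testBit_and x y i
theorem tb_lor (x y i : ℕ) : (Nat.lor x y).testBit i = (x.testBit i || y.testBit i) :=
  Nat.testBit_or x y i
theorem tb_xor (x y i : ℕ) : (Nat.xor x y).testBit i = ((x.testBit i) ^^ (y.testBit i)) :=
  Nat.testBit_xor x y i
theorem tb_shr (x s i : ℕ) : (Nat.shiftRight x s).testBit i = x.testBit (s + i) :=
  Nat.testBit_shiftRight (i := s) (j := i) x
theorem tb_shl (x s i : ℕ) : (Nat.shiftLeft x s).testBit i = (decide (i ≥ s) && x.testBit (i - s)) :=
  Nat.testBit_shiftLeft x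

theorem force_eq (k : ℕ → Bool) (x : ℕ) : force k x = k x := rfl

theorem enum_sound (k : ℕ → Bool) (fuel : ℕ) :
    ∀ C, enum k fuel C = true → ∀ v, C.testBit v = true → k v = true := by
  induction fuel with
  | zero =>
    intro C h v hv
    have h1 : Nat.beq C 0 = true := h
    have h2 : C = 0 := Nat.eq_of_beq_eq_true h1
    subst h2
    simp at hv
  | succ n ih =>
    intro C h v hv
    have h0 : @Bool.rec (fun _ => Bool)
      ((fun C' => force (fun v => @Bool.rec (fun _ => Bool) false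
          (@Bool.rec (fun _ => Bool) false (enum k n C') (k v))
          (Nat.beq (Nat.xor C' (Nat.shiftLeft 1 v)) C)) (idx (Nat.xor C C'))) (Nat.land C (Nat.sub C 1)))
      true (Nat.beq C 0) = true := h
    cases hb : Nat.beq C 0 with
    | true =>
      have h2 : C = 0 := Nat.eq_of_beq_eq_true hb
      subst h2
      simp at hv
    | false =>
      rw [hb] at h0
      simp only [force_eq] at h0
      set C' := Nat.land C (Nat.sub C 1) with hC'
      set w := idx (Nat.xor C C') with hw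
      cases h3 : Nat.beq (Nat.xor C' (Nat.shiftLeft 1 w)) C with
      | false => rw [h3] at h0; simp at h0
      | true =>
        rw [h3] at h0
        cases h4 : k w with
        | false => rw [h4] at h0; simp at h0
        | true =>
          rw [h4] at h0
          have h5 : enum k n C' = true := h0
          have h6 : Nat.xor C' (Nat.shiftLeft 1 w) = C := Nat.eq_of_beq_eq_true h3
          by_cases hvw : v = w
          · rw [hvw]; exact h4
          · apply ih C' h5 v
            rw [← h6, tb_xor, tb_shl] at hv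
            have h7 : (1 : ℕ).testBit (v - w) = decide (v - w = 0) := by
              rcases Nat.eq_zero_or_pos (v - w) with h | h
              · rw [h]; simp
              · have : v - w ≠ 0 := by omega
                rw [Nat.testBit_lt_two_pow (Nat.one_lt_two_pow this)]
                simp [this]
            have h8 : (decide (v ≥ w) && (1 : ℕ).testBit (v - w)) = false := by
              rw [h7]
              by_cases hge : v ≥ w
              · have : v - w ≠ 0 := by omega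
                simp [this]
              · simp [hge]
            rw [h8] at hv
            simpa using hv

theorem tri_tb (F i : ℕ) (hi : i < 633) (h : F.testBit (i % 211) = true) :
    (tri F).testBit i = true := by
  unfold tri
  rw [tb_lor, tb_lor, tb_shl, tb_shl]
  rcases lt_or_ge i 211 with h1 | h1
  · rw [Nat.mod_eq_of_lt h1] at h
    rw [h]; rfl
  · rcases lt_or_ge i 422 with h2 | h2
    · have : i % 211 = i - 211 := by omega
      rw [this] at h
      rw [h]; simp [h1]
    · have : i % 211 = i - 422 := by omega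
      rw [this] at h
      rw [h]; simp [h2]

theorem R2_tb (G i : ℕ) (h : ∀ j < 2, G.testBit (i + j) = true) : (R2 G).testBit i = true := by
  unfold R2
  rw [tb_land, tb_shr, add_comm 1 i, h 1 (by norm_num)]
  have := h 0 (by norm_num)
  simpa using this

theorem R3_tb (G i : ℕ) (h : ∀ j < 3, G.testBit (i + j) = true) : (R3 G).testBit i = true := by
  unfold R3
  rw [tb_land, tb_shr, add_comm 2 i, h 2 (by norm_num), R2_tb G i (fun j hj => h j (by omega))]
  rfl

theorem R4_tb (G i : ℕ) (h : ∀ j < 4, G.testBit (i + j) = true) : (R4 G).testBit i = true := by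
  unfold R4
  rw [tb_land, tb_shr, add_comm 2 i, R2_tb G i (fun j hj => h j (by omega)),
    R2_tb G (i+2) (fun j hj => by rw [add_assoc]; exact h (2+j) (by omega))]
  rfl

theorem R5_tb (G i : ℕ) (h : ∀ j < 5, G.testBit (i + j) = true) : (R5 G).testBit i = true := by
  unfold R5
  rw [tb_land, tb_shr, add_comm 4 i, h 4 (by norm_num), R4_tb G i (fun j hj => h j (by omega))]
  rfl

theorem R6_tb (G i : ℕ) (h : ∀ j < 6, G.testBit (i + j) = true) : (R6 G).testBit i = true := by
  unfold R6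
  rw [tb_land, tb_shr, add_comm 4 i, R4_tb G i (fun j hj => h j (by omega)),
    R2_tb G (i+4) (fun j hj => by rw [add_assoc]; exact h (4+j) (by omega))]
  rfl

theorem R7_tb (G i : ℕ) (h : ∀ j < 7, G.testBit (i + j) = true) : (R7 G).testBit i = true := by
  unfold R7
  rw [tb_land, tb_shr, add_comm 6 i, h 6 (by norm_num), R6_tb G i (fun j hj => h j (by omega))]
  rfl

theorem full_tb (i : ℕ) (hi : i < 211) :
    (3291009114642412084309938365114701009965471731267159726697218047 : ℕ).testBit i = true := by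
  have : (3291009114642412084309938365114701009965471731267159726697218047 : ℕ) = 2 ^ 211 - 1 := by
    norm_num
  rw [this, Nat.testBit_two_pow_sub_one]
  simpa using hi

theorem full_tb' (i : ℕ)
    (h : (3291009114642412084309938365114701009965471731267159726697218047 : ℕ).testBit i = true) :
    i < 211 := by
  have : (3291009114642412084309938365114701009965471731267159726697218047 : ℕ) = 2 ^ 211 - 1 := by
    norm_num
  rw [this, Nat.testBit_two_pow_sub_one] at h
  simpa using h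

theorem foldM_tb (x y : ℕ) (h : (foldM x).testBit y = true) :
    ∃ i, x.testBit i = true ∧ y = i % 211 := by
  unfold foldM at h
  rw [tb_land, tb_lor, tb_shr] at h
  rw [Bool.and_eq_true, Bool.or_eq_true] at h
  obtain ⟨h1, h2⟩ := h
  have h3 := full_tb' y h2
  rcases h1 with h1 | h1
  · exact ⟨y, h1, (Nat.mod_eq_of_lt h3).symm⟩
  · exact ⟨211 + y, h1, by omega⟩

/-- smoothness test -/
def sm (N u : ℕ) : Bool := Nat.beq (N % u) 0

def Inv (ψ : ℕ → ℕ) (S : ℕ → Bool) (F : ℕ) : Prop :=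
  ∀ u, 1 ≤ u → u ≤ 211 → S u = true → F.testBit (ψ u) = true

def Cov (ψ : ℕ → ℕ) (T : ℕ → Bool) (A : ℕ) : Prop :=
  ∀ z, A.testBit z = true → ∃ u, 1 ≤ u ∧ u ≤ 211 ∧ T u = true ∧ z = ψ u

def PreCov (ψ : ℕ → ℕ) (T : ℕ → Bool) (x : ℕ) : Prop :=
  ∀ i, x.testBit i = true → ∃ u, 1 ≤ u ∧ u ≤ 211 ∧ T u = true ∧ i % 211 = ψ u

theorem Inv.xor {ψ : ℕ → ℕ} (hG : Good ψ) {S T : ℕ → Bool} {F A : ℕ} (hI : Inv ψ S F)
    (hC : Cov ψ T A) : Inv ψ (fun u => S u && !T u) (Nat.xor F A) := by
  intro u h1 h2 hS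
  simp only [Bool.and_eq_true, Bool.not_eq_true'] at hS
  have hF := hI u h1 h2 hS.1
  have hA : A.testBit (ψ u) = false := by
    by_contra hne
    have hA' : A.testBit (ψ u) = true := by simpa using hne
    obtain ⟨u', h3, h4, h5, h6⟩ := hC _ hA'
    have := hG.inj u u' h1 h2 h3 h4 h6
    subst this
    rw [hS.2] at h5
    exact absurd h5 (by simp)
  rw [tb_xor, hF, hA]; rfl

theorem Inv.mono {ψ : ℕ → ℕ} {S S' : ℕ → Bool} {F : ℕ} (hI : Inv ψ S F)
    (h : ∀ u < 212, S' u = true → S u = true) : Inv ψ S' F := by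
  intro u h1 h2 hS
  exact hI u h1 h2 (h u (by omega) hS)

theorem land_beq {ψ : ℕ → ℕ} {S T : ℕ → Bool} {F A : ℕ} (hI : Inv ψ S F) (hC : Cov ψ T A)
    (h : ∀ u < 212, T u = true → S u = true) : Nat.beq (Nat.land A F) A = true := by
  have : Nat.land A F = A := by
    apply Nat.eq_of_testBit_eq
    intro z
    rw [tb_land]
    cases hA : A.testBit z with
    | false => rfl
    | true =>
      obtain ⟨u, h1, h2, h3, h4⟩ := hC z hA
      have := hI u h1 h2 (h u (by omega) h3)
      rw [h4, this]; rfl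
  rw [this]
  exact Nat.beq_refl A

theorem PreCov.lor {ψ : ℕ → ℕ} {T : ℕ → Bool} {x y : ℕ} (hx : PreCov ψ T x) (hy : PreCov ψ T y) :
    PreCov ψ T (Nat.lor x y) := by
  intro i hi
  rw [tb_lor, Bool.or_eq_true] at hi
  rcases hi with hi | hi
  · exact hx i hi
  · exact hy i hi

theorem PreCov.fold {ψ : ℕ → ℕ} {T : ℕ → Bool} {x : ℕ} (hx : PreCov ψ T x) :
    Cov ψ T (foldM x) := by
  intro z hz
  obtain ⟨i, h1, h2⟩ := foldM_tb x z hz
  obtain ⟨u, h3, h4, h5, h6⟩ := hx i h1
  exact ⟨u, h3, h4, h5, by rw [h2, h6]⟩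

theorem Good.one {ψ : ℕ → ℕ} (hG : Good ψ) : ψ 1 = 0 := by
  have h := hG.mul 1 1 (by norm_num) (by norm_num) (by norm_num)
  have h2 := hG.lt 1
  simp only [mul_one] at h
  omega

theorem Good.pow2 {ψ : ℕ → ℕ} (hG : Good ψ) (j : ℕ) (hj : 2 ^ j ≤ 211) : ψ (2 ^ j) = j := by
  induction j with
  | zero => simpa using hG.one
  | succ n ih =>
    have h1 : 2 ^ n ≤ 211 := le_trans (Nat.pow_le_pow_right (by norm_num) (Nat.le_succ n)) hj
    have h2 := hG.mul (2 ^ n) 2 (by positivity) (by norm_num) (by rw [← pow_succ]; exact hj)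
    rw [← pow_succ, ih h1, hG.two] at h2
    have h3 : n + 1 < 2 ^ (n + 1) := Nat.lt_two_pow_self
    rw [h2, Nat.mod_eq_of_lt (by omega)]

theorem Good.shift2 {ψ : ℕ → ℕ} (hG : Good ψ) (m j : ℕ) (hm : 0 < m) (h : m * 2 ^ j ≤ 211) :
    ψ (m * 2 ^ j) = (ψ m + j) % 211 := by
  have h1 : 2 ^ j ≤ 211 := le_trans (Nat.le_mul_of_pos_left _ hm) h
  rw [hG.mul m (2 ^ j) hm (by positivity) h, hG.pow2 j h1]

/-- a block mask -/
theorem PreCov.blk {ψ : ℕ → ℕ} (hG : Good ψ) {T : ℕ → Bool} (m L c : ℕ) (hc : c = 2 ^ L - 1)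
    (hm : 0 < m) (h : ∀ j < L, m * 2 ^ j ≤ 211 ∧ T (m * 2 ^ j) = true) :
    PreCov ψ T (Nat.shiftLeft c (ψ m)) := by
  intro i hi
  rw [tb_shl, Bool.and_eq_true, hc, Nat.testBit_two_pow_sub_one] at hi
  simp only [ge_iff_le, decide_eq_true_eq] at hi
  obtain ⟨h1, h2⟩ := hi
  obtain ⟨h3, h4⟩ := h _ h2
  refine ⟨m * 2 ^ (i - ψ m), Nat.one_le_iff_ne_zero.mpr (by positivity), h3, h4, ?_⟩
  rw [hG.shift2 m _ hm h3]
  congr 1; omega

theorem PreCov.blk0 {ψ : ℕ → ℕ} (hG : Good ψ) {T : ℕ → Bool} (L c : ℕ) (hc : c = 2 ^ L - 1)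
    (h : ∀ j < L, 1 * 2 ^ j ≤ 211 ∧ T (1 * 2 ^ j) = true) :
    PreCov ψ T c := by
  have := PreCov.blk hG (T := T) 1 L c hc (by norm_num) h
  rw [hG.one] at this
  exact this

theorem Cov.shift {ψ : ℕ → ℕ} (hG : Good ψ) {W T : ℕ → Bool} {M s q : ℕ} (hq : 0 < q)
    (hM : Cov ψ W M) (hs : s = ψ q)
    (h : ∀ w < 212, 1 ≤ w → W w = true → w * q ≤ 211 ∧ T (w * q) = true) :
    Cov ψ T (foldM (Nat.shiftLeft M s)) := by
  intro z hz
  obtain ⟨i, h1, h2⟩ := foldM_tb _ z hz
  rw [tb_shl, Bool.and_eq_true] at h1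
  simp only [ge_iff_le, decide_eq_true_eq] at h1
  obtain ⟨h3, h4⟩ := h1
  obtain ⟨w, h5, h6, h7, h8⟩ := hM _ h4
  obtain ⟨h9, h10⟩ := h w (by omega) h5 h7
  refine ⟨w * q, Nat.one_le_iff_ne_zero.mpr (by positivity), h9, h10, ?_⟩
  rw [hG.mul w q (by omega) hq h9, ← hs, ← h8, h2]
  congr 1; omega

theorem rbit {ψ : ℕ → ℕ} (hG : Good ψ) {S : ℕ → Bool} {F : ℕ} (hI : Inv ψ S F) (p m L : ℕ)
    (hp : 0 < p) (hm : 0 < m)
    (hle : ∀ j < L, p * m * 2 ^ j ≤ 211 ∧ S (p * m * 2 ^ j) = true) :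
    ∀ j < L, (tri F).testBit (ψ m + ψ p + j) = true := by
  intro j hj
  obtain ⟨h1, h2⟩ := hle j hj
  have hjlt : j < 2 ^ j := Nat.lt_two_pow_self
  have hj2 : 2 ^ j ≤ p * m * 2 ^ j := Nat.le_mul_of_pos_left _ (by positivity)
  have h0 : p * m ≤ 211 := le_trans (Nat.le_mul_of_pos_right _ (by positivity)) h1
  have h3 := hI _ (Nat.one_le_iff_ne_zero.mpr (by positivity)) h1 h2
  rw [hG.shift2 (p * m) j (by positivity) h1, hG.mul p m hp hm h0] at h3
  have h4 := hG.lt p
  have h5 := hG.lt m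
  apply tri_tb
  · omega
  · rw [← h3]; congr 1; omega

end Pool.Agent.H742R3.KM
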