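import Mathlib
import Pool.Agent.H742R3.KMSound

set_option autoImplicit false
set_option maxRecDepth 100000

namespace Pool.Agent.H742R3.KM

theorem land_tb {x y i : ℕ} (hx : x.testBit i = true) (hy : y.testBit i = true) :
    (Nat.land x y).testBit i = true := by
  rw [tb_land, hx, hy]; rfl

theorem shr_tb {x s i : ℕ} (hx : x.testBit (s + i) = true) :
    (Nat.shiftRight x s).testBit i = true := by
  rw [tb_shr, hx]

theorem rbit1 {ψ : ℕ → ℕ} (hG : Good ψ) {S : ℕ → Bool} {F : ℕ} (hI : Inv ψ S F) (p L : ℕ)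
    (hp : 0 < p)
    (hle : ∀ j < L, p * 1 * 2 ^ j ≤ 211 ∧ S (p * 1 * 2 ^ j) = true) :
    ∀ j < L, (tri F).testBit (ψ p + j) = true := by
  have := rbit hG hI p 1 L hp (by norm_num) hle
  rw [hG.one, zero_add] at this
  exact this

theorem cand41_mem {ψ : ℕ → ℕ} (hG : Good ψ) {F : ℕ} (hI : Inv ψ (fun u => !sm 320896463311215792000 u) F) :
    (cand41 (ψ 3) (ψ 5) (tri F)).testBit (ψ 41) = true := by
  unfold cand41
  exact (land_tb (R3_tb _ _ (rbit1 hG hI 41 3 (by norm_num) (by decide +kernel)))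
    (land_tb (shr_tb (by simpa using rbit hG hI 41 3 1 (by norm_num) (by norm_num) (by decide +kernel) 0 (by norm_num)))
    (land_tb (shr_tb (by simpa using rbit hG hI 41 5 1 (by norm_num) (by norm_num) (by decide +kernel) 0 (by norm_num)))
    (full_tb _ (hG.lt _)))))

theorem lvl41_sound {ψ : ℕ → ℕ} (hG : Good ψ) {F : ℕ} (hI : Inv ψ (fun u => !sm 320896463311215792000 u) F)
    (h : lvl41 (ψ 3) (ψ 5) F = true) : False := by
  have h1 := cand41_mem hG hI
  have h2 : cand41 (ψ 3) (ψ 5) (tri F) = 0 := Nat.eq_of_beq_eq_true h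
  rw [h2] at h1
  simp at h1

theorem cand37_mem {ψ : ℕ → ℕ} (hG : Good ψ) {F : ℕ} (hI : Inv ψ (fun u => !sm 8672877386789616000 u) F) :
    (cand37 (ψ 3) (ψ 5) (tri F)).testBit (ψ 37) = true := by
  unfold cand37
  exact (land_tb (R3_tb _ _ (rbit1 hG hI 37 3 (by norm_num) (by decide +kernel)))
    (land_tb (shr_tb (by simpa using rbit hG hI 37 3 1 (by norm_num) (by norm_num) (by decide +kernel) 0 (by norm_num)))
    (land_tb (shr_tb (by simpa using rbit hG hI 37 5 1 (by norm_num) (by norm_num) (by decide +kernel) 0 (by norm_num)))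
    (full_tb _ (hG.lt _)))))

theorem step37_sound {ψ : ℕ → ℕ} (hG : Good ψ) {F : ℕ} (hI : Inv ψ (fun u => !sm 8672877386789616000 u) F)
    (h : step37 (ψ 3) (ψ 5) F (ψ 37) = true) : False := by
  have hM1 : Cov ψ (fun w => sm 8672877386789616000 w && Nat.ble (w * 37) 211) (mask37 (ψ 3) (ψ 5)) := by
    unfold mask37
    exact PreCov.fold (PreCov.lor (PreCov.blk0 hG 3 7 (by norm_num) (by decide +kernel))
      (PreCov.lor (PreCov.blk hG 3 1 1 (by norm_num) (by norm_num) (by decide +kernel))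
      (PreCov.blk hG 5 1 1 (by norm_num) (by norm_num) (by decide +kernel))))
  have hA1 : Cov ψ (fun u => Nat.beq (u % 37) 0 && sm 8672877386789616000 (u / 37)) (foldM (Nat.shiftLeft (mask37 (ψ 3) (ψ 5)) (ψ 37))) :=
    Cov.shift hG (q := 37) (by norm_num) hM1 rfl (by decide +kernel)
  have hI1 := hI.xor hG hA1
  unfold step37 at h
  exact lvl41_sound hG (hI1.mono (by decide +kernel)) h

theorem lvl37_sound {ψ : ℕ → ℕ} (hG : Good ψ) {F : ℕ} (hI : Inv ψ (fun u => !sm 8672877386789616000 u) F)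
    (h : lvl37 (ψ 3) (ψ 5) F = true) : False :=
  step37_sound hG hI (enum_sound _ _ _ h (ψ 37) (cand37_mem hG hI))

theorem cand31_mem {ψ : ℕ → ℕ} (hG : Good ψ) {F : ℕ} (hI : Inv ψ (fun u => !sm 279770238283536000 u) F) :
    (cand31 (ψ 3) (ψ 5) (tri F)).testBit (ψ 31) = true := by
  unfold cand31
  exact (land_tb (R3_tb _ _ (rbit1 hG hI 31 3 (by norm_num) (by decide +kernel)))
    (land_tb (shr_tb (R2_tb _ _ (rbit hG hI 31 3 2 (by norm_num) (by norm_num) (by decide +kernel))))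
    (land_tb (shr_tb (by simpa using rbit hG hI 31 5 1 (by norm_num) (by norm_num) (by decide +kernel) 0 (by norm_num)))
    (full_tb _ (hG.lt _)))))

theorem step31_sound {ψ : ℕ → ℕ} (hG : Good ψ) {F : ℕ} (hI : Inv ψ (fun u => !sm 279770238283536000 u) F)
    (h : step31 (ψ 3) (ψ 5) F (ψ 31) = true) : False := by
  have hM1 : Cov ψ (fun w => sm 279770238283536000 w && Nat.ble (w * 31) 211) (mask31 (ψ 3) (ψ 5)) := by
    unfold mask31
    exact PreCov.fold (PreCov.lor (PreCov.blk0 hG 3 7 (by norm_num) (by decide +kernel))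
      (PreCov.lor (PreCov.blk hG 3 2 3 (by norm_num) (by norm_num) (by decide +kernel))
      (PreCov.blk hG 5 1 1 (by norm_num) (by norm_num) (by decide +kernel))))
  have hA1 : Cov ψ (fun u => Nat.beq (u % 31) 0 && sm 279770238283536000 (u / 31)) (foldM (Nat.shiftLeft (mask31 (ψ 3) (ψ 5)) (ψ 31))) :=
    Cov.shift hG (q := 31) (by norm_num) hM1 rfl (by decide +kernel)
  have hI1 := hI.xor hG hA1
  unfold step31 at h
  exact lvl37_sound hG (hI1.mono (by decide +kernel)) h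

theorem lvl31_sound {ψ : ℕ → ℕ} (hG : Good ψ) {F : ℕ} (hI : Inv ψ (fun u => !sm 279770238283536000 u) F)
    (h : lvl31 (ψ 3) (ψ 5) F = true) : False :=
  step31_sound hG hI (enum_sound _ _ _ h (ψ 31) (cand31_mem hG hI))

theorem cand29_mem {ψ : ℕ → ℕ} (hG : Good ψ) {F : ℕ} (hI : Inv ψ (fun u => !sm 9647249595984000 u) F) :
    (cand29 (ψ 3) (ψ 5) (ψ 7) (tri F)).testBit (ψ 29) = true := by
  unfold cand29
  exact (land_tb (R3_tb _ _ (rbit1 hG hI 29 3 (by norm_num) (by decide +kernel)))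
    (land_tb (shr_tb (R2_tb _ _ (rbit hG hI 29 3 2 (by norm_num) (by norm_num) (by decide +kernel))))
    (land_tb (shr_tb (by simpa using rbit hG hI 29 5 1 (by norm_num) (by norm_num) (by decide +kernel) 0 (by norm_num)))
    (land_tb (shr_tb (by simpa using rbit hG hI 29 7 1 (by norm_num) (by norm_num) (by decide +kernel) 0 (by norm_num)))
    (full_tb _ (hG.lt _))))))

theorem step29_sound {ψ : ℕ → ℕ} (hG : Good ψ) {F : ℕ} (hI : Inv ψ (fun u => !sm 9647249595984000 u) F)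
    (h : step29 (ψ 3) (ψ 5) (ψ 7) F (ψ 29) = true) : False := by
  have hM1 : Cov ψ (fun w => sm 9647249595984000 w && Nat.ble (w * 29) 211) (mask29 (ψ 3) (ψ 5) (ψ 7)) := by
    unfold mask29
    exact PreCov.fold (PreCov.lor (PreCov.blk0 hG 3 7 (by norm_num) (by decide +kernel))
      (PreCov.lor (PreCov.blk hG 3 2 3 (by norm_num) (by norm_num) (by decide +kernel))
      (PreCov.lor (PreCov.blk hG 5 1 1 (by norm_num) (by norm_num) (by decide +kernel))
      (PreCov.blk hG 7 1 1 (by norm_num) (by norm_num) (by decide +kernel)))))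
  have hA1 : Cov ψ (fun u => Nat.beq (u % 29) 0 && sm 9647249595984000 (u / 29)) (foldM (Nat.shiftLeft (mask29 (ψ 3) (ψ 5) (ψ 7)) (ψ 29))) :=
    Cov.shift hG (q := 29) (by norm_num) hM1 rfl (by decide +kernel)
  have hI1 := hI.xor hG hA1
  unfold step29 at h
  exact lvl31_sound hG (hI1.mono (by decide +kernel)) h

theorem lvl29_sound {ψ : ℕ → ℕ} (hG : Good ψ) {F : ℕ} (hI : Inv ψ (fun u => !sm 9647249595984000 u) F)
    (h : lvl29 (ψ 3) (ψ 5) (ψ 7) F = true) : False :=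
  step29_sound hG hI (enum_sound _ _ _ h (ψ 29) (cand29_mem hG hI))

theorem cand23_mem {ψ : ℕ → ℕ} (hG : Good ψ) {F : ℕ} (hI : Inv ψ (fun u => !sm 419445634608000 u) F) :
    (cand23 (ψ 3) (ψ 5) (ψ 7) (tri F)).testBit (ψ 23) = true := by
  unfold cand23
  have e9 : Nat.mod (Nat.add (ψ 3) (ψ 3)) 211 = ψ 9 := (hG.mul 3 3 (by norm_num) (by norm_num) (by norm_num)).symm
  rw [e9]
  exact (land_tb (R4_tb _ _ (rbit1 hG hI 23 4 (by norm_num) (by decide +kernel)))
    (land_tb (shr_tb (R2_tb _ _ (rbit hG hI 23 3 2 (by norm_num) (by norm_num) (by decide +kernel))))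
    (land_tb (shr_tb (by simpa using rbit hG hI 23 5 1 (by norm_num) (by norm_num) (by decide +kernel) 0 (by norm_num)))
    (land_tb (shr_tb (by simpa using rbit hG hI 23 7 1 (by norm_num) (by norm_num) (by decide +kernel) 0 (by norm_num)))
    (land_tb (shr_tb (by simpa using rbit hG hI 23 9 1 (by norm_num) (by norm_num) (by decide +kernel) 0 (by norm_num)))
    (full_tb _ (hG.lt _)))))))

theorem step23_sound {ψ : ℕ → ℕ} (hG : Good ψ) {F : ℕ} (hI : Inv ψ (fun u => !sm 419445634608000 u) F)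
    (h : step23 (ψ 3) (ψ 5) (ψ 7) F (ψ 23) = true) : False := by
  have e9 : Nat.mod (Nat.add (ψ 3) (ψ 3)) 211 = ψ 9 := (hG.mul 3 3 (by norm_num) (by norm_num) (by norm_num)).symm
  have hM1 : Cov ψ (fun w => sm 419445634608000 w && Nat.ble (w * 23) 211) (mask23 (ψ 3) (ψ 5) (ψ 7)) := by
    unfold mask23
    rw [e9]
    exact PreCov.fold (PreCov.lor (PreCov.blk0 hG 4 15 (by norm_num) (by decide +kernel))
      (PreCov.lor (PreCov.blk hG 3 2 3 (by norm_num) (by norm_num) (by decide +kernel))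
      (PreCov.lor (PreCov.blk hG 5 1 1 (by norm_num) (by norm_num) (by decide +kernel))
      (PreCov.lor (PreCov.blk hG 7 1 1 (by norm_num) (by norm_num) (by decide +kernel))
      (PreCov.blk hG 9 1 1 (by norm_num) (by norm_num) (by decide +kernel))))))
  have hA1 : Cov ψ (fun u => Nat.beq (u % 23) 0 && sm 419445634608000 (u / 23)) (foldM (Nat.shiftLeft (mask23 (ψ 3) (ψ 5) (ψ 7)) (ψ 23))) :=
    Cov.shift hG (q := 23) (by norm_num) hM1 rfl (by decide +kernel)
  have hI1 := hI.xor hG hA1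
  unfold step23 at h
  exact lvl29_sound hG (hI1.mono (by decide +kernel)) h

theorem lvl23_sound {ψ : ℕ → ℕ} (hG : Good ψ) {F : ℕ} (hI : Inv ψ (fun u => !sm 419445634608000 u) F)
    (h : lvl23 (ψ 3) (ψ 5) (ψ 7) F = true) : False :=
  step23_sound hG hI (enum_sound _ _ _ h (ψ 23) (cand23_mem hG hI))

theorem cand19_mem {ψ : ℕ → ℕ} (hG : Good ψ) {F : ℕ} (hI : Inv ψ (fun u => !sm 22076086032000 u) F) :
    (cand19 (ψ 3) (ψ 5) (ψ 7) (ψ 11) (tri F)).testBit (ψ 19) = true := by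
  unfold cand19
  have e9 : Nat.mod (Nat.add (ψ 3) (ψ 3)) 211 = ψ 9 := (hG.mul 3 3 (by norm_num) (by norm_num) (by norm_num)).symm
  rw [e9]
  exact (land_tb (R4_tb _ _ (rbit1 hG hI 19 4 (by norm_num) (by decide +kernel)))
    (land_tb (shr_tb (R2_tb _ _ (rbit hG hI 19 3 2 (by norm_num) (by norm_num) (by decide +kernel))))
    (land_tb (shr_tb (R2_tb _ _ (rbit hG hI 19 5 2 (by norm_num) (by norm_num) (by decide +kernel))))
    (land_tb (shr_tb (by simpa using rbit hG hI 19 7 1 (by norm_num) (by norm_num) (by decide +kernel) 0 (by norm_num)))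
    (land_tb (shr_tb (by simpa using rbit hG hI 19 9 1 (by norm_num) (by norm_num) (by decide +kernel) 0 (by norm_num)))
    (land_tb (shr_tb (by simpa using rbit hG hI 19 11 1 (by norm_num) (by norm_num) (by decide +kernel) 0 (by norm_num)))
    (full_tb _ (hG.lt _))))))))

theorem step19_sound {ψ : ℕ → ℕ} (hG : Good ψ) {F : ℕ} (hI : Inv ψ (fun u => !sm 22076086032000 u) F)
    (h : step19 (ψ 3) (ψ 5) (ψ 7) (ψ 11) F (ψ 19) = true) : False := by
  have e9 : Nat.mod (Nat.add (ψ 3) (ψ 3)) 211 = ψ 9 := (hG.mul 3 3 (by norm_num) (by norm_num) (by norm_num)).symm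
  have hM1 : Cov ψ (fun w => sm 22076086032000 w && Nat.ble (w * 19) 211) (mask19 (ψ 3) (ψ 5) (ψ 7) (ψ 11)) := by
    unfold mask19
    rw [e9]
    exact PreCov.fold (PreCov.lor (PreCov.blk0 hG 4 15 (by norm_num) (by decide +kernel))
      (PreCov.lor (PreCov.blk hG 3 2 3 (by norm_num) (by norm_num) (by decide +kernel))
      (PreCov.lor (PreCov.blk hG 5 2 3 (by norm_num) (by norm_num) (by decide +kernel))
      (PreCov.lor (PreCov.blk hG 7 1 1 (by norm_num) (by norm_num) (by decide +kernel))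
      (PreCov.lor (PreCov.blk hG 9 1 1 (by norm_num) (by norm_num) (by decide +kernel))
      (PreCov.blk hG 11 1 1 (by norm_num) (by norm_num) (by decide +kernel)))))))
  have hA1 : Cov ψ (fun u => Nat.beq (u % 19) 0 && sm 22076086032000 (u / 19)) (foldM (Nat.shiftLeft (mask19 (ψ 3) (ψ 5) (ψ 7) (ψ 11)) (ψ 19))) :=
    Cov.shift hG (q := 19) (by norm_num) hM1 rfl (by decide +kernel)
  have hI1 := hI.xor hG hA1
  unfold step19 at h
  exact lvl23_sound hG (hI1.mono (by decide +kernel)) h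

theorem lvl19_sound {ψ : ℕ → ℕ} (hG : Good ψ) {F : ℕ} (hI : Inv ψ (fun u => !sm 22076086032000 u) F)
    (h : lvl19 (ψ 3) (ψ 5) (ψ 7) (ψ 11) F = true) : False :=
  step19_sound hG hI (enum_sound _ _ _ h (ψ 19) (cand19_mem hG hI))

theorem cand17_mem {ψ : ℕ → ℕ} (hG : Good ψ) {F : ℕ} (hI : Inv ψ (fun u => !sm 1298593296000 u) F) :
    (cand17 (ψ 3) (ψ 5) (ψ 7) (ψ 11) (tri F)).testBit (ψ 17) = true := by
  unfold cand17
  have e9 : Nat.mod (Nat.add (ψ 3) (ψ 3)) 211 = ψ 9 := (hG.mul 3 3 (by norm_num) (by norm_num) (by norm_num)).symm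
  rw [e9]
  exact (land_tb (R4_tb _ _ (rbit1 hG hI 17 4 (by norm_num) (by decide +kernel)))
    (land_tb (shr_tb (R3_tb _ _ (rbit hG hI 17 3 3 (by norm_num) (by norm_num) (by decide +kernel))))
    (land_tb (shr_tb (R2_tb _ _ (rbit hG hI 17 5 2 (by norm_num) (by norm_num) (by decide +kernel))))
    (land_tb (shr_tb (by simpa using rbit hG hI 17 7 1 (by norm_num) (by norm_num) (by decide +kernel) 0 (by norm_num)))
    (land_tb (shr_tb (by simpa using rbit hG hI 17 9 1 (by norm_num) (by norm_num) (by decide +kernel) 0 (by norm_num)))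
    (land_tb (shr_tb (by simpa using rbit hG hI 17 11 1 (by norm_num) (by norm_num) (by decide +kernel) 0 (by norm_num)))
    (full_tb _ (hG.lt _))))))))

theorem step17_sound {ψ : ℕ → ℕ} (hG : Good ψ) {F : ℕ} (hI : Inv ψ (fun u => !sm 1298593296000 u) F)
    (h : step17 (ψ 3) (ψ 5) (ψ 7) (ψ 11) F (ψ 17) = true) : False := by
  have e9 : Nat.mod (Nat.add (ψ 3) (ψ 3)) 211 = ψ 9 := (hG.mul 3 3 (by norm_num) (by norm_num) (by norm_num)).symm
  have hM1 : Cov ψ (fun w => sm 1298593296000 w && Nat.ble (w * 17) 211) (mask17 (ψ 3) (ψ 5) (ψ 7) (ψ 11)) := by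
    unfold mask17
    rw [e9]
    exact PreCov.fold (PreCov.lor (PreCov.blk0 hG 4 15 (by norm_num) (by decide +kernel))
      (PreCov.lor (PreCov.blk hG 3 3 7 (by norm_num) (by norm_num) (by decide +kernel))
      (PreCov.lor (PreCov.blk hG 5 2 3 (by norm_num) (by norm_num) (by decide +kernel))
      (PreCov.lor (PreCov.blk hG 7 1 1 (by norm_num) (by norm_num) (by decide +kernel))
      (PreCov.lor (PreCov.blk hG 9 1 1 (by norm_num) (by norm_num) (by decide +kernel))
      (PreCov.blk hG 11 1 1 (by norm_num) (by norm_num) (by decide +kernel)))))))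
  have hA1 : Cov ψ (fun u => Nat.beq (u % 17) 0 && sm 1298593296000 (u / 17)) (foldM (Nat.shiftLeft (mask17 (ψ 3) (ψ 5) (ψ 7) (ψ 11)) (ψ 17))) :=
    Cov.shift hG (q := 17) (by norm_num) hM1 rfl (by decide +kernel)
  have hI1 := hI.xor hG hA1
  unfold step17 at h
  exact lvl19_sound hG (hI1.mono (by decide +kernel)) h

theorem lvl17_sound {ψ : ℕ → ℕ} (hG : Good ψ) {F : ℕ} (hI : Inv ψ (fun u => !sm 1298593296000 u) F)
    (h : lvl17 (ψ 3) (ψ 5) (ψ 7) (ψ 11) F = true) : False :=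
  step17_sound hG hI (enum_sound _ _ _ h (ψ 17) (cand17_mem hG hI))

theorem cand13_mem {ψ : ℕ → ℕ} (hG : Good ψ) {F : ℕ} (hI : Inv ψ (fun u => !sm 7683984000 u) F) :
    (cand13 (ψ 3) (ψ 5) (ψ 7) (ψ 11) (tri F)).testBit (ψ 13) = true := by
  unfold cand13
  have e9 : Nat.mod (Nat.add (ψ 3) (ψ 3)) 211 = ψ 9 := (hG.mul 3 3 (by norm_num) (by norm_num) (by norm_num)).symm
  have e15 : Nat.mod (Nat.add (ψ 3) (ψ 5)) 211 = ψ 15 := (hG.mul 3 5 (by norm_num) (by norm_num) (by norm_num)).symm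
  rw [e9, e15]
  exact (land_tb (R5_tb _ _ (rbit1 hG hI 13 5 (by norm_num) (by decide +kernel)))
    (land_tb (shr_tb (R3_tb _ _ (rbit hG hI 13 3 3 (by norm_num) (by norm_num) (by decide +kernel))))
    (land_tb (shr_tb (R2_tb _ _ (rbit hG hI 13 5 2 (by norm_num) (by norm_num) (by decide +kernel))))
    (land_tb (shr_tb (R2_tb _ _ (rbit hG hI 13 7 2 (by norm_num) (by norm_num) (by decide +kernel))))
    (land_tb (shr_tb (by simpa using rbit hG hI 13 9 1 (by norm_num) (by norm_num) (by decide +kernel) 0 (by norm_num)))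
    (land_tb (shr_tb (by simpa using rbit hG hI 13 11 1 (by norm_num) (by norm_num) (by decide +kernel) 0 (by norm_num)))
    (land_tb (shr_tb (by simpa using rbit hG hI 13 15 1 (by norm_num) (by norm_num) (by decide +kernel) 0 (by norm_num)))
    (full_tb _ (hG.lt _)))))))))

theorem step13_sound {ψ : ℕ → ℕ} (hG : Good ψ) {F : ℕ} (hI : Inv ψ (fun u => !sm 7683984000 u) F)
    (h : step13 (ψ 3) (ψ 5) (ψ 7) (ψ 11) F (ψ 13) = true) : False := by
  have e9 : Nat.mod (Nat.add (ψ 3) (ψ 3)) 211 = ψ 9 := (hG.mul 3 3 (by norm_num) (by norm_num) (by norm_num)).symm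
  have e15 : Nat.mod (Nat.add (ψ 3) (ψ 5)) 211 = ψ 15 := (hG.mul 3 5 (by norm_num) (by norm_num) (by norm_num)).symm
  have hM1 : Cov ψ (fun w => sm 7683984000 w && Nat.ble (w * 13) 211) (mask13 (ψ 3) (ψ 5) (ψ 7) (ψ 11)) := by
    unfold mask13
    rw [e9, e15]
    exact PreCov.fold (PreCov.lor (PreCov.blk0 hG 5 31 (by norm_num) (by decide +kernel))
      (PreCov.lor (PreCov.blk hG 3 3 7 (by norm_num) (by norm_num) (by decide +kernel))
      (PreCov.lor (PreCov.blk hG 5 2 3 (by norm_num) (by norm_num) (by decide +kernel))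
      (PreCov.lor (PreCov.blk hG 7 2 3 (by norm_num) (by norm_num) (by decide +kernel))
      (PreCov.lor (PreCov.blk hG 9 1 1 (by norm_num) (by norm_num) (by decide +kernel))
      (PreCov.lor (PreCov.blk hG 11 1 1 (by norm_num) (by norm_num) (by decide +kernel))
      (PreCov.blk hG 15 1 1 (by norm_num) (by norm_num) (by decide +kernel))))))))
  have hA1 : Cov ψ (fun u => Nat.beq (u % 13) 0 && sm 7683984000 (u / 13)) (foldM (Nat.shiftLeft (mask13 (ψ 3) (ψ 5) (ψ 7) (ψ 11)) (ψ 13))) :=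
    Cov.shift hG (q := 13) (by norm_num) hM1 rfl (by decide +kernel)
  have hI1 := hI.xor hG hA1
  have hM2 : Cov ψ (fun w => sm 7683984000 w && Nat.ble (w * 169) 211) (mask13_2 (ψ 3) (ψ 5) (ψ 7) (ψ 11)) := by
    unfold mask13_2
    exact PreCov.fold (PreCov.blk0 hG 1 1 (by norm_num) (by decide +kernel))
  have q2 : Nat.mod (Nat.mul 2 (ψ 13)) 211 = ψ 169 := by
    have g2 := hG.mul 13 13 (by norm_num) (by norm_num) (by norm_num)
    norm_num at g2
    show (2 * ψ 13) % 211 = ψ 169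
    omega
  have hA2 : Cov ψ (fun u => Nat.beq (u % 169) 0 && sm 7683984000 (u / 169)) (foldM (Nat.shiftLeft (mask13_2 (ψ 3) (ψ 5) (ψ 7) (ψ 11)) (Nat.mod (Nat.mul 2 (ψ 13)) 211))) :=
    Cov.shift hG (q := 169) (by norm_num) hM2 q2 (by decide +kernel)
  have hb2 := land_beq hI1 hA2 (by decide +kernel)
  have hI2 := hI1.xor hG hA2
  unfold step13 at h
  simp only [hb2] at h
  exact lvl17_sound hG (hI2.mono (by decide +kernel)) h

theorem lvl13_sound {ψ : ℕ → ℕ} (hG : Good ψ) {F : ℕ} (hI : Inv ψ (fun u => !sm 7683984000 u) F)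
    (h : lvl13 (ψ 3) (ψ 5) (ψ 7) (ψ 11) F = true) : False :=
  step13_sound hG hI (enum_sound _ _ _ h (ψ 13) (cand13_mem hG hI))

theorem cand11_mem {ψ : ℕ → ℕ} (hG : Good ψ) {F : ℕ} (hI : Inv ψ (fun u => !sm 63504000 u) F) :
    (cand11 (ψ 3) (ψ 5) (ψ 7) (tri F)).testBit (ψ 11) = true := by
  unfold cand11
  have e9 : Nat.mod (Nat.add (ψ 3) (ψ 3)) 211 = ψ 9 := (hG.mul 3 3 (by norm_num) (by norm_num) (by norm_num)).symm
  have e15 : Nat.mod (Nat.add (ψ 3) (ψ 5)) 211 = ψ 15 := (hG.mul 3 5 (by norm_num) (by norm_num) (by norm_num)).symm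
  rw [e9, e15]
  exact (land_tb (R5_tb _ _ (rbit1 hG hI 11 5 (by norm_num) (by decide +kernel)))
    (land_tb (shr_tb (R3_tb _ _ (rbit hG hI 11 3 3 (by norm_num) (by norm_num) (by decide +kernel))))
    (land_tb (shr_tb (R2_tb _ _ (rbit hG hI 11 5 2 (by norm_num) (by norm_num) (by decide +kernel))))
    (land_tb (shr_tb (R2_tb _ _ (rbit hG hI 11 7 2 (by norm_num) (by norm_num) (by decide +kernel))))
    (land_tb (shr_tb (R2_tb _ _ (rbit hG hI 11 9 2 (by norm_num) (by norm_num) (by decide +kernel))))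
    (land_tb (shr_tb (by simpa using rbit hG hI 11 15 1 (by norm_num) (by norm_num) (by decide +kernel) 0 (by norm_num)))
    (full_tb _ (hG.lt _))))))))

theorem step11_sound {ψ : ℕ → ℕ} (hG : Good ψ) {F : ℕ} (hI : Inv ψ (fun u => !sm 63504000 u) F)
    (h : step11 (ψ 3) (ψ 5) (ψ 7) F (ψ 11) = true) : False := by
  have e9 : Nat.mod (Nat.add (ψ 3) (ψ 3)) 211 = ψ 9 := (hG.mul 3 3 (by norm_num) (by norm_num) (by norm_num)).symm
  have e15 : Nat.mod (Nat.add (ψ 3) (ψ 5)) 211 = ψ 15 := (hG.mul 3 5 (by norm_num) (by norm_num) (by norm_num)).symm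
  have hM1 : Cov ψ (fun w => sm 63504000 w && Nat.ble (w * 11) 211) (mask11 (ψ 3) (ψ 5) (ψ 7)) := by
    unfold mask11
    rw [e9, e15]
    exact PreCov.fold (PreCov.lor (PreCov.blk0 hG 5 31 (by norm_num) (by decide +kernel))
      (PreCov.lor (PreCov.blk hG 3 3 7 (by norm_num) (by norm_num) (by decide +kernel))
      (PreCov.lor (PreCov.blk hG 5 2 3 (by norm_num) (by norm_num) (by decide +kernel))
      (PreCov.lor (PreCov.blk hG 7 2 3 (by norm_num) (by norm_num) (by decide +kernel))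
      (PreCov.lor (PreCov.blk hG 9 2 3 (by norm_num) (by norm_num) (by decide +kernel))
      (PreCov.blk hG 15 1 1 (by norm_num) (by norm_num) (by decide +kernel)))))))
  have hA1 : Cov ψ (fun u => Nat.beq (u % 11) 0 && sm 63504000 (u / 11)) (foldM (Nat.shiftLeft (mask11 (ψ 3) (ψ 5) (ψ 7)) (ψ 11))) :=
    Cov.shift hG (q := 11) (by norm_num) hM1 rfl (by decide +kernel)
  have hI1 := hI.xor hG hA1
  have hM2 : Cov ψ (fun w => sm 63504000 w && Nat.ble (w * 121) 211) (mask11_2 (ψ 3) (ψ 5) (ψ 7)) := by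
    unfold mask11_2
    exact PreCov.fold (PreCov.blk0 hG 1 1 (by norm_num) (by decide +kernel))
  have q2 : Nat.mod (Nat.mul 2 (ψ 11)) 211 = ψ 121 := by
    have g2 := hG.mul 11 11 (by norm_num) (by norm_num) (by norm_num)
    norm_num at g2
    show (2 * ψ 11) % 211 = ψ 121
    omega
  have hA2 : Cov ψ (fun u => Nat.beq (u % 121) 0 && sm 63504000 (u / 121)) (foldM (Nat.shiftLeft (mask11_2 (ψ 3) (ψ 5) (ψ 7)) (Nat.mod (Nat.mul 2 (ψ 11)) 211))) :=
    Cov.shift hG (q := 121) (by norm_num) hM2 q2 (by decide +kernel)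
  have hb2 := land_beq hI1 hA2 (by decide +kernel)
  have hI2 := hI1.xor hG hA2
  unfold step11 at h
  simp only [hb2] at h
  exact lvl13_sound hG (hI2.mono (by decide +kernel)) h

theorem lvl11_sound {ψ : ℕ → ℕ} (hG : Good ψ) {F : ℕ} (hI : Inv ψ (fun u => !sm 63504000 u) F)
    (h : lvl11 (ψ 3) (ψ 5) (ψ 7) F = true) : False :=
  step11_sound hG hI (enum_sound _ _ _ h (ψ 11) (cand11_mem hG hI))

theorem cand7_mem {ψ : ℕ → ℕ} (hG : Good ψ) {F : ℕ} (hI : Inv ψ (fun u => !sm 1296000 u) F) :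
    (cand7 (ψ 3) (ψ 5) (tri F)).testBit (ψ 7) = true := by
  unfold cand7
  have e9 : Nat.mod (Nat.add (ψ 3) (ψ 3)) 211 = ψ 9 := (hG.mul 3 3 (by norm_num) (by norm_num) (by norm_num)).symm
  have e15 : Nat.mod (Nat.add (ψ 3) (ψ 5)) 211 = ψ 15 := (hG.mul 3 5 (by norm_num) (by norm_num) (by norm_num)).symm
  have e25 : Nat.mod (Nat.add (ψ 5) (ψ 5)) 211 = ψ 25 := (hG.mul 5 5 (by norm_num) (by norm_num) (by norm_num)).symm
  have e27 : Nat.mod (Nat.add (Nat.add (ψ 3) (ψ 3)) (ψ 3)) 211 = ψ 27 := by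
    have g1 := hG.mul 3 3 (by norm_num) (by norm_num) (by norm_num)
    have g2 := hG.mul 9 3 (by norm_num) (by norm_num) (by norm_num)
    norm_num at g1 g2
    show (ψ 3 + ψ 3 + ψ 3) % 211 = ψ 27
    omega
  rw [e9, e15, e25, e27]
  exact (land_tb (R5_tb _ _ (rbit1 hG hI 7 5 (by norm_num) (by decide +kernel)))
    (land_tb (shr_tb (R4_tb _ _ (rbit hG hI 7 3 4 (by norm_num) (by norm_num) (by decide +kernel))))
    (land_tb (shr_tb (R3_tb _ _ (rbit hG hI 7 5 3 (by norm_num) (by norm_num) (by decide +kernel))))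
    (land_tb (shr_tb (R2_tb _ _ (rbit hG hI 7 9 2 (by norm_num) (by norm_num) (by decide +kernel))))
    (land_tb (shr_tb (R2_tb _ _ (rbit hG hI 7 15 2 (by norm_num) (by norm_num) (by decide +kernel))))
    (land_tb (shr_tb (by simpa using rbit hG hI 7 25 1 (by norm_num) (by norm_num) (by decide +kernel) 0 (by norm_num)))
    (land_tb (shr_tb (by simpa using rbit hG hI 7 27 1 (by norm_num) (by norm_num) (by decide +kernel) 0 (by norm_num)))
    (full_tb _ (hG.lt _)))))))))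

theorem step7_sound {ψ : ℕ → ℕ} (hG : Good ψ) {F : ℕ} (hI : Inv ψ (fun u => !sm 1296000 u) F)
    (h : step7 (ψ 3) (ψ 5) F (ψ 7) = true) : False := by
  have e9 : Nat.mod (Nat.add (ψ 3) (ψ 3)) 211 = ψ 9 := (hG.mul 3 3 (by norm_num) (by norm_num) (by norm_num)).symm
  have e15 : Nat.mod (Nat.add (ψ 3) (ψ 5)) 211 = ψ 15 := (hG.mul 3 5 (by norm_num) (by norm_num) (by norm_num)).symm
  have e25 : Nat.mod (Nat.add (ψ 5) (ψ 5)) 211 = ψ 25 := (hG.mul 5 5 (by norm_num) (by norm_num) (by norm_num)).symm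
  have e27 : Nat.mod (Nat.add (Nat.add (ψ 3) (ψ 3)) (ψ 3)) 211 = ψ 27 := by
    have g1 := hG.mul 3 3 (by norm_num) (by norm_num) (by norm_num)
    have g2 := hG.mul 9 3 (by norm_num) (by norm_num) (by norm_num)
    norm_num at g1 g2
    show (ψ 3 + ψ 3 + ψ 3) % 211 = ψ 27
    omega
  have hM1 : Cov ψ (fun w => sm 1296000 w && Nat.ble (w * 7) 211) (mask7 (ψ 3) (ψ 5)) := by
    unfold mask7
    rw [e9, e15, e25, e27]
    exact PreCov.fold (PreCov.lor (PreCov.blk0 hG 5 31 (by norm_num) (by decide +kernel))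
      (PreCov.lor (PreCov.blk hG 3 4 15 (by norm_num) (by norm_num) (by decide +kernel))
      (PreCov.lor (PreCov.blk hG 5 3 7 (by norm_num) (by norm_num) (by decide +kernel))
      (PreCov.lor (PreCov.blk hG 9 2 3 (by norm_num) (by norm_num) (by decide +kernel))
      (PreCov.lor (PreCov.blk hG 15 2 3 (by norm_num) (by norm_num) (by decide +kernel))
      (PreCov.lor (PreCov.blk hG 25 1 1 (by norm_num) (by norm_num) (by decide +kernel))
      (PreCov.blk hG 27 1 1 (by norm_num) (by norm_num) (by decide +kernel))))))))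
  have hA1 : Cov ψ (fun u => Nat.beq (u % 7) 0 && sm 1296000 (u / 7)) (foldM (Nat.shiftLeft (mask7 (ψ 3) (ψ 5)) (ψ 7))) :=
    Cov.shift hG (q := 7) (by norm_num) hM1 rfl (by decide +kernel)
  have hI1 := hI.xor hG hA1
  have hM2 : Cov ψ (fun w => sm 1296000 w && Nat.ble (w * 49) 211) (mask7_2 (ψ 3) (ψ 5)) := by
    unfold mask7_2
    exact PreCov.fold (PreCov.lor (PreCov.blk0 hG 3 7 (by norm_num) (by decide +kernel))
      (PreCov.blk hG 3 1 1 (by norm_num) (by norm_num) (by decide +kernel)))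
  have q2 : Nat.mod (Nat.mul 2 (ψ 7)) 211 = ψ 49 := by
    have g2 := hG.mul 7 7 (by norm_num) (by norm_num) (by norm_num)
    norm_num at g2
    show (2 * ψ 7) % 211 = ψ 49
    omega
  have hA2 : Cov ψ (fun u => Nat.beq (u % 49) 0 && sm 1296000 (u / 49)) (foldM (Nat.shiftLeft (mask7_2 (ψ 3) (ψ 5)) (Nat.mod (Nat.mul 2 (ψ 7)) 211))) :=
    Cov.shift hG (q := 49) (by norm_num) hM2 q2 (by decide +kernel)
  have hb2 := land_beq hI1 hA2 (by decide +kernel)
  have hI2 := hI1.xor hG hA2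
  unfold step7 at h
  simp only [hb2] at h
  exact lvl11_sound hG (hI2.mono (by decide +kernel)) h

theorem lvl7_sound {ψ : ℕ → ℕ} (hG : Good ψ) {F : ℕ} (hI : Inv ψ (fun u => !sm 1296000 u) F)
    (h : lvl7 (ψ 3) (ψ 5) F = true) : False :=
  step7_sound hG hI (enum_sound _ _ _ h (ψ 7) (cand7_mem hG hI))

theorem cand5_mem {ψ : ℕ → ℕ} (hG : Good ψ) {F : ℕ} (hI : Inv ψ (fun u => !sm 10368 u) F) :
    (cand5 (ψ 3) (tri F)).testBit (ψ 5) = true := by
  unfold cand5
  have e9 : Nat.mod (Nat.add (ψ 3) (ψ 3)) 211 = ψ 9 := (hG.mul 3 3 (by norm_num) (by norm_num) (by norm_num)).symm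
  have e27 : Nat.mod (Nat.add (Nat.add (ψ 3) (ψ 3)) (ψ 3)) 211 = ψ 27 := by
    have g1 := hG.mul 3 3 (by norm_num) (by norm_num) (by norm_num)
    have g2 := hG.mul 9 3 (by norm_num) (by norm_num) (by norm_num)
    norm_num at g1 g2
    show (ψ 3 + ψ 3 + ψ 3) % 211 = ψ 27
    omega
  rw [e9, e27]
  exact (land_tb (R6_tb _ _ (rbit1 hG hI 5 6 (by norm_num) (by decide +kernel)))
    (land_tb (shr_tb (R4_tb _ _ (rbit hG hI 5 3 4 (by norm_num) (by norm_num) (by decide +kernel))))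
    (land_tb (shr_tb (R3_tb _ _ (rbit hG hI 5 9 3 (by norm_num) (by norm_num) (by decide +kernel))))
    (land_tb (shr_tb (by simpa using rbit hG hI 5 27 1 (by norm_num) (by norm_num) (by decide +kernel) 0 (by norm_num)))
    (full_tb _ (hG.lt _))))))

theorem step5_sound {ψ : ℕ → ℕ} (hG : Good ψ) {F : ℕ} (hI : Inv ψ (fun u => !sm 10368 u) F)
    (h : step5 (ψ 3) F (ψ 5) = true) : False := by
  have e9 : Nat.mod (Nat.add (ψ 3) (ψ 3)) 211 = ψ 9 := (hG.mul 3 3 (by norm_num) (by norm_num) (by norm_num)).symm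
  have e27 : Nat.mod (Nat.add (Nat.add (ψ 3) (ψ 3)) (ψ 3)) 211 = ψ 27 := by
    have g1 := hG.mul 3 3 (by norm_num) (by norm_num) (by norm_num)
    have g2 := hG.mul 9 3 (by norm_num) (by norm_num) (by norm_num)
    norm_num at g1 g2
    show (ψ 3 + ψ 3 + ψ 3) % 211 = ψ 27
    omega
  have hM1 : Cov ψ (fun w => sm 10368 w && Nat.ble (w * 5) 211) (mask5 (ψ 3)) := by
    unfold mask5
    rw [e9, e27]
    exact PreCov.fold (PreCov.lor (PreCov.blk0 hG 6 63 (by norm_num) (by decide +kernel))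
      (PreCov.lor (PreCov.blk hG 3 4 15 (by norm_num) (by norm_num) (by decide +kernel))
      (PreCov.lor (PreCov.blk hG 9 3 7 (by norm_num) (by norm_num) (by decide +kernel))
      (PreCov.blk hG 27 1 1 (by norm_num) (by norm_num) (by decide +kernel)))))
  have hA1 : Cov ψ (fun u => Nat.beq (u % 5) 0 && sm 10368 (u / 5)) (foldM (Nat.shiftLeft (mask5 (ψ 3)) (ψ 5))) :=
    Cov.shift hG (q := 5) (by norm_num) hM1 rfl (by decide +kernel)
  have hI1 := hI.xor hG hA1
  have hM2 : Cov ψ (fun w => sm 10368 w && Nat.ble (w * 25) 211) (mask5_2 (ψ 3)) := by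
    unfold mask5_2
    exact PreCov.fold (PreCov.lor (PreCov.blk0 hG 4 15 (by norm_num) (by decide +kernel))
      (PreCov.blk hG 3 2 3 (by norm_num) (by norm_num) (by decide +kernel)))
  have q2 : Nat.mod (Nat.mul 2 (ψ 5)) 211 = ψ 25 := by
    have g2 := hG.mul 5 5 (by norm_num) (by norm_num) (by norm_num)
    norm_num at g2
    show (2 * ψ 5) % 211 = ψ 25
    omega
  have hA2 : Cov ψ (fun u => Nat.beq (u % 25) 0 && sm 10368 (u / 25)) (foldM (Nat.shiftLeft (mask5_2 (ψ 3)) (Nat.mod (Nat.mul 2 (ψ 5)) 211))) :=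
    Cov.shift hG (q := 25) (by norm_num) hM2 q2 (by decide +kernel)
  have hb2 := land_beq hI1 hA2 (by decide +kernel)
  have hI2 := hI1.xor hG hA2
  have hM3 : Cov ψ (fun w => sm 10368 w && Nat.ble (w * 125) 211) (mask5_3 (ψ 3)) := by
    unfold mask5_3
    exact PreCov.fold (PreCov.blk0 hG 1 1 (by norm_num) (by decide +kernel))
  have q3 : Nat.mod (Nat.mul 3 (ψ 5)) 211 = ψ 125 := by
    have g2 := hG.mul 5 5 (by norm_num) (by norm_num) (by norm_num)
    have g3 := hG.mul 25 5 (by norm_num) (by norm_num) (by norm_num)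
    norm_num at g2 g3
    show (3 * ψ 5) % 211 = ψ 125
    omega
  have hA3 : Cov ψ (fun u => Nat.beq (u % 125) 0 && sm 10368 (u / 125)) (foldM (Nat.shiftLeft (mask5_3 (ψ 3)) (Nat.mod (Nat.mul 3 (ψ 5)) 211))) :=
    Cov.shift hG (q := 125) (by norm_num) hM3 q3 (by decide +kernel)
  have hb3 := land_beq hI2 hA3 (by decide +kernel)
  have hI3 := hI2.xor hG hA3
  unfold step5 at h
  simp only [hb2, hb3] at h
  exact lvl7_sound hG (hI3.mono (by decide +kernel)) h

theorem lvl5_sound {ψ : ℕ → ℕ} (hG : Good ψ) {F : ℕ} (hI : Inv ψ (fun u => !sm 10368 u) F)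
    (h : lvl5 (ψ 3) F = true) : False :=
  step5_sound hG hI (enum_sound _ _ _ h (ψ 5) (cand5_mem hG hI))

theorem cand3_mem {ψ : ℕ → ℕ} (hG : Good ψ) {F : ℕ} (hI : Inv ψ (fun u => !sm 128 u) F) :
    (cand3  (tri F)).testBit (ψ 3) = true := by
  unfold cand3
  exact (land_tb (R7_tb _ _ (rbit1 hG hI 3 7 (by norm_num) (by decide +kernel)))
    (full_tb _ (hG.lt _)))

theorem step3_sound {ψ : ℕ → ℕ} (hG : Good ψ) {F : ℕ} (hI : Inv ψ (fun u => !sm 128 u) F)
    (h : step3  F (ψ 3) = true) : False := by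
  have hM1 : Cov ψ (fun w => sm 128 w && Nat.ble (w * 3) 211) mask3 := by
    unfold mask3
    exact PreCov.fold (PreCov.blk0 hG 7 127 (by norm_num) (by decide +kernel))
  have hA1 : Cov ψ (fun u => Nat.beq (u % 3) 0 && sm 128 (u / 3)) (foldM (Nat.shiftLeft mask3 (ψ 3))) :=
    Cov.shift hG (q := 3) (by norm_num) hM1 rfl (by decide +kernel)
  have hI1 := hI.xor hG hA1
  have hM2 : Cov ψ (fun w => sm 128 w && Nat.ble (w * 9) 211) mask3_2 := by
    unfold mask3_2
    exact PreCov.fold (PreCov.blk0 hG 5 31 (by norm_num) (by decide +kernel))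
  have q2 : Nat.mod (Nat.mul 2 (ψ 3)) 211 = ψ 9 := by
    have g2 := hG.mul 3 3 (by norm_num) (by norm_num) (by norm_num)
    norm_num at g2
    show (2 * ψ 3) % 211 = ψ 9
    omega
  have hA2 : Cov ψ (fun u => Nat.beq (u % 9) 0 && sm 128 (u / 9)) (foldM (Nat.shiftLeft mask3_2 (Nat.mod (Nat.mul 2 (ψ 3)) 211))) :=
    Cov.shift hG (q := 9) (by norm_num) hM2 q2 (by decide +kernel)
  have hb2 := land_beq hI1 hA2 (by decide +kernel)
  have hI2 := hI1.xor hG hA2
  have hM3 : Cov ψ (fun w => sm 128 w && Nat.ble (w * 27) 211) mask3_3 := by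
    unfold mask3_3
    exact PreCov.fold (PreCov.blk0 hG 3 7 (by norm_num) (by decide +kernel))
  have q3 : Nat.mod (Nat.mul 3 (ψ 3)) 211 = ψ 27 := by
    have g2 := hG.mul 3 3 (by norm_num) (by norm_num) (by norm_num)
    have g3 := hG.mul 9 3 (by norm_num) (by norm_num) (by norm_num)
    norm_num at g2 g3
    show (3 * ψ 3) % 211 = ψ 27
    omega
  have hA3 : Cov ψ (fun u => Nat.beq (u % 27) 0 && sm 128 (u / 27)) (foldM (Nat.shiftLeft mask3_3 (Nat.mod (Nat.mul 3 (ψ 3)) 211))) :=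
    Cov.shift hG (q := 27) (by norm_num) hM3 q3 (by decide +kernel)
  have hb3 := land_beq hI2 hA3 (by decide +kernel)
  have hI3 := hI2.xor hG hA3
  have hM4 : Cov ψ (fun w => sm 128 w && Nat.ble (w * 81) 211) mask3_4 := by
    unfold mask3_4
    exact PreCov.fold (PreCov.blk0 hG 2 3 (by norm_num) (by decide +kernel))
  have q4 : Nat.mod (Nat.mul 4 (ψ 3)) 211 = ψ 81 := by
    have g2 := hG.mul 3 3 (by norm_num) (by norm_num) (by norm_num)
    have g3 := hG.mul 9 3 (by norm_num) (by norm_num) (by norm_num)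
    have g4 := hG.mul 27 3 (by norm_num) (by norm_num) (by norm_num)
    norm_num at g2 g3 g4
    show (4 * ψ 3) % 211 = ψ 81
    omega
  have hA4 : Cov ψ (fun u => Nat.beq (u % 81) 0 && sm 128 (u / 81)) (foldM (Nat.shiftLeft mask3_4 (Nat.mod (Nat.mul 4 (ψ 3)) 211))) :=
    Cov.shift hG (q := 81) (by norm_num) hM4 q4 (by decide +kernel)
  have hb4 := land_beq hI3 hA4 (by decide +kernel)
  have hI4 := hI3.xor hG hA4
  unfold step3 at h
  simp only [hb2, hb3, hb4] at h
  exact lvl5_sound hG (hI4.mono (by decide +kernel)) h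

theorem lvl3_sound {ψ : ℕ → ℕ} (hG : Good ψ) {F : ℕ} (hI : Inv ψ (fun u => !sm 128 u) F)
    (h : lvl3  F = true) : False :=
  step3_sound hG hI (enum_sound _ _ _ h (ψ 3) (cand3_mem hG hI))

end Pool.Agent.H742R3.KM
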