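import Pool.Agent.H742R3.KMDefs

set_option autoImplicit false
set_option maxRecDepth 100000

namespace Pool.Agent.H742R3.KM

theorem chk20 : step3 3291009114642412084309938365114701009965471731267159726697217792 20 = true := by decide +kernel

theorem chk28 : step3 3291009114642412084309938365114701009965471731267159726697217792 28 = true := by decide +kernel

theorem chk43 : step3 3291009114642412084309938365114701009965471731267159726697217792 43 = true := by decide +kernel

theorem chk46 : step3 3291009114642412084309938365114701009965471731267159726697217792 46 = true := by decide +kernel

theorem chk76 : step3 3291009114642412084309938365114701009965471731267159726697217792 76 = true := by decide +kernel

theorem chk96 : step3 3291009114642412084309938365114701009965471731267159726697217792 96 = true := by decide +kernel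

theorem chk129 : step3 3291009114642412084309938365114701009965471731267159726697217792 129 = true := by decide +kernel

theorem chk174 : step3 3291009114642412084309938365114701009965471731267159726697217792 174 = true := by decide +kernel

theorem chk177 : step3 3291009114642412084309938365114701009965471731267159726697217792 177 = true := by decide +kernel

theorem chk180 : step3 3291009114642412084309938365114701009965471731267159726697217792 180 = true := by decide +kernel

theorem chk188 : step3 3291009114642412084309938365114701009965471731267159726697217792 188 = true := by decide +kernel

end Pool.Agent.H742R3.KM
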