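import Pool.Agent.H742R3.KMDefs

set_option autoImplicit false
set_option maxRecDepth 100000

namespace Pool.Agent.H742R3.KM

theorem chk10 : step3 3291009114642412084309938365114701009965471731267159726697217792 10 = true := by decide +kernel

theorem chk21 : step3 3291009114642412084309938365114701009965471731267159726697217792 21 = true := by decide +kernel

theorem chk40 : step3 3291009114642412084309938365114701009965471731267159726697217792 40 = true := by decide +kernel

theorem chk48 : step3 3291009114642412084309938365114701009965471731267159726697217792 48 = true := by decide +kernel

theorem chk49 : step3 3291009114642412084309938365114701009965471731267159726697217792 49 = true := by decide +kernel

theorem chk81 : step3 3291009114642412084309938365114701009965471731267159726697217792 81 = true := by decide +kernel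

theorem chk85 : step3 3291009114642412084309938365114701009965471731267159726697217792 85 = true := by decide +kernel

theorem chk100 : step3 3291009114642412084309938365114701009965471731267159726697217792 100 = true := by decide +kernel

theorem chk183 : step3 3291009114642412084309938365114701009965471731267159726697217792 183 = true := by decide +kernel

theorem chk184 : step3 3291009114642412084309938365114701009965471731267159726697217792 184 = true := by decide +kernel

theorem chk187 : step3 3291009114642412084309938365114701009965471731267159726697217792 187 = true := by decide +kernel

end Pool.Agent.H742R3.KM
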