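import Pool.Agent.H742R3.KMDefs

set_option autoImplicit false
set_option maxRecDepth 100000

namespace Pool.Agent.H742R3.KM

theorem chk31 : step3 3291009114642412084309938365114701009965471731267159726697217792 31 = true := by decide +kernel

theorem chk33 : step3 3291009114642412084309938365114701009965471731267159726697217792 33 = true := by decide +kernel

theorem chk51 : step3 3291009114642412084309938365114701009965471731267159726697217792 51 = true := by decide +kernel

theorem chk60 : step3 3291009114642412084309938365114701009965471731267159726697217792 60 = true := by decide +kernel

theorem chk140 : step3 3291009114642412084309938365114701009965471731267159726697217792 140 = true := by decide +kernel

theorem chk143 : step3 3291009114642412084309938365114701009965471731267159726697217792 143 = true := by decide +kernel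

theorem chk144 : step3 3291009114642412084309938365114701009965471731267159726697217792 144 = true := by decide +kernel

theorem chk149 : step3 3291009114642412084309938365114701009965471731267159726697217792 149 = true := by decide +kernel

theorem chk156 : step3 3291009114642412084309938365114701009965471731267159726697217792 156 = true := by decide +kernel

theorem chk160 : step3 3291009114642412084309938365114701009965471731267159726697217792 160 = true := by decide +kernel

theorem chk167 : step3 3291009114642412084309938365114701009965471731267159726697217792 167 = true := by decide +kernel

theorem chk175 : step3 3291009114642412084309938365114701009965471731267159726697217792 175 = true := by decide +kernel

theorem chk179 : step3 3291009114642412084309938365114701009965471731267159726697217792 179 = true := by decide +kernel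

theorem chk204 : step3 3291009114642412084309938365114701009965471731267159726697217792 204 = true := by decide +kernel

end Pool.Agent.H742R3.KM
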