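import Pool.Agent.H742R3.KMDefs

set_option autoImplicit false
set_option maxRecDepth 100000

namespace Pool.Agent.H742R3.KM

theorem chk25 : step3 3291009114642412084309938365114701009965471731267159726697217792 25 = true := by decide +kernel

theorem chk65 : step3 3291009114642412084309938365114701009965471731267159726697217792 65 = true := by decide +kernel

theorem chk74 : step3 3291009114642412084309938365114701009965471731267159726697217792 74 = true := by decide +kernel

theorem chk77 : step3 3291009114642412084309938365114701009965471731267159726697217792 77 = true := by decide +kernel

theorem chk84 : step3 3291009114642412084309938365114701009965471731267159726697217792 84 = true := by decide +kernel

theorem chk86 : step3 3291009114642412084309938365114701009965471731267159726697217792 86 = true := by decide +kernel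

theorem chk89 : step3 3291009114642412084309938365114701009965471731267159726697217792 89 = true := by decide +kernel

theorem chk139 : step3 3291009114642412084309938365114701009965471731267159726697217792 139 = true := by decide +kernel

theorem chk148 : step3 3291009114642412084309938365114701009965471731267159726697217792 148 = true := by decide +kernel

theorem chk189 : step3 3291009114642412084309938365114701009965471731267159726697217792 189 = true := by decide +kernel

theorem chk193 : step3 3291009114642412084309938365114701009965471731267159726697217792 193 = true := by decide +kernel

theorem chk196 : step3 3291009114642412084309938365114701009965471731267159726697217792 196 = true := by decide +kernel

end Pool.Agent.H742R3.KM
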