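import Pool.Agent.H742R3.KMDefs

set_option autoImplicit false
set_option maxRecDepth 100000

namespace Pool.Agent.H742R3.KM

theorem chk9 : step3 3291009114642412084309938365114701009965471731267159726697217792 9 = true := by decide +kernel

theorem chk23 : step3 3291009114642412084309938365114701009965471731267159726697217792 23 = true := by decide +kernel

theorem chk26 : step3 3291009114642412084309938365114701009965471731267159726697217792 26 = true := by decide +kernel

theorem chk29 : step3 3291009114642412084309938365114701009965471731267159726697217792 29 = true := by decide +kernel

theorem chk47 : step3 3291009114642412084309938365114701009965471731267159726697217792 47 = true := by decide +kernel

theorem chk52 : step3 3291009114642412084309938365114701009965471731267159726697217792 52 = true := by decide +kernel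

theorem chk75 : step3 3291009114642412084309938365114701009965471731267159726697217792 75 = true := by decide +kernel

theorem chk92 : step3 3291009114642412084309938365114701009965471731267159726697217792 92 = true := by decide +kernel

theorem chk93 : step3 3291009114642412084309938365114701009965471731267159726697217792 93 = true := by decide +kernel

theorem chk102 : step3 3291009114642412084309938365114701009965471731267159726697217792 102 = true := by decide +kernel

theorem chk125 : step3 3291009114642412084309938365114701009965471731267159726697217792 125 = true := by decide +kernel

theorem chk157 : step3 3291009114642412084309938365114701009965471731267159726697217792 157 = true := by decide +kernel

end Pool.Agent.H742R3.KM
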