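import Pool.Agent.H742R3.KMDefs

set_option autoImplicit false
set_option maxRecDepth 100000

namespace Pool.Agent.H742R3.KM

theorem chk12 : step3 3291009114642412084309938365114701009965471731267159726697217792 12 = true := by decide +kernel

theorem chk50 : step3 3291009114642412084309938365114701009965471731267159726697217792 50 = true := by decide +kernel

theorem chk79 : step3 3291009114642412084309938365114701009965471731267159726697217792 79 = true := by decide +kernel

theorem chk87 : step3 3291009114642412084309938365114701009965471731267159726697217792 87 = true := by decide +kernel

theorem chk110 : step3 3291009114642412084309938365114701009965471731267159726697217792 110 = true := by decide +kernel

theorem chk111 : step3 3291009114642412084309938365114701009965471731267159726697217792 111 = true := by decide +kernel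

theorem chk114 : step3 3291009114642412084309938365114701009965471731267159726697217792 114 = true := by decide +kernel

theorem chk164 : step3 3291009114642412084309938365114701009965471731267159726697217792 164 = true := by decide +kernel

theorem chk168 : step3 3291009114642412084309938365114701009965471731267159726697217792 168 = true := by decide +kernel

theorem chk198 : step3 3291009114642412084309938365114701009965471731267159726697217792 198 = true := by decide +kernel

theorem chk202 : step3 3291009114642412084309938365114701009965471731267159726697217792 202 = true := by decide +kernel

end Pool.Agent.H742R3.KM
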