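import Pool.Agent.H742R3.KMDefs

set_option autoImplicit false
set_option maxRecDepth 100000

namespace Pool.Agent.H742R3.KM

theorem chk36 : step3 3291009114642412084309938365114701009965471731267159726697217792 36 = true := by decide +kernel

theorem chk54 : step3 3291009114642412084309938365114701009965471731267159726697217792 54 = true := by decide +kernel

theorem chk56 : step3 3291009114642412084309938365114701009965471731267159726697217792 56 = true := by decide +kernel

theorem chk67 : step3 3291009114642412084309938365114701009965471731267159726697217792 67 = true := by decide +kernel

theorem chk71 : step3 3291009114642412084309938365114701009965471731267159726697217792 71 = true := by decide +kernel

theorem chk99 : step3 3291009114642412084309938365114701009965471731267159726697217792 99 = true := by decide +kernel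

theorem chk104 : step3 3291009114642412084309938365114701009965471731267159726697217792 104 = true := by decide +kernel

theorem chk106 : step3 3291009114642412084309938365114701009965471731267159726697217792 106 = true := by decide +kernel

theorem chk108 : step3 3291009114642412084309938365114701009965471731267159726697217792 108 = true := by decide +kernel

theorem chk132 : step3 3291009114642412084309938365114701009965471731267159726697217792 132 = true := by decide +kernel

theorem chk141 : step3 3291009114642412084309938365114701009965471731267159726697217792 141 = true := by decide +kernel

theorem chk155 : step3 3291009114642412084309938365114701009965471731267159726697217792 155 = true := by decide +kernel

theorem chk158 : step3 3291009114642412084309938365114701009965471731267159726697217792 158 = true := by decide +kernel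

theorem chk172 : step3 3291009114642412084309938365114701009965471731267159726697217792 172 = true := by decide +kernel

theorem chk176 : step3 3291009114642412084309938365114701009965471731267159726697217792 176 = true := by decide +kernel

theorem chk185 : step3 3291009114642412084309938365114701009965471731267159726697217792 185 = true := by decide +kernel

theorem chk195 : step3 3291009114642412084309938365114701009965471731267159726697217792 195 = true := by decide +kernel

theorem chk203 : step3 3291009114642412084309938365114701009965471731267159726697217792 203 = true := by decide +kernel

end Pool.Agent.H742R3.KM
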