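import Pool.Agent.H742R3.KMDefs

set_option autoImplicit false
set_option maxRecDepth 100000

namespace Pool.Agent.H742R3.KM

theorem chk19 : step3 3291009114642412084309938365114701009965471731267159726697217792 19 = true := by decide +kernel

theorem chk32 : step3 3291009114642412084309938365114701009965471731267159726697217792 32 = true := by decide +kernel

theorem chk42 : step3 3291009114642412084309938365114701009965471731267159726697217792 42 = true := by decide +kernel

theorem chk53 : step3 3291009114642412084309938365114701009965471731267159726697217792 53 = true := by decide +kernel

theorem chk55 : step3 3291009114642412084309938365114701009965471731267159726697217792 55 = true := by decide +kernel

theorem chk70 : step3 3291009114642412084309938365114701009965471731267159726697217792 70 = true := by decide +kernel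

theorem chk72 : step3 3291009114642412084309938365114701009965471731267159726697217792 72 = true := by decide +kernel

theorem chk80 : step3 3291009114642412084309938365114701009965471731267159726697217792 80 = true := by decide +kernel

theorem chk88 : step3 3291009114642412084309938365114701009965471731267159726697217792 88 = true := by decide +kernel

theorem chk98 : step3 3291009114642412084309938365114701009965471731267159726697217792 98 = true := by decide +kernel

theorem chk105 : step3 3291009114642412084309938365114701009965471731267159726697217792 105 = true := by decide +kernel

theorem chk107 : step3 3291009114642412084309938365114701009965471731267159726697217792 107 = true := by decide +kernel

theorem chk109 : step3 3291009114642412084309938365114701009965471731267159726697217792 109 = true := by decide +kernel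

theorem chk117 : step3 3291009114642412084309938365114701009965471731267159726697217792 117 = true := by decide +kernel

theorem chk142 : step3 3291009114642412084309938365114701009965471731267159726697217792 142 = true := by decide +kernel

theorem chk159 : step3 3291009114642412084309938365114701009965471731267159726697217792 159 = true := by decide +kernel

theorem chk161 : step3 3291009114642412084309938365114701009965471731267159726697217792 161 = true := by decide +kernel

theorem chk162 : step3 3291009114642412084309938365114701009965471731267159726697217792 162 = true := by decide +kernel

theorem chk166 : step3 3291009114642412084309938365114701009965471731267159726697217792 166 = true := by decide +kernel

end Pool.Agent.H742R3.KM
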