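import Pool.Agent.H742R3.KMDefs

set_option autoImplicit false
set_option maxRecDepth 100000

namespace Pool.Agent.H742R3.KM

theorem chk13 : step3 3291009114642412084309938365114701009965471731267159726697217792 13 = true := by decide +kernel

theorem chk22 : step3 3291009114642412084309938365114701009965471731267159726697217792 22 = true := by decide +kernel

theorem chk30 : step3 3291009114642412084309938365114701009965471731267159726697217792 30 = true := by decide +kernel

theorem chk34 : step3 3291009114642412084309938365114701009965471731267159726697217792 34 = true := by decide +kernel

theorem chk73 : step3 3291009114642412084309938365114701009965471731267159726697217792 73 = true := by decide +kernel

theorem chk94 : step3 3291009114642412084309938365114701009965471731267159726697217792 94 = true := by decide +kernel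

theorem chk136 : step3 3291009114642412084309938365114701009965471731267159726697217792 136 = true := by decide +kernel

theorem chk151 : step3 3291009114642412084309938365114701009965471731267159726697217792 151 = true := by decide +kernel

theorem chk154 : step3 3291009114642412084309938365114701009965471731267159726697217792 154 = true := by decide +kernel

theorem chk181 : step3 3291009114642412084309938365114701009965471731267159726697217792 181 = true := by decide +kernel

theorem chk191 : step3 3291009114642412084309938365114701009965471731267159726697217792 191 = true := by decide +kernel

end Pool.Agent.H742R3.KM
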