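import Pool.Agent.H742R3.KMDefs

set_option autoImplicit false
set_option maxRecDepth 100000

namespace Pool.Agent.H742R3.KM

theorem chk27 : step3 3291009114642412084309938365114701009965471731267159726697217792 27 = true := by decide +kernel

theorem chk41 : step3 3291009114642412084309938365114701009965471731267159726697217792 41 = true := by decide +kernel

theorem chk101 : step3 3291009114642412084309938365114701009965471731267159726697217792 101 = true := by decide +kernel

theorem chk116 : step3 3291009114642412084309938365114701009965471731267159726697217792 116 = true := by decide +kernel

theorem chk118 : step3 3291009114642412084309938365114701009965471731267159726697217792 118 = true := by decide +kernel

theorem chk122 : step3 3291009114642412084309938365114701009965471731267159726697217792 122 = true := by decide +kernel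

theorem chk123 : step3 3291009114642412084309938365114701009965471731267159726697217792 123 = true := by decide +kernel

theorem chk127 : step3 3291009114642412084309938365114701009965471731267159726697217792 127 = true := by decide +kernel

theorem chk133 : step3 3291009114642412084309938365114701009965471731267159726697217792 133 = true := by decide +kernel

theorem chk150 : step3 3291009114642412084309938365114701009965471731267159726697217792 150 = true := by decide +kernel

theorem chk171 : step3 3291009114642412084309938365114701009965471731267159726697217792 171 = true := by decide +kernel

end Pool.Agent.H742R3.KM
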