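import Pool.Agent.H742R3.KMDefs

set_option autoImplicit false
set_option maxRecDepth 100000

namespace Pool.Agent.H742R3.KM

theorem chk14 : step3 3291009114642412084309938365114701009965471731267159726697217792 14 = true := by decide +kernel

theorem chk17 : step3 3291009114642412084309938365114701009965471731267159726697217792 17 = true := by decide +kernel

theorem chk18 : step3 3291009114642412084309938365114701009965471731267159726697217792 18 = true := by decide +kernel

theorem chk35 : step3 3291009114642412084309938365114701009965471731267159726697217792 35 = true := by decide +kernel

theorem chk66 : step3 3291009114642412084309938365114701009965471731267159726697217792 66 = true := by decide +kernel

theorem chk115 : step3 3291009114642412084309938365114701009965471731267159726697217792 115 = true := by decide +kernel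

theorem chk120 : step3 3291009114642412084309938365114701009965471731267159726697217792 120 = true := by decide +kernel

theorem chk121 : step3 3291009114642412084309938365114701009965471731267159726697217792 121 = true := by decide +kernel

theorem chk147 : step3 3291009114642412084309938365114701009965471731267159726697217792 147 = true := by decide +kernel

theorem chk170 : step3 3291009114642412084309938365114701009965471731267159726697217792 170 = true := by decide +kernel

theorem chk190 : step3 3291009114642412084309938365114701009965471731267159726697217792 190 = true := by decide +kernel

end Pool.Agent.H742R3.KM
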