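import Pool.Agent.H742R3.KMDefs

set_option autoImplicit false
set_option maxRecDepth 100000

namespace Pool.Agent.H742R3.KM

theorem chk15 : step3 3291009114642412084309938365114701009965471731267159726697217792 15 = true := by decide +kernel

theorem chk37 : step3 3291009114642412084309938365114701009965471731267159726697217792 37 = true := by decide +kernel

theorem chk95 : step3 3291009114642412084309938365114701009965471731267159726697217792 95 = true := by decide +kernel

theorem chk97 : step3 3291009114642412084309938365114701009965471731267159726697217792 97 = true := by decide +kernel

theorem chk103 : step3 3291009114642412084309938365114701009965471731267159726697217792 103 = true := by decide +kernel

theorem chk134 : step3 3291009114642412084309938365114701009965471731267159726697217792 134 = true := by decide +kernel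

theorem chk153 : step3 3291009114642412084309938365114701009965471731267159726697217792 153 = true := by decide +kernel

theorem chk173 : step3 3291009114642412084309938365114701009965471731267159726697217792 173 = true := by decide +kernel

theorem chk178 : step3 3291009114642412084309938365114701009965471731267159726697217792 178 = true := by decide +kernel

theorem chk197 : step3 3291009114642412084309938365114701009965471731267159726697217792 197 = true := by decide +kernel

theorem chk201 : step3 3291009114642412084309938365114701009965471731267159726697217792 201 = true := by decide +kernel

end Pool.Agent.H742R3.KM
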