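import Pool.Agent.H742R3.KMDefs

set_option autoImplicit false
set_option maxRecDepth 100000

namespace Pool.Agent.H742R3.KM

theorem chk8 : step3 3291009114642412084309938365114701009965471731267159726697217792 8 = true := by decide +kernel

theorem chk24 : step3 3291009114642412084309938365114701009965471731267159726697217792 24 = true := by decide +kernel

theorem chk45 : step3 3291009114642412084309938365114701009965471731267159726697217792 45 = true := by decide +kernel

theorem chk59 : step3 3291009114642412084309938365114701009965471731267159726697217792 59 = true := by decide +kernel

theorem chk62 : step3 3291009114642412084309938365114701009965471731267159726697217792 62 = true := by decide +kernel

theorem chk113 : step3 3291009114642412084309938365114701009965471731267159726697217792 113 = true := by decide +kernel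

theorem chk135 : step3 3291009114642412084309938365114701009965471731267159726697217792 135 = true := by decide +kernel

theorem chk182 : step3 3291009114642412084309938365114701009965471731267159726697217792 182 = true := by decide +kernel

theorem chk192 : step3 3291009114642412084309938365114701009965471731267159726697217792 192 = true := by decide +kernel

theorem chk194 : step3 3291009114642412084309938365114701009965471731267159726697217792 194 = true := by decide +kernel

theorem chk200 : step3 3291009114642412084309938365114701009965471731267159726697217792 200 = true := by decide +kernel

end Pool.Agent.H742R3.KM
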