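import Pool.Agent.H742R3.KMDefs

set_option autoImplicit false
set_option maxRecDepth 100000

namespace Pool.Agent.H742R3.KM

theorem chk39 : step3 3291009114642412084309938365114701009965471731267159726697217792 39 = true := by decide +kernel

theorem chk57 : step3 3291009114642412084309938365114701009965471731267159726697217792 57 = true := by decide +kernel

theorem chk58 : step3 3291009114642412084309938365114701009965471731267159726697217792 58 = true := by decide +kernel

theorem chk63 : step3 3291009114642412084309938365114701009965471731267159726697217792 63 = true := by decide +kernel

theorem chk91 : step3 3291009114642412084309938365114701009965471731267159726697217792 91 = true := by decide +kernel

theorem chk112 : step3 3291009114642412084309938365114701009965471731267159726697217792 112 = true := by decide +kernel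

theorem chk138 : step3 3291009114642412084309938365114701009965471731267159726697217792 138 = true := by decide +kernel

theorem chk163 : step3 3291009114642412084309938365114701009965471731267159726697217792 163 = true := by decide +kernel

theorem chk169 : step3 3291009114642412084309938365114701009965471731267159726697217792 169 = true := by decide +kernel

theorem chk186 : step3 3291009114642412084309938365114701009965471731267159726697217792 186 = true := by decide +kernel

theorem chk199 : step3 3291009114642412084309938365114701009965471731267159726697217792 199 = true := by decide +kernel

end Pool.Agent.H742R3.KM
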