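import Pool.Agent.H742R3.KMDefs

set_option autoImplicit false
set_option maxRecDepth 100000

namespace Pool.Agent.H742R3.KM

theorem chk38 : step3 3291009114642412084309938365114701009965471731267159726697217792 38 = true := by decide +kernel

theorem chk44 : step3 3291009114642412084309938365114701009965471731267159726697217792 44 = true := by decide +kernel

theorem chk69 : step3 3291009114642412084309938365114701009965471731267159726697217792 69 = true := by decide +kernel

theorem chk78 : step3 3291009114642412084309938365114701009965471731267159726697217792 78 = true := by decide +kernel

theorem chk82 : step3 3291009114642412084309938365114701009965471731267159726697217792 82 = true := by decide +kernel

theorem chk83 : step3 3291009114642412084309938365114701009965471731267159726697217792 83 = true := by decide +kernel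

theorem chk119 : step3 3291009114642412084309938365114701009965471731267159726697217792 119 = true := by decide +kernel

theorem chk126 : step3 3291009114642412084309938365114701009965471731267159726697217792 126 = true := by decide +kernel

theorem chk130 : step3 3291009114642412084309938365114701009965471731267159726697217792 130 = true := by decide +kernel

theorem chk137 : step3 3291009114642412084309938365114701009965471731267159726697217792 137 = true := by decide +kernel

theorem chk145 : step3 3291009114642412084309938365114701009965471731267159726697217792 145 = true := by decide +kernel

end Pool.Agent.H742R3.KM
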