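import Pool.Agent.H742R3.KMDefs

set_option autoImplicit false
set_option maxRecDepth 100000

namespace Pool.Agent.H742R3.KM

theorem chk11 : step3 3291009114642412084309938365114701009965471731267159726697217792 11 = true := by decide +kernel

theorem chk16 : step3 3291009114642412084309938365114701009965471731267159726697217792 16 = true := by decide +kernel

theorem chk61 : step3 3291009114642412084309938365114701009965471731267159726697217792 61 = true := by decide +kernel

theorem chk64 : step3 3291009114642412084309938365114701009965471731267159726697217792 64 = true := by decide +kernel

theorem chk68 : step3 3291009114642412084309938365114701009965471731267159726697217792 68 = true := by decide +kernel

theorem chk90 : step3 3291009114642412084309938365114701009965471731267159726697217792 90 = true := by decide +kernel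

theorem chk124 : step3 3291009114642412084309938365114701009965471731267159726697217792 124 = true := by decide +kernel

theorem chk128 : step3 3291009114642412084309938365114701009965471731267159726697217792 128 = true := by decide +kernel

theorem chk131 : step3 3291009114642412084309938365114701009965471731267159726697217792 131 = true := by decide +kernel

theorem chk146 : step3 3291009114642412084309938365114701009965471731267159726697217792 146 = true := by decide +kernel

theorem chk152 : step3 3291009114642412084309938365114701009965471731267159726697217792 152 = true := by decide +kernel

theorem chk165 : step3 3291009114642412084309938365114701009965471731267159726697217792 165 = true := by decide +kernel

end Pool.Agent.H742R3.KM
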