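import Mathlib
import Pool.Agent.H742R3.KMLevels
import Pool.Agent.H742R3.KMPart0
import Pool.Agent.H742R3.KMPart1
import Pool.Agent.H742R3.KMPart2
import Pool.Agent.H742R3.KMPart3
import Pool.Agent.H742R3.KMPart4
import Pool.Agent.H742R3.KMPart5
import Pool.Agent.H742R3.KMPart6
import Pool.Agent.H742R3.KMPart7
import Pool.Agent.H742R3.KMPart8
import Pool.Agent.H742R3.KMPart9
import Pool.Agent.H742R3.KMPart10
import Pool.Agent.H742R3.KMPart11
import Pool.Agent.H742R3.KMPart12
import Pool.Agent.H742R3.KMPart13
import Pool.Agent.H742R3.KMPart14
import Pool.Agent.H742R3.KMPart15

set_option autoImplicit false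
set_option maxRecDepth 100000

namespace Pool.Agent.H742R3.KM

theorem Inv_F0 {ψ : ℕ → ℕ} (hG : Good ψ) : Inv ψ (fun u => !sm 128 u) 3291009114642412084309938365114701009965471731267159726697217792 := by
  intro u h1 h2 hS
  have h8 : 8 ≤ ψ u := by
    by_contra hlt
    push Not at hlt
    have h3 : 2 ^ (ψ u) ≤ 211 := by
      interval_cases (ψ u) <;> norm_num
    have h4 := hG.pow2 (ψ u) h3
    have h5 := hG.inj (2 ^ (ψ u)) u (Nat.one_le_two_pow) h3 h1 h2 h4
    have h6 : sm 128 u = true := by
      rw [← h5]
      interval_cases (ψ u) <;> decide
    simp only [Bool.not_eq_true'] at hS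
    rw [h6] at hS
    exact absurd hS (by simp)
  have h9 := hG.lt u
  have h10 : ∀ i < 211, 8 ≤ i → (3291009114642412084309938365114701009965471731267159726697217792 : ℕ).testBit i = true := by decide +kernel
  exact h10 _ h9 h8

theorem cand3_range : ∀ i < 211, (cand3 (tri 3291009114642412084309938365114701009965471731267159726697217792)).testBit i = true → 8 ≤ i ∧ i < 205 := by
  decide +kernel

theorem step3_all (v : ℕ) (h1 : 8 ≤ v) (h2 : v < 205) : step3 3291009114642412084309938365114701009965471731267159726697217792 v = true := by
  interval_cases v
  · exact chk8
  · exact chk9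
  · exact chk10
  · exact chk11
  · exact chk12
  · exact chk13
  · exact chk14
  · exact chk15
  · exact chk16
  · exact chk17
  · exact chk18
  · exact chk19
  · exact chk20
  · exact chk21
  · exact chk22
  · exact chk23
  · exact chk24
  · exact chk25
  · exact chk26
  · exact chk27
  · exact chk28
  · exact chk29
  · exact chk30
  · exact chk31
  · exact chk32
  · exact chk33
  · exact chk34
  · exact chk35
  · exact chk36
  · exact chk37
  · exact chk38
  · exact chk39
  · exact chk40
  · exact chk41
  · exact chk42
  · exact chk43
  · exact chk44
  · exact chk45
  · exact chk46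
  · exact chk47
  · exact chk48
  · exact chk49
  · exact chk50
  · exact chk51
  · exact chk52
  · exact chk53
  · exact chk54
  · exact chk55
  · exact chk56
  · exact chk57
  · exact chk58
  · exact chk59
  · exact chk60
  · exact chk61
  · exact chk62
  · exact chk63
  · exact chk64
  · exact chk65
  · exact chk66
  · exact chk67
  · exact chk68
  · exact chk69
  · exact chk70
  · exact chk71
  · exact chk72
  · exact chk73
  · exact chk74
  · exact chk75
  · exact chk76
  · exact chk77
  · exact chk78
  · exact chk79
  · exact chk80
  · exact chk81
  · exact chk82
  · exact chk83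
  · exact chk84
  · exact chk85
  · exact chk86
  · exact chk87
  · exact chk88
  · exact chk89
  · exact chk90
  · exact chk91
  · exact chk92
  · exact chk93
  · exact chk94
  · exact chk95
  · exact chk96
  · exact chk97
  · exact chk98
  · exact chk99
  · exact chk100
  · exact chk101
  · exact chk102
  · exact chk103
  · exact chk104
  · exact chk105
  · exact chk106
  · exact chk107
  · exact chk108
  · exact chk109
  · exact chk110
  · exact chk111
  · exact chk112
  · exact chk113
  · exact chk114
  · exact chk115
  · exact chk116
  · exact chk117
  · exact chk118
  · exact chk119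
  · exact chk120
  · exact chk121
  · exact chk122
  · exact chk123
  · exact chk124
  · exact chk125
  · exact chk126
  · exact chk127
  · exact chk128
  · exact chk129
  · exact chk130
  · exact chk131
  · exact chk132
  · exact chk133
  · exact chk134
  · exact chk135
  · exact chk136
  · exact chk137
  · exact chk138
  · exact chk139
  · exact chk140
  · exact chk141
  · exact chk142
  · exact chk143
  · exact chk144
  · exact chk145
  · exact chk146
  · exact chk147
  · exact chk148
  · exact chk149
  · exact chk150
  · exact chk151
  · exact chk152
  · exact chk153
  · exact chk154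
  · exact chk155
  · exact chk156
  · exact chk157
  · exact chk158
  · exact chk159
  · exact chk160
  · exact chk161
  · exact chk162
  · exact chk163
  · exact chk164
  · exact chk165
  · exact chk166
  · exact chk167
  · exact chk168
  · exact chk169
  · exact chk170
  · exact chk171
  · exact chk172
  · exact chk173
  · exact chk174
  · exact chk175
  · exact chk176
  · exact chk177
  · exact chk178
  · exact chk179
  · exact chk180
  · exact chk181
  · exact chk182
  · exact chk183
  · exact chk184
  · exact chk185
  · exact chk186
  · exact chk187
  · exact chk188
  · exact chk189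
  · exact chk190
  · exact chk191
  · exact chk192
  · exact chk193
  · exact chk194
  · exact chk195
  · exact chk196
  · exact chk197
  · exact chk198
  · exact chk199
  · exact chk200
  · exact chk201
  · exact chk202
  · exact chk203
  · exact chk204

/-- There is no completely additive bijection from `{1,…,211}` to the integers mod `211`. -/
theorem no_good (ψ : ℕ → ℕ) (hG : Good ψ) : False := by
  have hI := Inv_F0 hG
  have hc := cand3_mem hG hI
  have hr := cand3_range _ (hG.lt 3) hc
  exact step3_sound hG hI (step3_all _ hr.1 hr.2)

end Pool.Agent.H742R3.KM
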