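import Mathlib
import Pool.Agent.H742R3.KMChar
import Pool.Agent.H742R3.KMNoGoodB

set_option autoImplicit false

open scoped BigOperators

namespace Pool.Agent.H742R3.KMAlg

open Pool.Agent.H742R3.KM

theorem sp_val (i : ℕ) : ((sp i : ℕ+) : ℕ) = i + 1 := rfl

/-- there is no colouring for `211` -/
theorem no_col (c : ℕ+ → Fin 211) (h : IsCol 211 c) : False := by
  classical
  have hp : Nat.Prime 211 := by norm_num
  have : Fact (Nat.Prime 211) := ⟨hp⟩
  have : NeZero 211 := ⟨by norm_num⟩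
  obtain ⟨K, hK, hK0, χ, hsum, hpow⟩ := h.character
  have hinj := char_inj hp χ hsum hpow
  have hsp0 : sp 0 = 1 := rfl
  have hne : χ (sp 1) ≠ 1 := by
    intro h1
    have h2 : χ (sp 1) = χ (sp 0) := by rw [hsp0, map_one, h1]
    have := hinj 1 (by norm_num) 0 (by norm_num) h2
    omega
  have hζ : IsPrimitiveRoot (χ (sp 1)) 211 := by
    rw [IsPrimitiveRoot.iff_orderOf]
    exact orderOf_eq_prime (hpow 1 (by norm_num)) hne
  set ζ := χ (sp 1) with hζdef
  -- exponents for m in [1,211]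
  have hexp : ∀ m : ℕ, ∃ e, e < 211 ∧ (1 ≤ m → m ≤ 211 → ζ ^ e = χ (sp (m - 1))) := by
    intro m
    by_cases hm : 1 ≤ m ∧ m ≤ 211
    · obtain ⟨e, he, h1⟩ := hζ.eq_pow_of_pow_eq_one (hpow (m - 1) (by omega))
      exact ⟨e, he, fun _ _ => h1⟩
    · exact ⟨0, by norm_num, fun h1 h2 => absurd ⟨h1, h2⟩ hm⟩
  choose ψ hψlt hψ using hexp
  apply no_good ψ
  refine ⟨hψlt, ?_, ?_, ?_⟩
  · have h1 := hψ 2 (by norm_num) (by norm_num)
    have h2 : ζ ^ (ψ 2) = ζ ^ 1 := by rw [h1, pow_one]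
    exact hζ.pow_inj (hψlt 2) (by norm_num) h2
  · intro a b ha hb hab
    have ha2 : a ≤ 211 := le_trans (Nat.le_mul_of_pos_right a hb) hab
    have hb2 : b ≤ 211 := le_trans (Nat.le_mul_of_pos_left b ha) hab
    have h1 := hψ a ha ha2
    have h2 := hψ b hb hb2
    have h3 := hψ (a * b) (Nat.mul_pos ha hb) hab
    have h4 : sp (a * b - 1) = sp (a - 1) * sp (b - 1) := by
      apply PNat.eq
      rw [PNat.mul_coe, sp_val, sp_val, sp_val]
      have : 0 < a * b := Nat.mul_pos ha hb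
      rw [Nat.sub_add_cancel this, Nat.sub_add_cancel ha, Nat.sub_add_cancel hb]
    rw [h4, map_mul, ← h1, ← h2, ← pow_add] at h3
    have h5 : ζ ^ (ψ a + ψ b) = ζ ^ ((ψ a + ψ b) % 211) := by
      conv_lhs => rw [← Nat.div_add_mod (ψ a + ψ b) 211]
      rw [pow_add, pow_mul, hζ.pow_eq_one, one_pow, one_mul]
    rw [h5] at h3
    exact hζ.pow_inj (hψlt _) (Nat.mod_lt _ (by norm_num)) h3
  · intro a b ha ha2 hb hb2 hab
    have h1 := hψ a ha ha2
    have h2 := hψ b hb hb2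
    rw [hab, h2] at h1
    have := hinj (b - 1) (by omega) (a - 1) (by omega) h1
    omega

end Pool.Agent.H742R3.KMAlg
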