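import Mathlib

/-!
Oriented simplicial chains inside the exterior algebra; tools for matching complexes.
-/

set_option autoImplicit false

namespace Pool.Agent.H742R3.Mat

/-- The exterior algebra of the free abelian group on the vertices. -/
abbrev Ext (V : Type) : Type := ExteriorAlgebra ℤ (V →₀ ℤ)

/-- The generator belonging to a vertex. -/
noncomputable def gen {V : Type} (v : V) : Ext V := ExteriorAlgebra.ι ℤ (Finsupp.single v 1)

/-- The oriented simplex `v₀ ∧ ⋯ ∧ v_d` (as an element of the exterior algebra). -/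
noncomputable def simplex {V : Type} (l : List V) : Ext V := (l.map gen).prod

/-- The boundary operator: contraction with the functional with value `1` at every vertex, that is
`v₀ ∧ ⋯ ∧ v_d ↦ ∑ i, (-1) ^ i • (v₀ ∧ ⋯ v̂_i ⋯ ∧ v_d)`. -/
noncomputable def bd {V : Type} : Ext V →ₗ[ℤ] Ext V :=
  CliffordAlgebra.contractLeft (Finsupp.linearCombination ℤ (fun _ : V => (1 : ℤ)))

/-- Contraction with the coordinate functional of the vertex `e`:
`e ∧ τ + w ↦ τ` if `e` does not occur in `τ` and `w`. -/
noncomputable def co {V : Type} (e : V) : Ext V →ₗ[ℤ] Ext V :=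
  CliffordAlgebra.contractLeft (Finsupp.lapply e)

section basic
variable {V : Type}

@[simp] lemma simplex_nil : simplex ([] : List V) = 1 := rfl

@[simp] lemma simplex_cons (v : V) (l : List V) : simplex (v :: l) = gen v * simplex l := by
  simp [simplex]

lemma gen_sq (v : V) : gen v * gen v = 0 := ExteriorAlgebra.ι_sq_zero _

lemma gen_swap (v w : V) : gen v * gen w = - (gen w * gen v) :=
  eq_neg_of_add_eq_zero_left (ExteriorAlgebra.ι_add_mul_swap _ _)

lemma bd_gen_mul (v : V) (x : Ext V) : bd (gen v * x) = x - gen v * bd x := by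
  unfold bd gen
  rw [show (ExteriorAlgebra.ι ℤ (Finsupp.single v 1) : Ext V) * x =
    CliffordAlgebra.ι (0 : QuadraticForm ℤ (V →₀ ℤ)) (Finsupp.single v 1) * x from rfl,
    CliffordAlgebra.contractLeft_ι_mul]
  simp

@[simp] lemma bd_one : bd (1 : Ext V) = 0 := by
  unfold bd
  exact CliffordAlgebra.contractLeft_one _ _

lemma bd_bd (x : Ext V) : bd (bd x) = 0 := by
  unfold bd
  exact CliffordAlgebra.contractLeft_contractLeft _ _

lemma co_gen_mul [DecidableEq V] (e v : V) (x : Ext V) :
    co e (gen v * x) = (if v = e then x else 0) - gen v * co e x := by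
  unfold co gen
  rw [show (ExteriorAlgebra.ι ℤ (Finsupp.single v 1) : Ext V) * x =
    CliffordAlgebra.ι (0 : QuadraticForm ℤ (V →₀ ℤ)) (Finsupp.single v 1) * x from rfl,
    CliffordAlgebra.contractLeft_ι_mul]
  congr 1
  by_cases h : v = e
  · simp [h]
  · simp [h]

@[simp] lemma co_one (e : V) : co e (1 : Ext V) = 0 := by
  unfold co
  exact CliffordAlgebra.contractLeft_one _ _

lemma bd_co (e : V) (x : Ext V) : bd (co e x) = - co e (bd x) := by
  unfold bd co
  exact CliffordAlgebra.contractLeft_comm _ _ _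

end basic

section maps
variable {V : Type}

/-- algebra map induced by a map of vertices -/
noncomputable def Gam (g : V → V) : Ext V →ₐ[ℤ] Ext V :=
  ExteriorAlgebra.map (Finsupp.lmapDomain ℤ ℤ g)

@[simp] lemma Gam_gen (g : V → V) (v : V) : Gam g (gen v) = gen (g v) := by
  simp [Gam, gen]

lemma Gam_simplex (g : V → V) (l : List V) : Gam g (simplex l) = simplex (l.map g) := by
  induction l with
  | nil => simp
  | cons v l ih => simp [ih]

lemma bd_Gam (g : V → V) (x : Ext V) : bd (Gam g x) = Gam g (bd x) := by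
  induction x using CliffordAlgebra.left_induction with
  | algebraMap r =>
    have h1 : bd (algebraMap ℤ (Ext V) r) = 0 := by
      unfold bd
      exact CliffordAlgebra.contractLeft_algebraMap _ _ _
    have h2 : Gam g (algebraMap ℤ (Ext V) r) = algebraMap ℤ (Ext V) r := AlgHom.commutes _ _
    have h3 : (algebraMap ℤ (CliffordAlgebra (0 : QuadraticForm ℤ (V →₀ ℤ))) r) = algebraMap ℤ (Ext V) r := rfl
    rw [h3, h2, h1, map_zero]
  | add x y hx hy => rw [map_add, map_add, map_add, map_add, hx, hy]
  | ι_mul x m hx =>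
    have e1 : Gam g (CliffordAlgebra.ι (0 : QuadraticForm ℤ (V →₀ ℤ)) m * x) =
        CliffordAlgebra.ι (0 : QuadraticForm ℤ (V →₀ ℤ)) (Finsupp.lmapDomain ℤ ℤ g m) * Gam g x := by
      rw [map_mul]
      congr 1
      exact ExteriorAlgebra.map_apply_ι _ _
    have e2 : ∀ (m : V →₀ ℤ) (y : Ext V),
        bd (CliffordAlgebra.ι (0 : QuadraticForm ℤ (V →₀ ℤ)) m * y) =
        (Finsupp.linearCombination ℤ (fun _ : V => (1 : ℤ)) m) • y -
        CliffordAlgebra.ι (0 : QuadraticForm ℤ (V →₀ ℤ)) m * bd y := by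
      intro m y
      unfold bd
      exact CliffordAlgebra.contractLeft_ι_mul _ _ _
    rw [e1, e2, e2, hx, map_sub, map_smul]
    congr 1
    · congr 1
      rw [Finsupp.lmapDomain_apply, Finsupp.linearCombination_mapDomain]
      rfl
    · rw [map_mul]
      congr 1
      exact (ExteriorAlgebra.map_apply_ι _ _).symm

end maps

section proj
variable {α : Type} [DecidableEq α]

/-- projection killing the vertices (finite sets) which contain `x` -/
noncomputable def Pr (x : α) : Ext (Finset α) →ₐ[ℤ] Ext (Finset α) :=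
  ExteriorAlgebra.map (Finsupp.linearCombination ℤ
    (fun e : Finset α => if x ∈ e then (0 : Finset α →₀ ℤ) else Finsupp.single e 1))

lemma Pr_gen_mem {x : α} {e : Finset α} (h : x ∈ e) : Pr x (gen e) = 0 := by
  simp [Pr, gen, h]

lemma Pr_gen_not {x : α} {e : Finset α} (h : x ∉ e) : Pr x (gen e) = gen e := by
  simp [Pr, gen, h]

lemma Pr_simplex_not {x : α} {l : List (Finset α)} (h : ∀ e ∈ l, x ∉ e) :
    Pr x (simplex l) = simplex l := by
  induction l with
  | nil => simp
  | cons e l ih =>
    simp only [List.mem_cons, forall_eq_or_imp] at h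
    rw [simplex_cons, map_mul, ih h.2, Pr_gen_not h.1]

lemma Pr_simplex_mem {x : α} {l : List (Finset α)} (h : ∃ e ∈ l, x ∈ e) :
    Pr x (simplex l) = 0 := by
  induction l with
  | nil => simp at h
  | cons e l ih =>
    simp only [List.mem_cons, exists_eq_or_imp] at h
    rw [simplex_cons, map_mul]
    rcases h with h | h
    · rw [Pr_gen_mem h, zero_mul]
    · rw [ih h, mul_zero]

/-- action of a transposition on finite sets -/
def sw (x v : α) (e : Finset α) : Finset α := e.map (Equiv.swap x v).toEmbedding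

lemma mem_sw {x v y : α} {e : Finset α} : y ∈ sw x v e ↔ Equiv.swap x v y ∈ e := by
  unfold sw
  rw [Finset.mem_map_equiv, Equiv.symm_swap]

lemma sw_of_not {x v : α} {e : Finset α} (hx : x ∉ e) (hv : v ∉ e) : sw x v e = e := by
  ext y
  rw [mem_sw]
  by_cases h1 : y = x
  · subst h1; rw [Equiv.swap_apply_left]; tauto
  by_cases h2 : y = v
  · subst h2; rw [Equiv.swap_apply_right]; tauto
  rw [Equiv.swap_apply_of_ne_of_ne h1 h2]

lemma sw_pair {x v q : α} (hqx : q ≠ x) (hqv : q ≠ v) : sw x v {x, q} = {v, q} := by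
  unfold sw
  rw [Finset.map_insert, Finset.map_singleton]
  simp [Equiv.swap_apply_of_ne_of_ne hqx hqv]

lemma card_sw (x v : α) (e : Finset α) : (sw x v e).card = e.card := Finset.card_map _

lemma sw_sw (x v : α) (e : Finset α) : sw x v (sw v x e) = e := by
  ext y
  rw [mem_sw, mem_sw, Equiv.swap_comm v x, Equiv.swap_apply_self]

lemma Gam_simplex_fix {x v : α} {l : List (Finset α)} (h : ∀ e ∈ l, x ∉ e ∧ v ∉ e) :
    Gam (sw x v) (simplex l) = simplex l := by
  rw [Gam_simplex]
  congr 1
  conv_rhs => rw [← List.map_id l]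
  apply List.map_congr_left
  intro e he
  exact sw_of_not (h e he).1 (h e he).2

/-- `T v x = P_x + {x,v} ∧ (P_x ∂ - ∂ P_x)`. -/
noncomputable def T (v x : α) (y : Ext (Finset α)) : Ext (Finset α) :=
  Pr x y + gen {x, v} * (Pr x (bd y) - bd (Pr x y))

lemma T_formula (v x : α) (y : Ext (Finset α)) :
    bd (gen {x, v} * Pr x y) + gen {x, v} * Pr x (bd y) = T v x y := by
  rw [bd_gen_mul, T, mul_sub]
  abel

lemma T_mem {v x : α} {e : Finset α} {l : List (Finset α)} (hx : x ∈ e) (hl : ∀ f ∈ l, x ∉ f) :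
    T v x (simplex (e :: l)) = gen {x, v} * simplex l := by
  rw [simplex_cons, T, map_mul, Pr_gen_mem hx, zero_mul, bd_gen_mul, map_sub, map_mul,
    Pr_gen_mem hx, zero_mul, sub_zero, Pr_simplex_not hl, map_zero, sub_zero, zero_add]

lemma T_lemma (v : α) : ∀ (l : List (Finset α)) (X : Finset α), v ∉ X →
    (∀ e ∈ l, e.card = 2 ∧ e ⊆ X) → l.Pairwise Disjoint →
    ∑ x ∈ X, T v x (simplex l) = ∑ x ∈ X, Gam (sw x v) (simplex l) := by
  intro l
  induction l with
  | nil =>
    intro X _ _ _
    refine Finset.sum_congr rfl (fun x _ => ?_)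
    simp [T]
  | cons e l ih =>
    intro X hv he hd
    rw [List.pairwise_cons] at hd
    simp only [List.mem_cons, forall_eq_or_imp] at he
    obtain ⟨⟨hc, hs⟩, he⟩ := he
    obtain ⟨p, q, hpq, rfl⟩ := Finset.card_eq_two.1 hc
    have hpX : p ∈ X := hs (by simp)
    have hqX : q ∈ X := hs (by simp)
    have hvp : v ≠ p := fun h => hv (h ▸ hpX)
    have hvq : v ≠ q := fun h => hv (h ▸ hqX)
    have hpl : ∀ f ∈ l, p ∉ f := fun f hf h =>
      Finset.disjoint_left.1 (hd.1 f hf) (by simp) h
    have hql : ∀ f ∈ l, q ∉ f := fun f hf h =>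
      Finset.disjoint_left.1 (hd.1 f hf) (by simp) h
    have hvl : ∀ f ∈ l, v ∉ f := fun f hf h => hv ((he f hf).2 h)
    rw [← Finset.sum_sdiff hs, ← Finset.sum_sdiff hs]
    have hrest : ∑ x ∈ X \ {p, q}, T v x (simplex ({p, q} :: l)) =
        ∑ x ∈ X \ {p, q}, Gam (sw x v) (simplex ({p, q} :: l)) := by
      have h1 : ∀ x ∈ X \ {p, q}, T v x (simplex ({p, q} :: l)) =
          gen {p, q} * T v x (simplex l) := by
        intro x hx
        rw [Finset.mem_sdiff] at hx
        have hxe : x ∉ ({p, q} : Finset α) := hx.2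
        rw [simplex_cons, T, map_mul, Pr_gen_not hxe, bd_gen_mul, map_sub, map_mul,
          Pr_gen_not hxe, bd_gen_mul, T, mul_add]
        congr 1
        have e1 : Pr x (simplex l) - gen {p, q} * Pr x (bd (simplex l)) -
            (Pr x (simplex l) - gen {p, q} * bd (Pr x (simplex l))) =
            gen {p, q} * (bd (Pr x (simplex l)) - Pr x (bd (simplex l))) := by
          rw [mul_sub]; abel
        rw [e1, ← mul_assoc, ← mul_assoc, gen_swap ({x, v} : Finset α) ({p, q} : Finset α), neg_mul, mul_sub, mul_sub]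
        abel
      have h2 : ∀ x ∈ X \ {p, q}, Gam (sw x v) (simplex ({p, q} :: l)) =
          gen {p, q} * Gam (sw x v) (simplex l) := by
        intro x hx
        rw [Finset.mem_sdiff] at hx
        have hxe : x ∉ ({p, q} : Finset α) := hx.2
        have hve : v ∉ ({p, q} : Finset α) := by simp [hvp, hvq]
        rw [simplex_cons, map_mul, Gam_gen, sw_of_not hxe hve]
      rw [Finset.sum_congr rfl h1, Finset.sum_congr rfl h2, ← Finset.mul_sum, ← Finset.mul_sum]
      congr 1
      apply ih
      · intro h; exact hv (Finset.mem_sdiff.1 h).1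
      · intro f hf
        refine ⟨(he f hf).1, fun y hy => Finset.mem_sdiff.2 ⟨(he f hf).2 hy, fun hy' => ?_⟩⟩
        exact Finset.disjoint_left.1 (hd.1 f hf) hy' hy
      · exact hd.2
    rw [hrest]
    congr 1
    rw [Finset.sum_pair hpq, Finset.sum_pair hpq, T_mem (by simp) hpl, T_mem (by simp) hql,
      simplex_cons, map_mul, map_mul, Gam_gen, Gam_gen, sw_pair hpq.symm hvq.symm,
      show ({p, q} : Finset α) = {q, p} from Finset.pair_comm p q, sw_pair hpq hvp.symm,
      Gam_simplex_fix (fun f hf => ⟨hpl f hf, hvl f hf⟩),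
      Gam_simplex_fix (fun f hf => ⟨hql f hf, hvl f hf⟩), add_comm,
      Finset.pair_comm q v, Finset.pair_comm p v]

end proj

end Pool.Agent.H742R3.Mat
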