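import Mathlib
import Pool.Agent.H742R3.Mat1

set_option autoImplicit false

namespace Pool.Agent.H742R3.Mat

variable {α : Type} [DecidableEq α]

/-- list of pairwise disjoint edges inside `V` -/
def ML (V : Finset α) (l : List (Finset α)) : Prop :=
  (∀ e ∈ l, e.card = 2 ∧ e ⊆ V) ∧ l.Pairwise Disjoint

lemma ML_cons {V : Finset α} {e : Finset α} {l : List (Finset α)} :
    ML V (e :: l) ↔ (e.card = 2 ∧ e ⊆ V) ∧ (∀ f ∈ l, Disjoint e f) ∧ ML V l := by
  unfold ML
  rw [List.pairwise_cons]
  simp only [List.mem_cons, forall_eq_or_imp]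
  tauto

lemma ML.nodup {V : Finset α} {l : List (Finset α)} (h : ML V l) : l.Nodup := by
  induction l with
  | nil => simp
  | cons e l ih =>
    rw [ML_cons] at h
    rw [List.nodup_cons]
    refine ⟨fun he => ?_, ih h.2.2⟩
    have h1 := h.2.1 e he
    rw [disjoint_self] at h1
    rw [h1] at h
    simp at h

/-- submodule spanned by the simplices given by lists with a property -/
noncomputable def spn (P : List (Finset α) → Prop) : Submodule ℤ (Ext (Finset α)) :=
  Submodule.span ℤ {m | ∃ l, P l ∧ m = simplex l}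

lemma mem_spn {P : List (Finset α) → Prop} {l : List (Finset α)} (h : P l) :
    simplex l ∈ spn P := Submodule.subset_span ⟨l, h, rfl⟩

lemma spn_induction {P : List (Finset α) → Prop} (f : Ext (Finset α) →ₗ[ℤ] Ext (Finset α))
    (S : Submodule ℤ (Ext (Finset α))) (h : ∀ l, P l → f (simplex l) ∈ S)
    {z : Ext (Finset α)} (hz : z ∈ spn P) : f z ∈ S := by
  have : spn P ≤ S.comap f := by
    unfold spn
    rw [Submodule.span_le]
    rintro _ ⟨l, hl, rfl⟩
    exact h l hl
  exact this hz

lemma spn_eq {P : List (Finset α) → Prop} (f g : Ext (Finset α) →ₗ[ℤ] Ext (Finset α))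
    (h : ∀ l, P l → f (simplex l) = g (simplex l))
    {z : Ext (Finset α)} (hz : z ∈ spn P) : f z = g z := by
  have : spn P ≤ LinearMap.eqLocus f g := by
    unfold spn
    rw [Submodule.span_le]
    rintro _ ⟨l, hl, rfl⟩
    exact h l hl
  exact this hz

/-! ### the homotopy -/

variable [Fintype α]

/-- `W z = ∑_{x ≠ a, v} {x,v} ∧ P_x (v b) z - ∑_{x ≠ a, b, v} {x,a} ∧ (x v) (v b) z` -/
noncomputable def W (a b v : α) : Ext (Finset α) →ₗ[ℤ] Ext (Finset α) :=
  (∑ x ∈ (Finset.univ \ {a, v} : Finset α),
    LinearMap.mulLeft ℤ (gen {x, v}) ∘ₗ (Pr x).toLinearMap ∘ₗ (Gam (sw v b)).toLinearMap) -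
  ∑ x ∈ (Finset.univ \ {a, b, v} : Finset α),
    LinearMap.mulLeft ℤ (gen {x, a}) ∘ₗ (Gam (sw x v)).toLinearMap ∘ₗ (Gam (sw v b)).toLinearMap

lemma W_apply (a b v : α) (z : Ext (Finset α)) : W a b v z =
    (∑ x ∈ (Finset.univ \ {a, v} : Finset α), gen {x, v} * Pr x (Gam (sw v b) z)) -
    ∑ x ∈ (Finset.univ \ {a, b, v} : Finset α), gen {x, a} * Gam (sw x v) (Gam (sw v b) z) := by
  simp [W, LinearMap.sum_apply]

lemma not_mem_sw_of_subset {a b v : α} (hab : a ≠ b) (hva : v ≠ a) (hvb : v ≠ b) {e : Finset α}
    (h : e ⊆ Finset.univ \ {a, b}) : sw v b e ⊆ Finset.univ \ {a, v} := by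
  intro y hy
  rw [mem_sw] at hy
  have h1 := h hy
  simp only [Finset.mem_sdiff, Finset.mem_univ, Finset.mem_insert, Finset.mem_singleton, true_and,
    not_or] at h1 ⊢
  refine ⟨?_, ?_⟩
  · rintro rfl
    rw [Equiv.swap_apply_of_ne_of_ne hva.symm hab] at h1
    exact h1.1 rfl
  · rintro rfl
    rw [Equiv.swap_apply_left] at h1
    exact h1.2 rfl

lemma not_mem_sw_of_subset' {a x v : α} (hva : v ≠ a) (hxa : x ≠ a) {e : Finset α}
    (h : e ⊆ Finset.univ \ {a, v}) : sw x v e ⊆ Finset.univ \ {a, x} := by
  intro y hy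
  rw [mem_sw] at hy
  have h1 := h hy
  simp only [Finset.mem_sdiff, Finset.mem_univ, Finset.mem_insert, Finset.mem_singleton, true_and,
    not_or] at h1 ⊢
  refine ⟨?_, ?_⟩
  · rintro rfl
    rw [Equiv.swap_apply_of_ne_of_ne hxa.symm hva.symm] at h1
    exact h1.1 rfl
  · rintro rfl
    rw [Equiv.swap_apply_left] at h1
    exact h1.2 rfl

omit [Fintype α] in
lemma ML_map_sw {V V' : Finset α} {x v : α} {l : List (Finset α)} (h : ML V l)
    (hV : ∀ e, e ⊆ V → sw x v e ⊆ V') : ML V' (l.map (sw x v)) := by
  refine ⟨?_, ?_⟩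
  · intro e he
    rw [List.mem_map] at he
    obtain ⟨f, hf, rfl⟩ := he
    exact ⟨by rw [card_sw]; exact (h.1 f hf).1, hV f (h.1 f hf).2⟩
  · rw [List.pairwise_map]
    refine h.2.imp ?_
    intro e f hef
    exact (Finset.disjoint_map _).2 hef

/-- the homotopy identity on the chains of the link -/
lemma homotopy {a b v : α} (hab : a ≠ b) (hva : v ≠ a) (hvb : v ≠ b) {l : List (Finset α)}
    (h : ML (Finset.univ \ {a, b}) l) :
    bd (W a b v (simplex l)) + W a b v (bd (simplex l)) = simplex l := by
  have hl' : ML (Finset.univ \ {a, v}) (l.map (sw v b)) :=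
    ML_map_sw h (fun e he => not_mem_sw_of_subset hab hva hvb he)
  have key := T_lemma v (l.map (sw v b)) (Finset.univ \ {a, v}) (by simp) hl'.1 hl'.2
  have hX : (Finset.univ \ {a, v} : Finset α) = insert b (Finset.univ \ {a, b, v}) := by
    ext y
    simp only [Finset.mem_sdiff, Finset.mem_univ, Finset.mem_insert, Finset.mem_singleton, true_and,
      not_or]
    constructor
    · intro hy
      by_cases hyb : y = b
      · exact Or.inl hyb
      · exact Or.inr ⟨hy.1, hyb, hy.2⟩
    · rintro (rfl | hy)
      · exact ⟨hab.symm, hvb.symm⟩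
      · exact ⟨hy.1, hy.2.2⟩
  have hb : b ∉ (Finset.univ \ {a, b, v} : Finset α) := by simp
  rw [W_apply, W_apply, ← bd_Gam, Gam_simplex, map_sub, map_sum, map_sum]
  have e1 : ∀ x, bd (gen {x, v} * Pr x (simplex (l.map (sw v b)))) +
      gen {x, v} * Pr x (bd (simplex (l.map (sw v b)))) = T v x (simplex (l.map (sw v b))) :=
    fun x => T_formula v x _
  have e2 : ∀ x, bd (gen {x, a} * Gam (sw x v) (simplex (l.map (sw v b)))) +
      gen {x, a} * Gam (sw x v) (bd (simplex (l.map (sw v b)))) =
      Gam (sw x v) (simplex (l.map (sw v b))) := by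
    intro x
    rw [bd_gen_mul, bd_Gam]
    abel
  calc _ = (∑ x ∈ (Finset.univ \ {a, v} : Finset α), T v x (simplex (l.map (sw v b)))) -
      ∑ x ∈ (Finset.univ \ {a, b, v} : Finset α), Gam (sw x v) (simplex (l.map (sw v b))) := by
        rw [← Finset.sum_congr rfl (fun x _ => e1 x), ← Finset.sum_congr rfl (fun x _ => e2 x),
          Finset.sum_add_distrib, Finset.sum_add_distrib]
        abel
    _ = simplex l := by
        rw [key, hX, Finset.sum_insert hb, add_sub_cancel_right, Gam_simplex, List.map_map]
        congr 1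
        conv_rhs => rw [← List.map_id l]
        apply List.map_congr_left
        intro e _
        simp [sw_sw]

/-- the homotopy maps chains of the link to chains of the deletion -/
lemma W_mem {a b v : α} (hab : a ≠ b) (hva : v ≠ a) (hvb : v ≠ b) {l : List (Finset α)} {k : ℕ}
    (h : ML (Finset.univ \ {a, b}) l) (hk : l.length = k) :
    W a b v (simplex l) ∈
      spn (fun l' => ML Finset.univ l' ∧ ({a, b} : Finset α) ∉ l' ∧ l'.length = k + 1) := by
  have hl' : ML (Finset.univ \ {a, v}) (l.map (sw v b)) :=
    ML_map_sw h (fun e he => not_mem_sw_of_subset hab hva hvb he)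
  rw [W_apply, Gam_simplex]
  refine Submodule.sub_mem _ (Submodule.sum_mem _ ?_) (Submodule.sum_mem _ ?_)
  · intro x hx
    simp only [Finset.mem_sdiff, Finset.mem_univ, Finset.mem_insert, Finset.mem_singleton, true_and,
      not_or] at hx
    by_cases hc : ∃ e ∈ l.map (sw v b), x ∈ e
    · rw [Pr_simplex_mem hc, mul_zero]
      exact Submodule.zero_mem _
    · push_neg at hc
      rw [Pr_simplex_not hc, ← simplex_cons]
      apply mem_spn
      refine ⟨?_, ?_, by simp [hk]⟩
      · rw [ML_cons]
        refine ⟨⟨Finset.card_pair hx.2, Finset.subset_univ _⟩, ?_, ?_⟩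
        · intro f hf
          rw [Finset.disjoint_left]
          intro y hy hyf
          simp only [Finset.mem_insert, Finset.mem_singleton] at hy
          rcases hy with rfl | rfl
          · exact hc f hf hyf
          · have := (hl'.1 f hf).2 hyf
            simp at this
        · exact ⟨fun e he => ⟨(hl'.1 e he).1, Finset.subset_univ _⟩, hl'.2⟩
      · intro hmem
        rw [List.mem_cons] at hmem
        rcases hmem with hmem | hmem
        · have : a ∈ ({x, v} : Finset α) := hmem ▸ (by simp)
          simp only [Finset.mem_insert, Finset.mem_singleton] at this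
          rcases this with h1 | h1
          · exact hx.1 h1.symm
          · exact hva h1.symm
        · have := (hl'.1 _ hmem).2 (show a ∈ ({a, b} : Finset α) by simp)
          simp at this
  · intro x hx
    simp only [Finset.mem_sdiff, Finset.mem_univ, Finset.mem_insert, Finset.mem_singleton, true_and,
      not_or] at hx
    have hl'' : ML (Finset.univ \ {a, x}) ((l.map (sw v b)).map (sw x v)) :=
      ML_map_sw hl' (fun e he => not_mem_sw_of_subset' hva hx.1 he)
    rw [Gam_simplex, ← simplex_cons]
    apply mem_spn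
    refine ⟨?_, ?_, by simp [hk]⟩
    · rw [ML_cons]
      refine ⟨⟨Finset.card_pair hx.1, Finset.subset_univ _⟩, ?_, ?_⟩
      · intro f hf
        rw [Finset.disjoint_left]
        intro y hy hyf
        have := (hl''.1 f hf).2 hyf
        simp only [Finset.mem_insert, Finset.mem_singleton] at hy
        rcases hy with rfl | rfl
        · simp at this
        · simp at this
      · exact ⟨fun e he => ⟨(hl''.1 e he).1, Finset.subset_univ _⟩, hl''.2⟩
    · intro hmem
      rw [List.mem_cons] at hmem
      rcases hmem with hmem | hmem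
      · have : b ∈ ({x, a} : Finset α) := hmem ▸ (by simp)
        simp only [Finset.mem_insert, Finset.mem_singleton] at this
        rcases this with h1 | h1
        · exact hx.2.1 h1.symm
        · exact hab h1.symm
      · have := (hl''.1 _ hmem).2 (show a ∈ ({a, b} : Finset α) by simp)
        simp at this

/-! ### contraction with the edge -/

omit [Fintype α] in
lemma co_simplex_not {e : Finset α} {l : List (Finset α)} (h : e ∉ l) : co e (simplex l) = 0 := by
  induction l with
  | nil => simp
  | cons f l ih =>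
    rw [List.mem_cons, not_or] at h
    rw [simplex_cons, co_gen_mul, if_neg (Ne.symm h.1), ih h.2, mul_zero, sub_zero]

omit [Fintype α] in
lemma co_simplex_mem {e : Finset α} {l : List (Finset α)} (hn : l.Nodup) (h : e ∈ l) :
    ∃ s : ℤ, co e (simplex l) = s • simplex (l.erase e) := by
  induction l with
  | nil => simp at h
  | cons f l ih =>
    rw [List.nodup_cons] at hn
    by_cases hf : f = e
    · subst hf
      refine ⟨1, ?_⟩
      rw [simplex_cons, co_gen_mul, if_pos rfl, co_simplex_not hn.1, mul_zero, sub_zero, one_smul]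
      simp
    · have he : e ∈ l := by
        rcases List.mem_cons.1 h with h | h
        · exact absurd h.symm hf
        · exact h
      obtain ⟨s, hs⟩ := ih hn.2 he
      refine ⟨-s, ?_⟩
      rw [simplex_cons, co_gen_mul, if_neg hf, hs, List.erase_cons_tail (by simpa using hf),
        simplex_cons, mul_smul_comm]
      simp

omit [Fintype α] in
lemma gen_co_simplex {e : Finset α} {l : List (Finset α)} (hn : l.Nodup) (h : e ∈ l) :
    gen e * co e (simplex l) = simplex l := by
  induction l with
  | nil => simp at h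
  | cons f l ih =>
    rw [List.nodup_cons] at hn
    by_cases hf : f = e
    · subst hf
      rw [simplex_cons, co_gen_mul, if_pos rfl, co_simplex_not hn.1, mul_zero, sub_zero]
    · have he : e ∈ l := by
        rcases List.mem_cons.1 h with h | h
        · exact absurd h.symm hf
        · exact h
      rw [simplex_cons, co_gen_mul, if_neg hf, zero_sub, mul_neg, ← mul_assoc, gen_swap e f,
        neg_mul, neg_neg, mul_assoc, ih hn.2 he]

end Pool.Agent.H742R3.Mat
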