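import Mathlib
import Pool.Agent.H742R3.Mat1

set_option autoImplicit false

namespace Pool.Agent.H742R3.Mat

/-- finitely supported integer functions on the finite sets of vertices -/
abbrev Ch (V : Type) : Type := Finset V →₀ ℤ

section
variable {V : Type} [LinearOrder V]

/-- the number of elements of `σ` which are smaller than `v` -/
def pos (v : V) (σ : Finset V) : ℕ := (σ.filter (· < v)).card

/-- The simplicial boundary `σ ↦ ∑ v ∈ σ, (-1)^(position of v in σ) (σ \ {v})`. -/
noncomputable def bdry : Ch V →ₗ[ℤ] Ch V :=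
  Finsupp.linearCombination ℤ (fun σ : Finset V =>
    ∑ v ∈ σ, (-1 : ℤ) ^ pos v σ • Finsupp.single (σ.erase v) (1 : ℤ))

/-- For a vertex `e`: `σ ↦ (-1)^(position of e in σ) (σ \ {e})` if `e ∈ σ`, and `σ ↦ 0` if
`e ∉ σ`. -/
noncomputable def contr (e : V) : Ch V →ₗ[ℤ] Ch V :=
  Finsupp.linearCombination ℤ (fun σ : Finset V =>
    if e ∈ σ then (-1 : ℤ) ^ pos e σ • Finsupp.single (σ.erase e) (1 : ℤ) else 0)

/-- The group of `d`-dimensional simplicial chains (ordered orientation): the free abelian group on
the faces with `d + 1` vertices. -/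
noncomputable def chains (K : Set (Finset V)) (d : ℤ) : Submodule ℤ (Ch V) :=
  Finsupp.supported ℤ ℤ {σ : Finset V | σ ∈ K ∧ (σ.card : ℤ) = d + 1}

/-- identification with the exterior algebra -/
noncomputable def toExt : Ch V ≃ₗ[ℤ] Ext V :=
  ((Finsupp.basisSingleOne : Module.Basis V ℤ (V →₀ ℤ)).ExteriorAlgebra).repr.symm

lemma toExt_single (σ : Finset V) :
    toExt (Finsupp.single σ (1 : ℤ)) = simplex (σ.sort (· ≤ ·)) := by
  unfold toExt
  rw [Module.Basis.repr_symm_single_one, ExteriorAlgebra.basis_apply_ofCard _ rfl]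
  unfold ExteriorAlgebra.ιMulti_family
  rw [ExteriorAlgebra.ιMulti_apply, simplex]
  congr 1
  apply List.ext_getElem
  · simp
  · intro i h1 h2
    simp only [List.getElem_ofFn, List.getElem_map, gen, Function.comp_apply,
      Set.powersetCard.ofFinEmbEquiv_symm_apply, Finsupp.coe_basisSingleOne]
    congr 2

lemma sort_insert_min {a : V} {s : Finset V} (h : ∀ x ∈ s, a < x) :
    (insert a s).sort (· ≤ ·) = a :: s.sort (· ≤ ·) :=
  Finset.sort_insert _ (fun b hb => (h b hb).le) (fun ha => lt_irrefl _ (h a ha))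

lemma gen_mul_toExt {a : V} {s : Finset V} (h : ∀ x ∈ s, a < x) :
    gen a * toExt (Finsupp.single s (1 : ℤ)) = toExt (Finsupp.single (insert a s) (1 : ℤ)) := by
  rw [toExt_single, toExt_single, sort_insert_min h, simplex_cons]

lemma pos_insert_min {a v : V} {s : Finset V} (h : ∀ x ∈ s, a < x) (hv : v ∈ s) :
    pos v (insert a s) = pos v s + 1 := by
  unfold pos
  rw [Finset.filter_insert, if_pos (h v hv), Finset.card_insert_of_notMem]
  intro ha
  exact lt_irrefl _ (h a (Finset.mem_filter.1 ha).1)

lemma pos_self_min {a : V} {s : Finset V} (h : ∀ x ∈ s, a < x) :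
    pos a (insert a s) = 0 := by
  unfold pos
  rw [Finset.card_eq_zero, Finset.filter_eq_empty_iff]
  intro x hx
  rw [Finset.mem_insert] at hx
  rcases hx with rfl | hx
  · exact lt_irrefl _
  · exact (h x hx).not_gt

lemma bdry_single (σ : Finset V) : bdry (Finsupp.single σ (1 : ℤ)) =
    ∑ v ∈ σ, (-1 : ℤ) ^ pos v σ • Finsupp.single (σ.erase v) (1 : ℤ) := by
  simp [bdry]

lemma contr_single (e : V) (σ : Finset V) : contr e (Finsupp.single σ (1 : ℤ)) =
    if e ∈ σ then (-1 : ℤ) ^ pos e σ • Finsupp.single (σ.erase e) (1 : ℤ) else 0 := by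
  unfold contr
  rw [Finsupp.linearCombination_single, one_smul]

lemma toExt_bdry_single (σ : Finset V) :
    toExt (bdry (Finsupp.single σ (1 : ℤ))) = bd (toExt (Finsupp.single σ (1 : ℤ))) := by
  induction σ using Finset.induction_on_min with
  | empty => rw [toExt_single]; simp [bdry_single]
  | insert a s h ih =>
    have ha : a ∉ s := fun ha => lt_irrefl _ (h a ha)
    rw [← gen_mul_toExt h, bd_gen_mul, ← ih, bdry_single, bdry_single, Finset.sum_insert ha,
      pos_self_min h, Finset.erase_insert ha, pow_zero, one_smul, map_add, map_sum, map_sum,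
      Finset.mul_sum, sub_eq_add_neg, ← Finset.sum_neg_distrib]
    congr 1
    refine Finset.sum_congr rfl (fun v hv => ?_)
    have hav : a ≠ v := fun hav => ha (hav ▸ hv)
    have h' : ∀ x ∈ s.erase v, a < x := fun x hx => h x (Finset.mem_of_mem_erase hx)
    rw [pos_insert_min h hv, map_smul, map_smul, mul_smul_comm, gen_mul_toExt h',
      Finset.erase_insert_of_ne hav, pow_succ, mul_neg_one, neg_smul]

lemma toExt_contr_single (e : V) (σ : Finset V) :
    toExt (contr e (Finsupp.single σ (1 : ℤ))) = co e (toExt (Finsupp.single σ (1 : ℤ))) := by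
  induction σ using Finset.induction_on_min with
  | empty => rw [toExt_single]; simp [contr_single]
  | insert a s h ih =>
    have ha : a ∉ s := fun ha => lt_irrefl _ (h a ha)
    rw [← gen_mul_toExt h, co_gen_mul, ← ih, contr_single, contr_single]
    by_cases hae : a = e
    · subst hae
      rw [if_pos (Finset.mem_insert_self _ _), if_neg ha, if_pos rfl, pos_self_min h,
        Finset.erase_insert ha]
      simp
    · rw [if_neg hae]
      by_cases hes : e ∈ s
      · have h' : ∀ x ∈ s.erase e, a < x := fun x hx => h x (Finset.mem_of_mem_erase hx)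
        rw [if_pos (Finset.mem_insert_of_mem hes), if_pos hes, pos_insert_min h hes, map_smul,
          map_smul, mul_smul_comm, gen_mul_toExt h', Finset.erase_insert_of_ne hae, pow_succ,
          mul_neg_one, neg_smul, zero_sub]
      · rw [if_neg hes, if_neg]
        · simp
        · rw [Finset.mem_insert, not_or]
          exact ⟨fun h => hae h.symm, hes⟩

lemma toExt_bdry (x : Ch V) : toExt (bdry x) = bd (toExt x) := by
  have : (toExt (V := V)).toLinearMap ∘ₗ bdry = bd ∘ₗ (toExt (V := V)).toLinearMap := by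
    apply Finsupp.lhom_ext'
    intro σ
    apply LinearMap.ext_ring
    exact toExt_bdry_single σ
  exact LinearMap.congr_fun this x

lemma toExt_contr (e : V) (x : Ch V) : toExt (contr e x) = co e (toExt x) := by
  have : (toExt (V := V)).toLinearMap ∘ₗ contr e = co e ∘ₗ (toExt (V := V)).toLinearMap := by
    apply Finsupp.lhom_ext'
    intro σ
    apply LinearMap.ext_ring
    exact toExt_contr_single e σ
  exact LinearMap.congr_fun this x

omit [LinearOrder V] in
lemma simplex_perm {l l' : List V} (h : l.Perm l') :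
    ∃ s : ℤ, simplex l = s • simplex l' := by
  induction h with
  | nil => exact ⟨1, by simp⟩
  | cons a _ ih =>
    obtain ⟨s, hs⟩ := ih
    exact ⟨s, by rw [simplex_cons, simplex_cons, hs, mul_smul_comm]⟩
  | swap a b l =>
    refine ⟨-1, ?_⟩
    rw [simplex_cons, simplex_cons, simplex_cons, simplex_cons, ← mul_assoc, ← mul_assoc,
      gen_swap b a]
    simp
  | trans _ _ ih1 ih2 =>
    obtain ⟨s, hs⟩ := ih1
    obtain ⟨t, ht⟩ := ih2
    exact ⟨s * t, by rw [hs, ht, mul_smul]⟩

/-- chains inside the exterior algebra -/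
noncomputable def chE (K : Set (Finset V)) (d : ℤ) : Submodule ℤ (Ext V) :=
  Submodule.span ℤ {m | ∃ l : List V, (l.Nodup ∧ l.toFinset ∈ K ∧ (l.length : ℤ) = d + 1) ∧
    m = simplex l}

lemma mem_chains_iff (K : Set (Finset V)) (d : ℤ) (z : Ch V) :
    z ∈ chains K d ↔ toExt z ∈ chE K d := by
  have hle : (chains K d).map (toExt (V := V)).toLinearMap ≤ chE K d := by
    unfold chains
    rw [Finsupp.supported_eq_span_single, Submodule.map_span, Submodule.span_le]
    rintro _ ⟨_, ⟨σ, hσ, rfl⟩, rfl⟩
    refine Submodule.subset_span ⟨σ.sort (· ≤ ·), ⟨Finset.sort_nodup _ _, ?_, ?_⟩, ?_⟩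
    · rw [Finset.sort_toFinset]; exact hσ.1
    · rw [Finset.length_sort]; exact hσ.2
    · exact toExt_single σ
  have hge : chE K d ≤ (chains K d).map (toExt (V := V)).toLinearMap := by
    unfold chE
    rw [Submodule.span_le]
    rintro _ ⟨l, ⟨hn, hK, hd⟩, rfl⟩
    have hp : l.Perm (l.toFinset.sort (· ≤ ·)) := by
      rw [List.perm_ext_iff_of_nodup hn (Finset.sort_nodup _ _)]
      intro a
      simp
    obtain ⟨s, hs⟩ := simplex_perm hp
    refine ⟨s • Finsupp.single l.toFinset (1 : ℤ), ?_, ?_⟩
    · apply Submodule.smul_mem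
      apply Finsupp.single_mem_supported
      refine ⟨hK, ?_⟩
      rw [List.toFinset_card_of_nodup hn]
      exact hd
    · show toExt (s • Finsupp.single l.toFinset (1 : ℤ)) = simplex l
      rw [map_smul, toExt_single, hs]
  constructor
  · intro hz
    exact hle ⟨z, hz, rfl⟩
  · intro hz
    obtain ⟨y, hy, hyz⟩ := hge hz
    have : y = z := (toExt (V := V)).injective hyz
    rw [← this]; exact hy

end

end Pool.Agent.H742R3.Mat
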