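import Mathlib
import Pool.Agent.H742R3.Mat2
import Pool.Agent.H742R3.Mat3

set_option autoImplicit false

namespace Pool.Agent.H742R3.Mat

section general
variable {V : Type} [LinearOrder V]

/-- `d`-dimensional cycles of a simplicial complex (given by its set of faces) -/
noncomputable def cycles (K : Set (Finset V)) (d : ℤ) : Submodule ℤ (Ch V) :=
  chains K d ⊓ LinearMap.ker bdry

/-- `d`-dimensional boundaries -/
noncomputable def boundaries (K : Set (Finset V)) (d : ℤ) : Submodule ℤ (Ch V) :=
  (chains K (d + 1)).map bdry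

/-- reduced simplicial homology with integer coefficients -/
abbrev Homology (K : Set (Finset V)) (d : ℤ) : Type :=
  cycles K d ⧸ (boundaries K d).submoduleOf (cycles K d)

lemma chains_mono {K K' : Set (Finset V)} (h : K ⊆ K') (d : ℤ) : chains K d ≤ chains K' d :=
  Finsupp.supported_mono (fun _ hσ => ⟨h hσ.1, hσ.2⟩)

lemma cycles_mono {K K' : Set (Finset V)} (h : K ⊆ K') (d : ℤ) : cycles K d ≤ cycles K' d :=
  inf_le_inf_right _ (chains_mono h d)

lemma boundaries_mono {K K' : Set (Finset V)} (h : K ⊆ K') (d : ℤ) :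
    boundaries K d ≤ boundaries K' d := Submodule.map_mono (chains_mono h (d + 1))

/-- the map in homology induced by the inclusion of a subcomplex -/
noncomputable def inclMap {K K' : Set (Finset V)} (h : K ⊆ K') (d : ℤ) :
    Homology K d →ₗ[ℤ] Homology K' d :=
  Submodule.mapQ _ _ (Submodule.inclusion (cycles_mono h d)) (fun _ hx => boundaries_mono h d hx)

/-- the link of the vertex `e` -/
def link (K : Set (Finset V)) (e : V) : Set (Finset V) := {τ | e ∉ τ ∧ insert e τ ∈ K}

omit [LinearOrder V] in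
/-- the deletion of the vertex `e` -/
def deletion (K : Set (Finset V)) (e : V) : Set (Finset V) := {σ | σ ∈ K ∧ e ∉ σ}

omit [LinearOrder V] in
lemma deletion_subset (K : Set (Finset V)) (e : V) : deletion K e ⊆ K := fun _ h => h.1

lemma chains_le {K : Set (Finset V)} {d : ℤ} {S : Submodule ℤ (Ch V)}
    (h : ∀ σ ∈ K, (σ.card : ℤ) = d + 1 → Finsupp.single σ (1 : ℤ) ∈ S) : chains K d ≤ S := by
  unfold chains
  rw [Finsupp.supported_eq_span_single, Submodule.span_le]
  rintro _ ⟨σ, hσ, rfl⟩
  exact h σ hσ.1 hσ.2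

lemma contr_chains {K : Set (Finset V)} {e : V} {d d' : ℤ} (hd : d = d' + 1) {z : Ch V}
    (hz : z ∈ chains K d) : contr e z ∈ chains (link K e) d' := by
  have : chains K d ≤ (chains (link K e) d').comap (contr e) := by
    apply chains_le
    intro σ hσ hc
    rw [Submodule.mem_comap, contr_single]
    by_cases he : e ∈ σ
    · rw [if_pos he]
      apply Submodule.smul_mem
      apply Finsupp.single_mem_supported
      refine ⟨⟨Finset.notMem_erase _ _, ?_⟩, ?_⟩
      · rw [Finset.insert_erase he]; exact hσ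
      · rw [Finset.card_erase_of_mem he, Nat.cast_sub (Finset.card_pos.2 ⟨e, he⟩), hc, hd]
        push_cast
        ring
    · rw [if_neg he]; exact Submodule.zero_mem _
  exact this hz

lemma contr_deletion {K : Set (Finset V)} {e : V} {d : ℤ} {z : Ch V}
    (hz : z ∈ chains (deletion K e) d) : contr e z = 0 := by
  have : chains (deletion K e) d ≤ LinearMap.ker (contr e) := by
    apply chains_le
    intro σ hσ _
    rw [LinearMap.mem_ker, contr_single, if_neg hσ.2]
  exact this hz

lemma bdry_contr (e : V) (z : Ch V) : bdry (contr e z) = - contr e (bdry z) := by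
  apply (toExt (V := V)).injective
  rw [toExt_bdry, toExt_contr, map_neg, toExt_contr, toExt_bdry, bd_co]

lemma contr_cycles {K : Set (Finset V)} {e : V} {d : ℤ} :
    ∀ z ∈ cycles K d, contr e z ∈ cycles (link K e) (d - 1) := by
  intro z hz
  refine ⟨contr_chains (by ring) hz.1, ?_⟩
  show bdry (contr e z) = 0
  rw [bdry_contr, LinearMap.mem_ker.1 hz.2, map_zero, neg_zero]

lemma contr_boundaries {K : Set (Finset V)} {e : V} {d : ℤ} {z : Ch V}
    (hz : z ∈ boundaries K d) : contr e z ∈ boundaries (link K e) (d - 1) := by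
  obtain ⟨y, hy, rfl⟩ := hz
  refine ⟨- contr e y, Submodule.neg_mem _ (contr_chains (by ring) hy), ?_⟩
  rw [map_neg, bdry_contr, neg_neg]

/-- The map from the homology of `K` to the homology of the link of `e`:
the class of a cycle `e ∧ τ + w`, where `e` does not occur in `τ` and `w`, is sent to the class of
`τ`. It is the map to the relative homology of the pair (`K`, deletion of `e`), followed by the
identification `e ∧ τ ↦ τ`. -/
noncomputable def linkMap (K : Set (Finset V)) (e : V) (d : ℤ) :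
    Homology K d →ₗ[ℤ] Homology (link K e) (d - 1) :=
  Submodule.mapQ _ _ ((contr e).restrict contr_cycles) (fun _ hx => contr_boundaries hx)

lemma mem_link {K : Set (Finset V)} {e : V} {τ : Finset V} :
    τ ∈ link K e ↔ e ∉ τ ∧ ∃ σ ∈ K, ∀ f, f ∈ σ ↔ f = e ∨ f ∈ τ := by
  constructor
  · rintro ⟨h1, h2⟩
    exact ⟨h1, _, h2, fun f => Finset.mem_insert⟩
  · rintro ⟨h1, σ, h2, h3⟩
    refine ⟨h1, ?_⟩
    have : insert e τ = σ := by
      ext f
      rw [Finset.mem_insert, h3]
    rw [this]; exact h2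

/-- Abstract exactness: `Le` is multiplication by `e`, `W` a null homotopy. -/
theorem split_exact {K : Set (Finset V)} {e : V} (Le W : Ch V →ₗ[ℤ] Ch V)
    (hLA : link K e ⊆ deletion K e)
    (hLe : ∀ (d : ℤ), ∀ τ ∈ chains (link K e) d, Le τ ∈ chains K (d + 1))
    (hcoLe : ∀ (d : ℤ), ∀ τ ∈ chains (link K e) d, contr e (Le τ) = τ)
    (hdLe : ∀ τ, bdry (Le τ) = τ - Le (bdry τ))
    (hdec : ∀ (d : ℤ), ∀ z ∈ chains K d, z - Le (contr e z) ∈ chains (deletion K e) d)
    (hW : ∀ (d : ℤ), ∀ τ ∈ chains (link K e) d, W τ ∈ chains (deletion K e) (d + 1))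
    (hdW : ∀ (d : ℤ), ∀ τ ∈ chains (link K e) d, bdry (W τ) + W (bdry τ) = τ) (d : ℤ) :
    Function.Injective (inclMap (deletion_subset K e) d) ∧
    Function.Exact (inclMap (deletion_subset K e) d) (linkMap K e d) ∧
    Function.Surjective (linkMap K e d) ∧
    ∃ s : Homology (link K e) (d - 1) →ₗ[ℤ] Homology K d,
      linkMap K e d ∘ₗ s = LinearMap.id := by
  have hsec : ∃ s : Homology (link K e) (d - 1) →ₗ[ℤ] Homology K d,
      linkMap K e d ∘ₗ s = LinearMap.id := by
    have h1 : ∀ τ ∈ cycles (link K e) (d - 1), (Le - W) τ ∈ cycles K d := by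
      intro τ hτ
      have e1 := hLe _ τ hτ.1
      have e2 := chains_mono (deletion_subset K e) _ (hW _ τ hτ.1)
      rw [sub_add_cancel] at e1 e2
      refine ⟨Submodule.sub_mem _ e1 e2, ?_⟩
      have e3 := hdW _ τ hτ.1
      rw [LinearMap.mem_ker.1 hτ.2, map_zero, add_zero] at e3
      show bdry (Le τ - W τ) = 0
      rw [map_sub, hdLe, e3, LinearMap.mem_ker.1 hτ.2, map_zero, sub_zero, sub_self]
    have h2 : ∀ τ ∈ boundaries (link K e) (d - 1), (Le - W) τ ∈ boundaries K d := by
      rintro _ ⟨t, ht, rfl⟩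
      have e1 := hLe _ t ht
      have e2 := chains_mono (deletion_subset K e) _ (hW _ t ht)
      rw [sub_add_cancel] at e1 e2
      refine ⟨W t - Le t, Submodule.sub_mem _ e2 e1, ?_⟩
      have e3 := hdW _ t ht
      rw [map_sub, hdLe, LinearMap.sub_apply]
      have e4 : W (bdry t) = t - bdry (W t) := by
        rw [eq_sub_iff_add_eq, add_comm]; exact e3
      rw [e4]
      abel
    refine ⟨Submodule.mapQ _ _ ((Le - W).restrict h1) (fun x hx => h2 _ hx), ?_⟩
    apply LinearMap.ext
    intro x
    obtain ⟨⟨τ, hτ⟩, rfl⟩ := Submodule.Quotient.mk_surjective _ x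
    show Submodule.Quotient.mk _ = Submodule.Quotient.mk _
    congr 1
    apply Subtype.ext
    show contr e (Le τ - W τ) = τ
    rw [map_sub, hcoLe _ τ hτ.1, contr_deletion (hW _ τ hτ.1), sub_zero]
  refine ⟨?_, ?_, ?_, hsec⟩
  · rw [injective_iff_map_eq_zero]
    intro x hx
    obtain ⟨⟨z, hz⟩, rfl⟩ := Submodule.Quotient.mk_surjective _ x
    have hx' : Submodule.Quotient.mk (Submodule.inclusion (cycles_mono (deletion_subset K e) d)
      ⟨z, hz⟩) = (0 : Homology K d) := hx
    rw [Submodule.Quotient.mk_eq_zero] at hx' ⊢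
    obtain ⟨c, hc, hcz⟩ := hx'
    have hcz : bdry c = z := hcz
    show z ∈ boundaries (deletion K e) d
    have hτ : contr e c ∈ chains (link K e) d := contr_chains rfl hc
    have h0 : bdry (contr e c) = 0 := by
      rw [bdry_contr, hcz, contr_deletion hz.1, neg_zero]
    refine ⟨W (contr e c) + (c - Le (contr e c)), Submodule.add_mem _ (hW _ _ hτ) (hdec _ c hc), ?_⟩
    have e3 := hdW _ _ hτ
    rw [h0, map_zero, add_zero] at e3
    rw [map_add, map_sub, e3, hdLe, h0, map_zero, sub_zero, hcz]
    abel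
  · intro x
    obtain ⟨⟨z, hz⟩, rfl⟩ := Submodule.Quotient.mk_surjective _ x
    constructor
    · intro hx
      have hx' : Submodule.Quotient.mk ((contr e).restrict contr_cycles ⟨z, hz⟩) =
        (0 : Homology (link K e) (d - 1)) := hx
      rw [Submodule.Quotient.mk_eq_zero] at hx'
      obtain ⟨t, ht, htz⟩ := hx'
      have htz : bdry t = contr e z := htz
      rw [sub_add_cancel] at ht
      have hw : t + (z - Le (contr e z)) ∈ cycles (deletion K e) d := by
        refine ⟨Submodule.add_mem _ (chains_mono hLA _ ht) (hdec _ z hz.1), ?_⟩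
        show bdry (t + (z - Le (contr e z))) = 0
        rw [map_add, map_sub, LinearMap.mem_ker.1 hz.2, ← htz, hdLe]
        have : bdry (bdry t) = 0 := by
          apply (toExt (V := V)).injective
          rw [toExt_bdry, toExt_bdry, bd_bd, map_zero]
        rw [this, map_zero]
        abel
      refine ⟨Submodule.Quotient.mk ⟨_, hw⟩, ?_⟩
      show Submodule.Quotient.mk _ = Submodule.Quotient.mk _
      rw [Submodule.Quotient.eq]
      show (t + (z - Le (contr e z))) - z ∈ boundaries K d
      refine ⟨Le t, hLe _ _ ht, ?_⟩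
      rw [hdLe, htz]
      abel
    · rintro ⟨y, hy⟩
      obtain ⟨⟨w, hw⟩, rfl⟩ := Submodule.Quotient.mk_surjective _ y
      rw [← hy]
      show Submodule.Quotient.mk _ = (0 : Homology (link K e) (d - 1))
      rw [Submodule.Quotient.mk_eq_zero]
      show contr e w ∈ boundaries (link K e) (d - 1)
      rw [contr_deletion hw.1]
      exact Submodule.zero_mem _
  · obtain ⟨s, hs⟩ := hsec
    intro y
    exact ⟨s y, LinearMap.congr_fun hs y⟩

end general

/-- The matching complex of a finite set `V`: its vertices are the two-element subsets of `V`, its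
faces are the sets of pairwise disjoint two-element subsets of `V`. -/
def matchings {α : Type} (V : Finset α) : Set (Finset (Finset α)) :=
  {σ | (∀ e ∈ σ, e.card = 2 ∧ e ⊆ V) ∧ ∀ e ∈ σ, ∀ f ∈ σ, e ≠ f → Disjoint e f}


section final
variable {α : Type} [DecidableEq α]

lemma ML_iff (D : DecidableEq (Finset α)) {W : Finset α} {l : List (Finset α)} :
    (l.Nodup ∧ (@List.toFinset _ D l) ∈ matchings W) ↔ ML W l := by
  have hm : ∀ e, e ∈ @List.toFinset _ D l ↔ e ∈ l := fun e => @List.mem_toFinset _ D _ _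
  constructor
  · rintro ⟨hn, h1, h2⟩
    refine ⟨fun e he => h1 e ((hm e).2 he), ?_⟩
    refine List.Nodup.pairwise_of_forall_ne hn ?_
    intro e he f hf hef
    exact h2 e ((hm e).2 he) f ((hm f).2 hf) hef
  · intro h
    refine ⟨h.nodup, fun e he => h.1 e ((hm e).1 he), ?_⟩
    intro e he f hf hef
    exact h.2.forall ((hm e).1 he) ((hm f).1 hf) hef

variable [lo : LinearOrder (Finset α)]

lemma chE_matchings (W : Finset α) (d : ℤ) :
    chE (matchings W) d = spn (fun l => ML W l ∧ (l.length : ℤ) = d + 1) := by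
  unfold chE spn
  congr 1
  ext m
  constructor
  · rintro ⟨l, ⟨h1, h2, h3⟩, rfl⟩
    exact ⟨l, ⟨(ML_iff _).1 ⟨h1, h2⟩, h3⟩, rfl⟩
  · rintro ⟨l, ⟨h1, h3⟩, rfl⟩
    have h2 := (ML_iff lo.toDecidableEq).2 h1
    exact ⟨l, ⟨h2.1, h2.2, h3⟩, rfl⟩

lemma chE_deletion (W : Finset α) (e : Finset α) (d : ℤ) :
    chE (deletion (matchings W) e) d =
      spn (fun l => ML W l ∧ e ∉ l ∧ (l.length : ℤ) = d + 1) := by
  unfold chE spn
  congr 1
  ext m
  constructor
  · rintro ⟨l, ⟨h1, h2, h3⟩, rfl⟩
    exact ⟨l, ⟨(ML_iff _).1 ⟨h1, h2.1⟩, fun he => h2.2 ((@List.mem_toFinset _ lo.toDecidableEq _ _).2 he), h3⟩, rfl⟩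
  · rintro ⟨l, ⟨h1, h4, h3⟩, rfl⟩
    have h2 := (ML_iff lo.toDecidableEq).2 h1
    exact ⟨l, ⟨h2.1, ⟨h2.2, fun he => h4 ((@List.mem_toFinset _ lo.toDecidableEq _ _).1 he)⟩, h3⟩, rfl⟩

variable [Fintype α]

lemma link_matchings {a b : α} (hab : a ≠ b) :
    link (matchings (Finset.univ : Finset α)) ({a, b} : Finset α) =
      matchings (Finset.univ \ {a, b}) := by
  ext τ
  rw [mem_link]
  constructor
  · rintro ⟨h1, σ, hσ, h3⟩
    refine ⟨fun f hf => ⟨(hσ.1 f ((h3 f).2 (Or.inr hf))).1, ?_⟩, ?_⟩
    · intro x hx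
      rw [Finset.mem_sdiff]
      refine ⟨Finset.mem_univ _, fun hx' => ?_⟩
      have hne : f ≠ ({a, b} : Finset α) := fun h => h1 (h ▸ hf)
      exact Finset.disjoint_left.1 (hσ.2 f ((h3 f).2 (Or.inr hf)) _ ((h3 _).2 (Or.inl rfl)) hne)
        hx hx'
    · intro f hf g hg hfg
      exact hσ.2 f ((h3 f).2 (Or.inr hf)) g ((h3 g).2 (Or.inr hg)) hfg
  · intro hτ
    have h1 : ({a, b} : Finset α) ∉ τ := by
      intro h
      have := (hτ.1 _ h).2 (show a ∈ ({a, b} : Finset α) by simp)
      simp at this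
    have hd : ∀ f ∈ τ, Disjoint ({a, b} : Finset α) f := by
      intro f hf
      rw [Finset.disjoint_left]
      intro x hx hx'
      exact (Finset.mem_sdiff.1 ((hτ.1 f hf).2 hx')).2 hx
    refine ⟨h1, @insert _ _ (@Finset.instInsert _ lo.toDecidableEq) ({a, b} : Finset α) τ, ?_,
      fun f => @Finset.mem_insert _ lo.toDecidableEq _ _ _⟩
    have hm : ∀ f, f ∈ @insert _ _ (@Finset.instInsert _ lo.toDecidableEq) ({a, b} : Finset α) τ ↔
      f = {a, b} ∨ f ∈ τ := fun f => @Finset.mem_insert _ lo.toDecidableEq _ _ _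
    refine ⟨?_, ?_⟩
    · intro f hf
      rcases (hm f).1 hf with rfl | hf
      · exact ⟨Finset.card_pair hab, Finset.subset_univ _⟩
      · exact ⟨(hτ.1 f hf).1, Finset.subset_univ _⟩
    · intro f hf g hg hfg
      rcases (hm f).1 hf with rfl | hf
      · rcases (hm g).1 hg with rfl | hg
        · exact absurd rfl hfg
        · exact hd g hg
      · rcases (hm g).1 hg with rfl | hg
        · exact (hd f hf).symm
        · exact hτ.2 f hf g hg hfg

theorem main (hn : 3 ≤ Fintype.card α) {a b : α} (hab : a ≠ b) (d : ℤ) :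
    Function.Injective (inclMap (deletion_subset (matchings (Finset.univ : Finset α)) {a, b}) d) ∧
    Function.Exact (inclMap (deletion_subset (matchings (Finset.univ : Finset α)) {a, b}) d)
      (linkMap (matchings (Finset.univ : Finset α)) {a, b} d) ∧
    Function.Surjective (linkMap (matchings (Finset.univ : Finset α)) {a, b} d) ∧
    ∃ s : Homology (link (matchings (Finset.univ : Finset α)) {a, b}) (d - 1) →ₗ[ℤ]
        Homology (matchings (Finset.univ : Finset α)) d,
      linkMap (matchings (Finset.univ : Finset α)) {a, b} d ∘ₗ s = LinearMap.id := by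
  obtain ⟨v, hv⟩ : ∃ v, v ∉ ({a, b} : Finset α) := by
    by_contra hcon
    push Not at hcon
    have h1 : (Finset.univ : Finset α) ⊆ {a, b} := fun x _ => hcon x
    have h2 := Finset.card_le_card h1
    rw [Finset.card_univ, Finset.card_pair hab] at h2
    omega
  simp only [Finset.mem_insert, Finset.mem_singleton, not_or] at hv
  obtain ⟨hva, hvb⟩ := hv
  have hL : ∀ d : ℤ, ∀ τ : Ch (Finset α), τ ∈ chains (link (matchings (Finset.univ : Finset α)) {a, b}) d ↔
      toExt τ ∈ spn (fun l => ML (Finset.univ \ {a, b}) l ∧ (l.length : ℤ) = d + 1) := by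
    intro d τ
    rw [mem_chains_iff, link_matchings hab, chE_matchings]
  have hM : ∀ d : ℤ, ∀ τ : Ch (Finset α), τ ∈ chains (matchings (Finset.univ : Finset α)) d ↔
      toExt τ ∈ spn (fun l => ML Finset.univ l ∧ (l.length : ℤ) = d + 1) := by
    intro d τ
    rw [mem_chains_iff, chE_matchings]
  have hD : ∀ d : ℤ, ∀ τ : Ch (Finset α),
      τ ∈ chains (deletion (matchings (Finset.univ : Finset α)) {a, b}) d ↔
      toExt τ ∈ spn (fun l => ML Finset.univ l ∧ ({a, b} : Finset α) ∉ l ∧
        (l.length : ℤ) = d + 1) := by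
    intro d τ
    rw [mem_chains_iff, chE_deletion]
  have hae : ∀ l : List (Finset α), ML (Finset.univ \ {a, b}) l → ({a, b} : Finset α) ∉ l := by
    intro l hl h
    have := (hl.1 _ h).2 (show a ∈ ({a, b} : Finset α) by simp)
    simp at this
  have hML : ∀ l : List (Finset α), ML (Finset.univ \ {a, b}) l → ML Finset.univ l :=
    fun l hl => ⟨fun e he => ⟨(hl.1 e he).1, Finset.subset_univ _⟩, hl.2⟩
  have hLA : link (matchings (Finset.univ : Finset α)) ({a, b} : Finset α) ⊆
      deletion (matchings (Finset.univ : Finset α)) {a, b} := by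
    intro τ hτ
    refine ⟨?_, hτ.1⟩
    rw [link_matchings hab] at hτ
    exact ⟨fun e he => ⟨(hτ.1 e he).1, Finset.subset_univ _⟩, hτ.2⟩
  refine split_exact
    ((toExt (V := Finset α)).symm.toLinearMap ∘ₗ LinearMap.mulLeft ℤ (gen ({a, b} : Finset α)) ∘ₗ
      (toExt (V := Finset α)).toLinearMap)
    ((toExt (V := Finset α)).symm.toLinearMap ∘ₗ W a b v ∘ₗ (toExt (V := Finset α)).toLinearMap)
    hLA ?_ ?_ ?_ ?_ ?_ ?_ d
  · intro d τ hτ
    rw [hL] at hτ
    rw [hM]
    simp only [LinearMap.comp_apply, LinearEquiv.coe_coe, LinearEquiv.apply_symm_apply]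
    refine spn_induction _ _ ?_ hτ
    rintro l ⟨hl, hk⟩
    rw [LinearMap.mulLeft_apply, ← simplex_cons]
    apply mem_spn
    refine ⟨?_, by simp [hk]⟩
    rw [ML_cons]
    refine ⟨⟨Finset.card_pair hab, Finset.subset_univ _⟩, ?_, hML l hl⟩
    intro f hf
    rw [Finset.disjoint_left]
    intro x hx hx'
    exact (Finset.mem_sdiff.1 ((hl.1 f hf).2 hx')).2 hx
  · intro d τ hτ
    have h0 : contr ({a, b} : Finset α) τ = 0 := contr_deletion (chains_mono hLA _ hτ)
    apply (toExt (V := Finset α)).injective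
    simp only [LinearMap.comp_apply, LinearEquiv.coe_coe, toExt_contr,
      LinearEquiv.apply_symm_apply, LinearMap.mulLeft_apply]
    rw [co_gen_mul, if_pos rfl, ← toExt_contr, h0, map_zero, mul_zero, sub_zero]
  · intro τ
    apply (toExt (V := Finset α)).injective
    simp only [LinearMap.comp_apply, LinearEquiv.coe_coe, toExt_bdry, map_sub,
      LinearEquiv.apply_symm_apply, LinearMap.mulLeft_apply]
    rw [bd_gen_mul]
  · intro d z hz
    rw [hM] at hz
    rw [hD, map_sub]
    simp only [LinearMap.comp_apply, LinearEquiv.coe_coe, toExt_contr,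
      LinearEquiv.apply_symm_apply]
    have := spn_induction (LinearMap.id - LinearMap.mulLeft ℤ (gen ({a, b} : Finset α)) ∘ₗ
      co ({a, b} : Finset α)) (spn (fun l => ML Finset.univ l ∧ ({a, b} : Finset α) ∉ l ∧
        (l.length : ℤ) = d + 1)) ?_ hz
    · exact this
    · rintro l ⟨hl, hk⟩
      simp only [LinearMap.sub_apply, LinearMap.id_apply, LinearMap.comp_apply,
        LinearMap.mulLeft_apply]
      by_cases he : ({a, b} : Finset α) ∈ l
      · rw [gen_co_simplex hl.nodup he, sub_self]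
        exact Submodule.zero_mem _
      · rw [co_simplex_not he, mul_zero, sub_zero]
        exact mem_spn ⟨hl, he, hk⟩
  · intro d τ hτ
    rw [hL] at hτ
    rw [hD]
    simp only [LinearMap.comp_apply, LinearEquiv.coe_coe, LinearEquiv.apply_symm_apply]
    refine spn_induction _ _ ?_ hτ
    rintro l ⟨hl, hk⟩
    have h1 := W_mem hab hva hvb hl rfl
    refine (Submodule.span_mono ?_) h1
    rintro _ ⟨l', ⟨h2, h3, h4⟩, rfl⟩
    refine ⟨l', ⟨h2, h3, ?_⟩, rfl⟩
    rw [h4]
    push_cast
    rw [hk]
  · intro d τ hτ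
    rw [hL] at hτ
    apply (toExt (V := Finset α)).injective
    simp only [LinearMap.comp_apply, LinearEquiv.coe_coe, toExt_bdry, map_add,
      LinearEquiv.apply_symm_apply]
    have := spn_eq (bd ∘ₗ W a b v + W a b v ∘ₗ bd) LinearMap.id ?_ hτ
    · exact this
    · rintro l ⟨hl, -⟩
      exact homotopy hab hva hvb hl

end final

/-- `0 → A → B → C → 0` is split exact: it is exact, and `B` is the direct sum of `A` and `C`,
compatibly with the maps. -/
def SplitExactSeq {A B C : Type} [AddCommGroup A] [AddCommGroup B] [AddCommGroup C]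
    (f : A →ₗ[ℤ] B) (g : B →ₗ[ℤ] C) : Prop :=
  Function.Injective f ∧ Function.Exact f g ∧ Function.Surjective g ∧
    ∃ Φ : (A × C) ≃ₗ[ℤ] B, (∀ x, Φ (x, 0) = f x) ∧ ∀ x y, g (Φ (x, y)) = y

lemma splitExactSeq_of {A B C : Type} [AddCommGroup A] [AddCommGroup B] [AddCommGroup C]
    (f : A →ₗ[ℤ] B) (g : B →ₗ[ℤ] C) (h1 : Function.Injective f) (h2 : Function.Exact f g)
    (h3 : Function.Surjective g) (hs : ∃ s : C →ₗ[ℤ] B, g ∘ₗ s = LinearMap.id) :
    SplitExactSeq f g := by
  obtain ⟨s, hs⟩ := hs
  have hs' : ∀ y, g (s y) = y := fun y => LinearMap.congr_fun hs y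
  have h0 : ∀ x, g (f x) = 0 := fun x => (h2 _).2 ⟨x, rfl⟩
  have hbij : Function.Bijective (LinearMap.coprod f s) := by
    constructor
    · rw [injective_iff_map_eq_zero]
      rintro ⟨x, y⟩ hxy
      rw [LinearMap.coprod_apply] at hxy
      have hy : y = 0 := by
        have := congrArg g hxy
        rw [map_add, h0, hs', zero_add, map_zero] at this
        exact this
      subst hy
      rw [map_zero, add_zero] at hxy
      have hx : x = 0 := h1 (by rw [hxy, map_zero])
      rw [hx]
      rfl
    · intro z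
      have hz : g (z - s (g z)) = 0 := by
        rw [map_sub, hs', sub_self]
      obtain ⟨x, hx⟩ := (h2 _).1 hz
      refine ⟨(x, g z), ?_⟩
      rw [LinearMap.coprod_apply]
      show f x + s (g z) = z
      rw [hx]
      abel
  refine ⟨h1, h2, h3, LinearEquiv.ofBijective _ hbij, ?_, ?_⟩
  · intro x
    rw [LinearEquiv.ofBijective_apply, LinearMap.coprod_apply, map_zero, add_zero]
  · intro x y
    rw [LinearEquiv.ofBijective_apply, LinearMap.coprod_apply, map_add, h0, hs', zero_add]

/-- The matching complex `M_n` of `[n]`. -/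
def Mn (n : ℕ) : Set (Finset (Finset (Fin n))) := matchings Finset.univ

section final2
variable {V : Type} [LinearOrder V]

/-- The sequence `0 → H̃_d(K \ e) → H̃_d(K) → H̃_{d-1}(link of e) → 0` is split exact; the first map
is induced by the inclusion, the second one is the passage to the relative homology of the pair
(`K`, deletion of `e`) followed by the identification `e ∧ τ ↦ τ`. -/
def DeletionSequenceSplit (K : Set (Finset V)) (e : V) (d : ℤ) : Prop :=
  SplitExactSeq (inclMap (deletion_subset K e) d) (linkMap K e d)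

end final2

theorem main2 (n : ℕ) (hn : 3 ≤ n) (a b : Fin n) (hab : a ≠ b)
    [lo : LinearOrder (Finset (Fin n))] (d : ℤ) :
    link (Mn n) {a, b} = matchings (Finset.univ \ {a, b}) ∧
      DeletionSequenceSplit (Mn n) {a, b} d := by
  obtain ⟨h1, h2, h3, hs⟩ := main (α := Fin n) (by rw [Fintype.card_fin]; exact hn) hab d
  exact ⟨link_matchings hab, splitExactSeq_of _ _ h1 h2 h3 hs⟩

end Pool.Agent.H742R3.Mat
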